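import Pool.Agent.H973R3.NC.WH
import Pool.Agent.H974R2.Count

/-!
Bond percolation on `ℤ²`: influences of blocks on a real function (the number of crossing
clusters), in the near-critical window.
-/

set_option autoImplicit false

namespace Run7.h976

open H974 H12S H973N Finset

/-- A function which decreases when an edge of `W` is added. -/
def DecW (S W : Finset Edg) (f : Finset Edg → ℝ) : Prop :=
  ∀ F, F ⊆ S → ∀ e ∈ W, f (insert e F) ≤ f F

theorem DecW.le {S W : Finset Edg} {f : Finset Edg → ℝ} (hf : DecW S W f) (hW : W ⊆ S)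
    {F : Finset Edg} (hF : F ⊆ S) {b : Finset Edg} (hb : b ⊆ W) : f (F ∪ b) ≤ f F := by
  induction b using Finset.induction_on with
  | empty => rw [Finset.union_empty]
  | insert a b ha ih =>
    have h1 : b ⊆ W := (Finset.subset_insert _ _).trans hb
    have h2 : a ∈ W := hb (Finset.mem_insert_self _ _)
    rw [Finset.union_insert]
    exact (hf (F ∪ b) (Finset.union_subset hF (h1.trans hW)) a h2).trans (ih h1)

theorem cond_harris {q : ℝ} (h0 : 0 ≤ q) (h1 : q ≤ 1) {S W : Finset Edg} (hW : W ⊆ S)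
    {g : Finset Edg → ℝ} (hg : DecW S W g) {A : Finset Edg → Prop}
    (hA : ∀ F G : Finset Edg, F ⊆ G → A F → A G) (hAl : ∀ F : Finset Edg, A F ↔ A (F ∩ W)) :
    Ex (fun _ => q) S (fun F => g F * ind (A F)) ≤ Ex (fun _ => q) S g * PQ q S A := by
  have hd : Disjoint (S \ W) W := Finset.sdiff_disjoint
  have hSW : S = (S \ W) ∪ W := by rw [Finset.sdiff_union_of_subset hW]
  have hPA : PQ q S A = PQ q W A := Pr_local hW (fun F _ => hAl F)
  have key : ∀ X : Finset Edg, X ⊆ S \ W → Ex (fun _ => q) W (fun Y => g (X ∪ Y) * ind (A (X ∪ Y)))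
      ≤ Ex (fun _ => q) W (fun Y => g (X ∪ Y)) * PQ q W A := by
    intro X hX
    have hXS : X ⊆ S := hX.trans Finset.sdiff_subset
    have hXW : X ∩ W = ∅ := by
      rw [← Finset.disjoint_iff_inter_eq_empty]
      exact Finset.disjoint_of_subset_left hX hd
    have e1 : ∀ Y, Y ⊆ W → (A (X ∪ Y) ↔ A Y) := by
      intro Y hY
      rw [hAl, Finset.union_inter_distrib_right, hXW, Finset.empty_union,
        Finset.inter_eq_left.mpr hY]
    have e2 : Ex (fun _ => q) W (fun Y => g (X ∪ Y) * ind (A (X ∪ Y))) =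
        Ex (fun _ => q) W (fun Y => g (X ∪ Y) * ind (A Y)) :=
      Ex_congr (fun Y hY => by rw [ind_congr (e1 Y hY)])
    rw [e2]
    have hinc1 : Incr W (fun Y => -1 * g (X ∪ Y)) := by
      intro Y Z hYZ hZ
      have h3 : g (X ∪ Z) ≤ g (X ∪ Y) := by
        have h4 := hg.le hW (F := X ∪ Y) (Finset.union_subset hXS ((hYZ.trans hZ).trans hW))
          (b := Z) hZ
        rwa [Finset.union_assoc, Finset.union_eq_right.mpr hYZ] at h4
      simp only
      linarith
    have hinc2 : Incr W (fun Y => ind (A Y)) := fun Y Z hYZ _ => ind_mono (hA Y Z hYZ)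
    have h5 := harris (p := fun _ : Edg => q) (fun _ => ⟨h0, h1⟩) hinc1 hinc2
    rw [Ex_mul_left] at h5
    have e3 : Ex (fun _ => q) W (fun F => -1 * g (X ∪ F) * ind (A F)) =
        -1 * Ex (fun _ => q) W (fun Y => g (X ∪ Y) * ind (A Y)) := by
      rw [← Ex_mul_left]
      exact Ex_congr (fun Y _ => by ring)
    rw [e3] at h5
    unfold PQ Pr
    linarith
  rw [hPA]
  conv_lhs => rw [hSW]
  rw [Ex_union hd]
  have e4 : Ex (fun _ => q) S g = Ex (fun _ => q) (S \ W) (fun X => Ex (fun _ => q) W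
      (fun Y => g (X ∪ Y))) := by
    conv_lhs => rw [hSW]
    rw [Ex_union hd]
  rw [e4, ← Ex_mul_right]
  exact Ex_mono (fun _ => ⟨h0, h1⟩) key

theorem cond_harris' {q : ℝ} (h0 : 0 ≤ q) (h1 : q ≤ 1) {S W : Finset Edg} (hW : W ⊆ S)
    {g : Finset Edg → ℝ} (hg : DecW S W g) {A : Finset Edg → Prop}
    (hA : ∀ F G : Finset Edg, F ⊆ G → ¬ A F → ¬ A G)
    (hAl : ∀ F : Finset Edg, A F ↔ A (F ∩ W)) :
    Ex (fun _ => q) S g * PQ q S A ≤ Ex (fun _ => q) S (fun F => g F * ind (A F)) := by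
  have h := cond_harris h0 h1 hW hg (A := fun F => ¬ A F) hA (fun F => not_congr (hAl F))
  have e1 : PQ q S (fun F => ¬ A F) = 1 - PQ q S A := Pr_not _ _
  have e2 : Ex (fun _ => q) S (fun F => g F * ind (¬ A F)) =
      Ex (fun _ => q) S g - Ex (fun _ => q) S (fun F => g F * ind (A F)) := by
    rw [← Ex_sub]
    exact Ex_congr (fun F _ => by rw [ind_not]; ring)
  rw [e1, e2] at h
  linarith

theorem infl_real {q : ℝ} (h0 : 0 ≤ q) (h1 : q ≤ 1) {S : Finset Edg} {c : ℤ × ℤ} {m : ℕ}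
    (hS : blk c (3 * m) ⊆ S) {f : Finset Edg → ℝ} (hf : DecW S (blk c (3 * m)) f)
    (hfU : ∀ F, F ⊆ S → BSU c m F → f (F ∪ blk c m) = f F)
    (hfD : ∀ F, F ⊆ S → BSD c m F → f (F \ blk c m) = f F)
    (hU : 0 < PQ q S (BSU c m)) (hD : 0 < PQ q S (BSD c m)) :
    Ex (fun _ => q) S (fun F => f (F \ blk c m)) - Ex (fun _ => q) S (fun F => f (F ∪ blk c m)) ≤
      -1 * Ex (fun _ => q) S (fun F => f F * BSV q S c m F) := by
  have hbW : blk c m ⊆ blk c (3 * m) := by
    unfold blk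
    apply RE_subset <;> push_cast <;> omega
  have g1 : DecW S (blk c (3 * m)) (fun F => f (F ∪ blk c m)) := by
    intro F hF e he
    simp only
    rw [Finset.insert_union]
    exact hf _ (Finset.union_subset hF (hbW.trans hS)) e he
  have g2 : DecW S (blk c (3 * m)) (fun F => f (F \ blk c m)) := by
    intro F hF e he
    simp only
    by_cases heb : e ∈ blk c m
    · rw [Finset.insert_sdiff_of_mem _ heb]
    · rw [Finset.insert_sdiff_of_notMem _ heb]
      exact hf _ (Finset.sdiff_subset.trans hF) e he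
  have a1 := cond_harris h0 h1 hS g1 (A := BSU c m) (fun F G h hF => BSU_mono h hF)
    (BSU_local c m)
  have a2 := cond_harris' h0 h1 hS g2 (A := BSD c m) (fun F G h hF => by
    unfold BSD at hF ⊢
    rw [not_not] at hF ⊢
    exact BS_crs_mono (by exact_mod_cast h) hF) (BSD_local c m)
  have e1 : Ex (fun _ => q) S (fun F => f (F ∪ blk c m) * ind (BSU c m F)) =
      Ex (fun _ => q) S (fun F => f F * ind (BSU c m F)) := by
    apply Ex_congr
    intro F hF
    by_cases h : BSU c m F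
    · rw [hfU F hF h]
    · rw [ind_not_of h, mul_zero, mul_zero]
  have e2 : Ex (fun _ => q) S (fun F => f (F \ blk c m) * ind (BSD c m F)) =
      Ex (fun _ => q) S (fun F => f F * ind (BSD c m F)) := by
    apply Ex_congr
    intro F hF
    by_cases h : BSD c m F
    · rw [hfD F hF h]
    · rw [ind_not_of h, mul_zero, mul_zero]
  rw [e1] at a1
  rw [e2] at a2
  have e3 : Ex (fun _ => q) S (fun F => f F * BSV q S c m F) =
      (PQ q S (BSU c m))⁻¹ * Ex (fun _ => q) S (fun F => f F * ind (BSU c m F)) -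
      (PQ q S (BSD c m))⁻¹ * Ex (fun _ => q) S (fun F => f F * ind (BSD c m F)) := by
    rw [← Ex_mul_left, ← Ex_mul_left, ← Ex_sub]
    exact Ex_congr (fun F _ => by unfold BSV; ring)
  rw [e3]
  have b1 : (PQ q S (BSU c m))⁻¹ * Ex (fun _ => q) S (fun F => f F * ind (BSU c m F)) ≤
      Ex (fun _ => q) S (fun F => f (F ∪ blk c m)) := by
    rw [inv_mul_le_iff₀ hU, mul_comm]
    exact a1
  have b2 : Ex (fun _ => q) S (fun F => f (F \ blk c m)) ≤
      (PQ q S (BSD c m))⁻¹ * Ex (fun _ => q) S (fun F => f F * ind (BSD c m F)) := by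
    rw [le_inv_mul_iff₀ hD, mul_comm]
    exact a2
  linarith

/-- The sum of the influences of disjoint blocks on a real function. -/
theorem sum_real {ι : Type*} [DecidableEq ι] {q κ : ℝ} (h0 : 0 ≤ q) (h1 : q ≤ 1) (hκ : 0 < κ)
    {S : Finset Edg} {T : Finset ι} {c : ι → ℤ × ℤ} {m : ℕ}
    (hS : ∀ t ∈ T, blk (c t) (3 * m) ⊆ S)
    (hd : ∀ t ∈ T, ∀ t' ∈ T, t ≠ t' → Disjoint (blk (c t) (3 * m)) (blk (c t') (3 * m)))
    (hU : ∀ t ∈ T, κ ^ 4 ≤ PQ q S (BSU (c t) m)) (hD : ∀ t ∈ T, κ ^ 4 ≤ PQ q S (BSD (c t) m))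
    {f : Finset Edg → ℝ} (hf : ∀ t ∈ T, DecW S (blk (c t) (3 * m)) f)
    (hfU : ∀ t ∈ T, ∀ F, F ⊆ S → BSU (c t) m F → f (F ∪ blk (c t) m) = f F)
    (hfD : ∀ t ∈ T, ∀ F, F ⊆ S → BSD (c t) m F → f (F \ blk (c t) m) = f F) {V : ℝ}
    (hV : Ex (fun _ => q) S (fun F => (f F) ^ 2) ≤ V) :
    ∑ t ∈ T, (Ex (fun _ => q) S (fun F => f (F \ blk (c t) m)) -
      Ex (fun _ => q) S (fun F => f (F ∪ blk (c t) m))) ≤
      Real.sqrt (V * (T.card * (2 * κ⁻¹ ^ 4))) := by
  have hok : Ok (fun _ : Edg => q) := fun _ => ⟨h0, h1⟩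
  have hk4 : 0 < κ ^ 4 := by positivity
  have hU' : ∀ t ∈ T, 0 < PQ q S (BSU (c t) m) := fun t ht => hk4.trans_le (hU t ht)
  have hD' : ∀ t ∈ T, 0 < PQ q S (BSD (c t) m) := fun t ht => hk4.trans_le (hD t ht)
  set g : Finset Edg → ℝ := fun F => ∑ t ∈ T, BSV q S (c t) m F with hg
  have b1 : ∑ t ∈ T, (Ex (fun _ => q) S (fun F => f (F \ blk (c t) m)) -
      Ex (fun _ => q) S (fun F => f (F ∪ blk (c t) m))) ≤
      -1 * Ex (fun _ => q) S (fun F => f F * g F) := by
    have e1 : Ex (fun _ => q) S (fun F => f F * g F) =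
        ∑ t ∈ T, Ex (fun _ => q) S (fun F => f F * BSV q S (c t) m F) := by
      rw [← Ex_sum]
      apply Ex_congr
      intro F _
      rw [hg, Finset.mul_sum]
    rw [e1, Finset.mul_sum]
    exact Finset.sum_le_sum fun t ht =>
      infl_real h0 h1 (hS t ht) (hf t ht) (hfU t ht) (hfD t ht) (hU' t ht) (hD' t ht)
  have b3 : Ex (fun _ => q) S (fun F => (g F) ^ 2) =
      ∑ t ∈ T, Ex (fun _ => q) S (fun F => BSV q S (c t) m F * BSV q S (c t) m F) := by
    have e1 : Ex (fun _ => q) S (fun F => (g F) ^ 2) =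
        ∑ t ∈ T, ∑ t' ∈ T, Ex (fun _ => q) S (fun F => BSV q S (c t) m F * BSV q S (c t') m F) := by
      have e2 : ∀ F : Finset Edg, F ⊆ S → (g F) ^ 2 =
          ∑ t ∈ T, ∑ t' ∈ T, BSV q S (c t) m F * BSV q S (c t') m F := by
        intro F _
        rw [hg, sq, Finset.sum_mul_sum]
      rw [Ex_congr e2, Ex_sum]
      apply Finset.sum_congr rfl
      intro t _
      rw [Ex_sum]
    rw [e1]
    apply Finset.sum_congr rfl
    intro t ht
    rw [Finset.sum_eq_single t]
    · intro t' ht' hne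
      rw [Ex_mul_indep (hS t ht) (hS t' ht') (hd t ht t' ht' (Ne.symm hne))
        (fun F _ => BSV_local q S (c t) m F) (fun F _ => BSV_local q S (c t') m F),
        BSV_mean (hU' t ht) (hD' t ht), zero_mul]
    · intro h; exact absurd ht h
  have b4 : Ex (fun _ => q) S (fun F => (g F) ^ 2) ≤ T.card * (2 * κ⁻¹ ^ 4) := by
    rw [b3]
    have : ∀ t ∈ T, Ex (fun _ => q) S (fun F => BSV q S (c t) m F * BSV q S (c t) m F) ≤
        2 * κ⁻¹ ^ 4 := by
      intro t ht
      refine (BSV_sq h0 h1 (hU' t ht) (hD' t ht)).trans ?_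
      have i1 : (PQ q S (BSU (c t) m))⁻¹ ≤ κ⁻¹ ^ 4 := by
        rw [inv_pow]; exact inv_anti₀ hk4 (hU t ht)
      have i2 : (PQ q S (BSD (c t) m))⁻¹ ≤ κ⁻¹ ^ 4 := by
        rw [inv_pow]; exact inv_anti₀ hk4 (hD t ht)
      linarith
    refine (Finset.sum_le_sum this).trans ?_
    rw [Finset.sum_const, nsmul_eq_mul]
  have b5 := Ex_cs hok S f g
  have hg0 : 0 ≤ Ex (fun _ => q) S (fun F => (g F) ^ 2) :=
    Ex_nonneg hok (fun F _ => sq_nonneg _)
  have hf0 : 0 ≤ Ex (fun _ => q) S (fun F => (f F) ^ 2) :=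
    Ex_nonneg hok (fun F _ => sq_nonneg _)
  refine b1.trans (Real.le_sqrt_of_sq_le ?_)
  have e5 : (-1 * Ex (fun _ => q) S (fun F => f F * g F)) ^ 2 =
      (Ex (fun _ => q) S (fun F => f F * g F)) ^ 2 := by ring
  rw [e5]
  refine b5.trans ?_
  have hV0 : 0 ≤ V := hf0.trans hV
  exact mul_le_mul hV b4 hg0 hV0

/-- The number of clusters with a vertex in `K` which reach `B`, as a real number. -/
noncomputable def nc (K : Finset Vtx) (B : Set Vtx) (F : Finset Edg) : ℝ :=
  (NC src tgt K B (↑F : Set Edg) : ℝ)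

theorem nc_insert {K : Finset Vtx} {B : Set Vtx} {F : Finset Edg} {e : Edg}
    (hs : src e ∈ K) (ht : tgt e ∈ K) :
    nc K B F - nc K B (insert e F) = ind (RB src tgt B (↑F : Set Edg) (src e) ∧
      RB src tgt B (↑F : Set Edg) (tgt e) ∧ ¬ Reach (↑F : Set Edg) (src e) (tgt e)) := by
  unfold nc
  rw [Finset.coe_insert]
  exact NC_insert hs ht

theorem nc_insert_le {K : Finset Vtx} {B : Set Vtx} {F : Finset Edg} {e : Edg}
    (hs : src e ∈ K) (ht : tgt e ∈ K) : nc K B (insert e F) ≤ nc K B F := by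
  have h1 := nc_insert (B := B) (F := F) hs ht
  have h2 := ind_nonneg (RB src tgt B (↑F : Set Edg) (src e) ∧
      RB src tgt B (↑F : Set Edg) (tgt e) ∧ ¬ Reach (↑F : Set Edg) (src e) (tgt e))
  linarith

/-- Adding edges which do not join two distinct clusters reaching `B`. -/
theorem nc_union_eq {K : Finset Vtx} {B : Set Vtx} {F b : Finset Edg}
    (hK : ∀ e ∈ b, src e ∈ K ∧ tgt e ∈ K)
    (h : ∀ b' : Finset Edg, b' ⊆ b → ∀ e ∈ b, RB src tgt B (↑(F ∪ b') : Set Edg) (src e) →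
      RB src tgt B (↑(F ∪ b') : Set Edg) (tgt e) →
      Reach (↑(F ∪ b') : Set Edg) (src e) (tgt e)) :
    nc K B (F ∪ b) = nc K B F := by
  induction b using Finset.induction_on with
  | empty => rw [Finset.union_empty]
  | insert a b ha ih =>
    have h1 := ih (fun e he => hK e (Finset.mem_insert_of_mem he))
      (fun b' hb' e he => h b' (hb'.trans (Finset.subset_insert _ _)) e
        (Finset.mem_insert_of_mem he))
    have h2 := hK a (Finset.mem_insert_self _ _)
    rw [Finset.union_insert, ← h1]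
    have h3 := nc_insert (B := B) (F := F ∪ b) h2.1 h2.2
    rw [ind_not_of] at h3
    · linarith
    · rintro ⟨k1, k2, k3⟩
      exact k3 (h b (Finset.subset_insert _ _) a (Finset.mem_insert_self _ _) k1 k2)

/-- If two distinct clusters reaching `B` are joined by the edges of `b`, then `nc` drops. -/
theorem nc_drop {K : Finset Vtx} {B : Set Vtx} {F b : Finset Edg} {u v : Vtx}
    (hK : ∀ e ∈ b, src e ∈ K ∧ tgt e ∈ K) (hu : RB src tgt B (↑F : Set Edg) u)
    (hv : RB src tgt B (↑F : Set Edg) v) (hn : ¬ Reach (↑F : Set Edg) u v)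
    (hc : Reach (↑(F ∪ b) : Set Edg) u v) : nc K B (F ∪ b) + 1 ≤ nc K B F := by
  induction b using Finset.induction_on with
  | empty =>
    rw [Finset.union_empty] at hc
    exact absurd hc hn
  | insert a b ha ih =>
    have hK' : ∀ e ∈ b, src e ∈ K ∧ tgt e ∈ K := fun e he => hK e (Finset.mem_insert_of_mem he)
    have h2 := hK a (Finset.mem_insert_self _ _)
    rw [Finset.union_insert]
    by_cases h3 : Reach (↑(F ∪ b) : Set Edg) u v
    · have h4 := ih hK' h3
      have h5 := nc_insert_le (B := B) (F := F ∪ b) h2.1 h2.2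
      linarith
    · have h6 : nc K B (F ∪ b) ≤ nc K B F := by
        have : DecW (F ∪ b) b (nc K B) := by
          intro G _ e he
          exact nc_insert_le (hK' e he).1 (hK' e he).2
        exact this.le Finset.subset_union_right Finset.subset_union_left (Finset.Subset.refl _)
      have h7 := nc_insert (B := B) (F := F ∪ b) h2.1 h2.2
      have hmono : ∀ w : Vtx, RB src tgt B (↑F : Set Edg) w →
          RB src tgt B (↑(F ∪ b) : Set Edg) w := by
        rintro w ⟨z, hz, hwz⟩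
        refine ⟨z, hz, ?_⟩
        have : Reach (↑F : Set Edg) w z := hwz
        exact this.mono (by exact_mod_cast Finset.subset_union_left)
      have hRB : ∀ w z : Vtx, Reach (↑(F ∪ b) : Set Edg) w z →
          RB src tgt B (↑(F ∪ b) : Set Edg) w → RB src tgt B (↑(F ∪ b) : Set Edg) z :=
        fun w z h => (RB_iff h).mp
      rw [Finset.union_insert, Finset.coe_insert] at hc
      have h8 : Reach (↑(F ∪ b) : Set Edg) u v ∨
          (Reach (↑(F ∪ b) : Set Edg) u (src a) ∧ Reach (↑(F ∪ b) : Set Edg) (tgt a) v) ∨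
          (Reach (↑(F ∪ b) : Set Edg) u (tgt a) ∧ Reach (↑(F ∪ b) : Set Edg) (src a) v) :=
        (GR_insert (s := src) (t := tgt) (F := (↑(F ∪ b) : Set Edg)) (e := a) (x := u)
          (y := v)).mp hc
      have h9 : ind (RB src tgt B (↑(F ∪ b) : Set Edg) (src a) ∧
          RB src tgt B (↑(F ∪ b) : Set Edg) (tgt a) ∧
          ¬ Reach (↑(F ∪ b) : Set Edg) (src a) (tgt a)) = 1 := by
        apply ind_of
        rcases h8 with h8 | ⟨k1, k2⟩ | ⟨k1, k2⟩
        · exact absurd h8 h3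
        · exact ⟨hRB _ _ k1 (hmono u hu), hRB _ _ k2.symm (hmono v hv),
            fun k3 => h3 ((k1.trans k3).trans k2)⟩
        · exact ⟨hRB _ _ k2.symm (hmono v hv), hRB _ _ k1 (hmono u hu),
            fun k3 => h3 ((k1.trans k3.symm).trans k2)⟩
      rw [h9] at h7
      linarith

end Run7.h976
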