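import Pool.Agent.Run7.h976.AF1
import Pool.Agent.H389R2.NS.S4
import Pool.Agent.H389R2.NS.E1b

/-!
Bond percolation on `ℤ²`: a bound for the four-arm probability of an annulus which is valid in the
near-critical window.
-/

set_option autoImplicit false

namespace Run7.h976

open H974 H12S H973N H389NS H389NS.E1b Finset

/-- The four-arm probability of an annulus. -/
noncomputable def ann (q : ℝ) (d k : ℕ) : ℝ := PQ q (boxE k) (fun F => A4a (0, 0) d k ↑F)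

theorem ann_nonneg {q : ℝ} (h0 : 0 ≤ q) (h1 : q ≤ 1) (d k : ℕ) : 0 ≤ ann q d k :=
  Pr_nonneg (fun _ => ⟨h0, h1⟩) _ _

theorem ann_le_one {q : ℝ} (h0 : 0 ≤ q) (h1 : q ≤ 1) (d k : ℕ) : ann q d k ≤ 1 :=
  Pr_le_one (fun _ => ⟨h0, h1⟩) _ _

theorem blk_eq_mp (c : ℤ × ℤ) (k : ℕ) : (trl c.1 c.2).mp (boxE k) = blk c k := by
  unfold blk boxE
  rw [trl_RE]
  congr 1 <;> ring

theorem le_ann {q : ℝ} (h0 : 0 ≤ q) (h1 : q ≤ 1) {c : ℤ × ℤ} {d k : ℕ} {S : Finset Edg}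
    (hS : blk c k ⊆ S) : PQ q S (fun F => A4a c d k ↑F) ≤ ann q d k := by
  have e1 : PQ q S (fun F => A4a c d k ↑F) = PQ q (blk c k) (fun F => A4a c d k ↑F) :=
    Pr_local hS (fun F _ => S4C_inter (Finset.Subset.refl _))
  rw [e1, ← blk_eq_mp]
  unfold PQ
  rw [LSym.pr]
  exact Pr_mono (fun _ => ⟨h0, h1⟩) (fun F _ hF => S4C_trl hF)

theorem A4a_trl {c : ℤ × ℤ} {d k : ℕ} {F : Finset Edg}
    (h : A4a (0, 0) d k (↑F : Set Edg)) : A4a c d k (↑((trl c.1 c.2).mp F) : Set Edg) := by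
  have hblk : ∀ j : ℕ, (trl c.1 c.2).mp (blk (0, 0) j) = blk c j := by
    intro j
    unfold blk
    rw [trl_RE]
    congr 1 <;> ring
  have hset : (↑((trl c.1 c.2).mp F) : Set Edg) ∩ ↑(blk c k \ blk c d) =
      (trl c.1 c.2).φ '' ((↑F : Set Edg) ∩ ↑(blk (0, 0) k \ blk (0, 0) d)) := by
    rw [← hblk k, ← hblk d, ← LSym.mp_sdiff, ← Finset.coe_inter, ← LSym.mp_inter, LSym.coe_mp,
      Finset.coe_inter]
  have hb : ∀ (j : ℕ) (w : Vtx), w ∈ bdB (0, 0) j → (trl c.1 c.2).ψ w ∈ bdB c j := by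
    rintro j ⟨w1, w2⟩ ⟨g1, g2, g3⟩
    rw [trl_ψ]
    refine ⟨?_, ?_, ?_⟩
    · simpa using g1
    · simpa using g2
    · simpa using g3
  unfold A4a at h ⊢
  rw [hset]
  obtain ⟨u, hu, u', hu', ⟨w, hw, hr⟩, ⟨w', hw', hr'⟩, hn⟩ := h
  refine ⟨_, hb d u hu, _, hb d u' hu', ⟨_, hb k w hw, ?_⟩, ⟨_, hb k w' hw', ?_⟩, ?_⟩
  · rw [LSym.reach_iff]; exact hr
  · rw [LSym.reach_iff]; exact hr'
  · rw [LSym.reach_iff]; exact hn

theorem ann_le {q : ℝ} (h0 : 0 ≤ q) (h1 : q ≤ 1) (c : ℤ × ℤ) (d k : ℕ) :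
    ann q d k ≤ PQ q (blk c k) (fun F => A4a c d k ↑F) := by
  rw [← blk_eq_mp c k]
  unfold PQ
  rw [LSym.pr]
  exact Pr_mono (fun _ => ⟨h0, h1⟩) (fun F _ hF => A4a_trl hF)

/-- All vertices of a block are connected in the block. -/
theorem blk_conn {c : ℤ × ℤ} {d : ℕ} {u v : Vtx}
    (hu : inR (c.1 - d) (c.1 + d) (c.2 - d) (c.2 + d) u)
    (hv : inR (c.1 - d) (c.1 + d) (c.2 - d) (c.2 + d) v) : Reach (↑(blk c d) : Set Edg) u v := by
  have h1 := SB.box_conn (d := d) (u := (u.1 - c.1, u.2 - c.2)) (v := (v.1 - c.1, v.2 - c.2))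
    (by unfold inR at hu; rw [abs_le, abs_le]; simp only; omega)
    (by unfold inR at hv; rw [abs_le, abs_le]; simp only; omega)
  have h2 := (BS_reach_trl c.1 c.2).2 h1
  rw [blk_eq_mp] at h2
  simpa using h2

/-- Vertices far from the origin. -/
def Bfar (R : ℕ) : Set Vtx := {y | BSfar (0, 0) R y}

/-- Vertices of a box. -/
noncomputable def Kbox (m : ℕ) : Finset Vtx :=
  Finset.Icc (-(m:ℤ)) m ×ˢ Finset.Icc (-(m:ℤ)) m

theorem mem_Kbox {m : ℕ} {v : Vtx} : v ∈ Kbox m ↔ inR (-(m:ℤ)) m (-(m:ℤ)) m v := by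
  unfold Kbox inR
  rw [Finset.mem_product, Finset.mem_Icc, Finset.mem_Icc]

/-- Two distinct clusters outside the block reach `Bfar R`. -/
def Yev (R : ℕ) (c : ℤ × ℤ) (d : ℕ) (F : Finset Edg) : Prop :=
  ∃ u u' : Vtx, inR (c.1 - d) (c.1 + d) (c.2 - d) (c.2 + d) u ∧
    inR (c.1 - d) (c.1 + d) (c.2 - d) (c.2 + d) u' ∧
    RB src tgt (Bfar R) (↑(F \ blk c d) : Set Edg) u ∧
    RB src tgt (Bfar R) (↑(F \ blk c d) : Set Edg) u' ∧
    ¬ Reach (↑(F \ blk c d) : Set Edg) u u'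

theorem A4a_Yev {c : ℤ × ℤ} {d k R : ℕ} {F : Finset Edg} (hd : |c.1| + d ≤ R ∧ |c.2| + d ≤ R)
    (hk : |c.1| + R ≤ k ∧ |c.2| + R ≤ k) (h : A4a c d k (↑F : Set Edg)) :
    Yev R c d (F ∩ boxE R) := by
  obtain ⟨⟨k1, k2⟩, k3, k4⟩ := And.intro hd hk
  have a1 := abs_le.mp (le_refl |c.1|)
  have a2 := abs_le.mp (le_refl |c.2|)
  obtain ⟨u, hu, u', hu', ⟨w, hw, hr⟩, ⟨w', hw', hr'⟩, hn⟩ := h
  have hin : ∀ v : Vtx, v ∈ bdB c d → inR (-(R:ℤ)) R (-(R:ℤ)) R v := by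
    intro v hv
    have := (bdB_iff.mp hv).1
    unfold inR at this ⊢
    omega
  have hout : ∀ v : Vtx, v ∈ bdB c k → v.1 ≤ -(R:ℤ) ∨ (R:ℤ) ≤ v.1 ∨ v.2 ≤ -(R:ℤ) ∨ (R:ℤ) ≤ v.2 := by
    intro v hv
    have := (bdB_iff.mp hv).2
    omega
  have hsub : ((↑F : Set Edg) ∩ ↑(blk c k \ blk c d)) ∩ ↑(RE (-(R:ℤ)) R (-(R:ℤ)) R) ⊆
      (↑((F ∩ boxE R) \ blk c d) : Set Edg) := by
    rintro e ⟨⟨g1, g2⟩, g3⟩
    rw [Finset.mem_coe, Finset.mem_sdiff] at g2
    rw [Finset.mem_coe, Finset.mem_sdiff, Finset.mem_inter]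
    exact ⟨⟨g1, g3⟩, g2.2⟩
  have hsub2 : (↑((F ∩ boxE R) \ blk c d) : Set Edg) ⊆ (↑F : Set Edg) ∩ ↑(blk c k \ blk c d) := by
    intro e he
    rw [Finset.mem_coe, Finset.mem_sdiff, Finset.mem_inter] at he
    refine ⟨he.1.1, ?_⟩
    rw [Finset.mem_coe, Finset.mem_sdiff]
    refine ⟨?_, he.2⟩
    have h5 := he.1.2
    unfold boxE at h5
    unfold blk
    exact RE_subset (by omega) (by omega) (by omega) (by omega) h5
  obtain ⟨v, b1, b2, b3⟩ := first_exit (hin u hu) hr (hout w hw)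
  obtain ⟨v', b1', b2', b3'⟩ := first_exit (hin u' hu') hr' (hout w' hw')
  have hB : ∀ z : Vtx, (z.1 = -(R:ℤ) ∨ z.1 = R ∨ z.2 = -(R:ℤ) ∨ z.2 = R) → z ∈ Bfar R := by
    intro z hz
    show BSfar (0, 0) R z
    unfold BSfar
    simp only
    omega
  exact ⟨u, u', (bdB_iff.mp hu).1, (bdB_iff.mp hu').1, ⟨v, hB v b2, b3.mono hsub⟩,
    ⟨v', hB v' b2', b3'.mono hsub⟩, fun hc => hn (hc.mono hsub2)⟩

theorem Yev_drop {c : ℤ × ℤ} {d L R : ℕ} {F : Finset Edg}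
    (hK : ∀ e ∈ blk c d, src e ∈ Kbox L ∧ tgt e ∈ Kbox L) (h : Yev R c d F) :
    nc (Kbox L) (Bfar R) (F ∪ blk c d) + 1 ≤ nc (Kbox L) (Bfar R) (F \ blk c d) := by
  obtain ⟨u, u', hu, hu', h1, h2, h3⟩ := h
  have e1 : F ∪ blk c d = (F \ blk c d) ∪ blk c d := by rw [Finset.sdiff_union_self_eq_union]
  rw [e1]
  refine nc_drop hK h1 h2 h3 ?_
  exact (blk_conn hu hu').mono (by exact_mod_cast Finset.subset_union_right)

theorem ann_weak {κ : ℝ} (hκ : 0 < κ) : ∃ C : ℝ, 0 < C ∧ ∀ (q : ℝ) (n : ℕ), Win q κ n →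
    ∀ d k : ℕ, 1 ≤ d → d ≤ k → k ≤ n → ann q d k ≤ C * ((d:ℝ) / k) := by
  refine ⟨64 + 128 * κ⁻¹ ^ 6, by positivity, ?_⟩
  intro q n hW d k hd hdk hkn
  have h0 : 0 ≤ q := by linarith [hW.lo]
  have h1 : q ≤ 1 := by linarith [hW.hi]
  have hok : Ok (fun _ : Edg => q) := fun _ => ⟨h0, h1⟩
  have hd0 : (0:ℝ) < d := by exact_mod_cast hd
  have hk0 : (0:ℝ) < k := by exact_mod_cast (lt_of_lt_of_le hd hdk)
  rcases lt_or_ge k (64 * d) with hlt | hge
  · have h2 : (1:ℝ) ≤ 64 * ((d:ℝ) / k) := by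
      rw [← mul_div_assoc, le_div_iff₀ hk0, one_mul]
      exact_mod_cast hlt.le
    have h3 : 0 ≤ 128 * κ⁻¹ ^ 6 * ((d:ℝ) / k) := by positivity
    have h4 := ann_le_one h0 h1 d k
    rw [add_mul]
    linarith
  obtain ⟨L, hL⟩ : ∃ L : ℕ, L = k / 4 := ⟨_, rfl⟩
  obtain ⟨j, hj⟩ : ∃ j : ℕ, j = k / (64 * d) := ⟨_, rfl⟩
  have hj1 : 1 ≤ j := by
    rw [hj, Nat.le_div_iff_mul_le (by omega)]
    omega
  have hjk : 64 * d * j ≤ k := by rw [hj]; exact Nat.mul_div_le _ _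
  have hjk2 : k < 64 * d * (j + 1) := by
    rw [hj]
    have := Nat.lt_mul_div_succ k (show 0 < 64 * d by omega)
    exact this
  obtain ⟨P, hP⟩ : ∃ P : ℕ, P = d * j := ⟨_, rfl⟩
  have hP1 : 64 * P ≤ k := by
    rw [hP]
    calc 64 * (d * j) = 64 * d * j := by ring
      _ ≤ k := hjk
  have hP2 : d ≤ P := by
    rw [hP]
    calc d = d * 1 := (Nat.mul_one d).symm
      _ ≤ d * j := Nat.mul_le_mul_left _ hj1
  set T : Finset (ℤ × ℤ) := Finset.Icc (-(j:ℤ)) j ×ˢ Finset.Icc (-(j:ℤ)) j with hT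
  set ct : ℤ × ℤ → ℤ × ℤ := fun t => (7 * d * t.1, 7 * d * t.2) with hct
  have hbd : ∀ t ∈ T, (-(7 * P : ℤ) ≤ (ct t).1 ∧ (ct t).1 ≤ 7 * P) ∧
      (-(7 * P : ℤ) ≤ (ct t).2 ∧ (ct t).2 ≤ 7 * P) := by
    intro t ht
    rw [hT, Finset.mem_product, Finset.mem_Icc, Finset.mem_Icc] at ht
    have hPz : (P:ℤ) = d * j := by exact_mod_cast hP
    have key : ∀ x : ℤ, -(j:ℤ) ≤ x → x ≤ j → -(7 * P : ℤ) ≤ 7 * d * x ∧ 7 * d * x ≤ 7 * P := by
      intro x hx1 hx2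
      rw [hPz]
      have hdz : (0:ℤ) ≤ d := Int.natCast_nonneg d
      constructor
      · nlinarith
      · nlinarith
    exact ⟨key _ ht.1.1 ht.1.2, key _ ht.2.1 ht.2.2⟩
  set S : Finset Edg := boxE (3 * L) with hS
  set f : Finset Edg → ℝ := nc (Kbox L) (Bfar (3 * L)) with hf
  have hLk : 4 * L ≤ k := by omega
  have hkL : k < 4 * L + 4 := by omega
  have hK3 : ∀ t ∈ T, ∀ e ∈ blk (ct t) (3 * d), src e ∈ Kbox L ∧ tgt e ∈ Kbox L := by
    intro t ht e he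
    obtain ⟨⟨b1, b2⟩, b3, b4⟩ := hbd t ht
    have h2 := BS_adj_box he
    rw [mem_Kbox, mem_Kbox]
    unfold inR at h2 ⊢
    push_cast at h2
    omega
  have hblk1 : ∀ t : ℤ × ℤ, blk (ct t) d ⊆ blk (ct t) (3 * d) := by
    intro t
    unfold blk
    apply RE_subset <;> push_cast <;> omega
  have hsubS : ∀ t ∈ T, blk (ct t) (3 * d) ⊆ S := by
    intro t ht
    obtain ⟨⟨b1, b2⟩, b3, b4⟩ := hbd t ht
    rw [hS]
    unfold blk boxE
    apply RE_subset <;> push_cast <;> omega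
  have hfarB : ∀ t ∈ T, ∀ y : Vtx, y ∈ Bfar (3 * L) → BSfar (ct t) (3 * d) y := by
    intro t ht y hy
    obtain ⟨⟨b1, b2⟩, b3, b4⟩ := hbd t ht
    have hy' : BSfar (0, 0) (3 * L) y := hy
    unfold BSfar at hy' ⊢
    push_cast at hy' ⊢
    omega
  -- the three properties of `f`
  have hf1 : ∀ t ∈ T, DecW S (blk (ct t) (3 * d)) f := by
    intro t ht F _ e he
    exact nc_insert_le (hK3 t ht e he).1 (hK3 t ht e he).2
  have hf2 : ∀ t ∈ T, ∀ F, F ⊆ S → BSU (ct t) d F → f (F ∪ blk (ct t) d) = f F := by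
    intro t ht F _ hU
    refine nc_union_eq (fun e he => hK3 t ht e (hblk1 t he)) ?_
    intro b' _ e he h3 h4
    obtain ⟨z, hz⟩ := BSU_meet hd (BSU_mono (Finset.subset_union_left (s₂ := b')) hU)
    obtain ⟨y, hy, hy2⟩ := h3
    obtain ⟨y', hy', hy2'⟩ := h4
    have h5 := BS_adj_box he
    have g1 := hz (src e) y h5.1 (hfarB t ht y hy) hy2
    have g2 := hz (tgt e) y' h5.2 (hfarB t ht y' hy') hy2'
    exact g1.trans g2.symm
  have hf3 : ∀ t ∈ T, ∀ F, F ⊆ S → BSD (ct t) d F → f (F \ blk (ct t) d) = f F := by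
    intro t ht F _ hD
    have e1 : F = (F \ blk (ct t) d) ∪ (F ∩ blk (ct t) d) := (Finset.sdiff_union_inter F _).symm
    have h2 : nc (Kbox L) (Bfar (3 * L)) ((F \ blk (ct t) d) ∪ (F ∩ blk (ct t) d)) =
        nc (Kbox L) (Bfar (3 * L)) (F \ blk (ct t) d) := by
      refine nc_union_eq (fun e he => hK3 t ht e (hblk1 t (Finset.mem_inter.mp he).2)) ?_
      intro b' hb' e he h3 _
      exfalso
      obtain ⟨y, hy, hy2⟩ := h3
      have h5 := BS_adj_box (Finset.mem_inter.mp he).2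
      apply hD
      have hy3 : Reach (↑(F \ blk (ct t) d ∪ b') : Set Edg) (src e) y := hy2
      refine ⟨src e, y, h5.1, hfarB t ht y hy, hy3.mono ?_⟩
      exact_mod_cast Finset.union_subset Finset.sdiff_subset
        (hb'.trans Finset.inter_subset_left)
    rw [← e1] at h2
    exact h2.symm
  -- second moment
  have hV : Ex (fun _ => q) S (fun F => (f F) ^ 2) ≤ 2 / (κ ^ 4) ^ 2 := by
    have hκle : κ ≤ 1 / 2 := hW.kle
    have hκ4 : 0 < κ ^ 4 := by positivity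
    have h2 := NC_sq (p := fun _ : Edg => q) hok S src tgt (Kbox L) (Bfar (3 * L))
      (lam := 1 - κ ^ 4) (by linarith) ?_
    · rw [show 1 - (1 - κ ^ 4) = κ ^ 4 by ring] at h2
      exact h2
    · have h3 := (win_blk hW (m := L) (by omega) (by omega) 0 0 S).1
      have h4 : PQ q S (fun F => ¬ Crs 0 0 L (3 * L) ↑F) = 1 - PQ q S (fun F => Crs 0 0 L (3 * L) ↑F) :=
        Pr_not _ _
      rw [h4] at h3
      have h5 : Pr (fun _ : Edg => q) S (fun G : Finset Edg => ∃ x ∈ Kbox L,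
          RB src tgt (Bfar (3 * L)) (↑G : Set Edg) x) ≤ PQ q S (fun F => Crs 0 0 L (3 * L) ↑F) := by
        apply Pr_mono hok
        rintro F _ ⟨x, hx, y, hy, hxy⟩
        refine ⟨x, y, ?_, hy, hxy⟩
        rw [mem_Kbox] at hx
        unfold inR at hx ⊢
        omega
      linarith
  have hsum := sum_real (T := T) (c := ct) (m := d) (S := S) h0 h1 hκ hsubS ?_ ?_ ?_ hf1 hf2 hf3 hV
  · -- lower bound for the sum
    have hlow : ∀ t ∈ T, ann q d k ≤ Ex (fun _ => q) S (fun F => f (F \ blk (ct t) d)) -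
        Ex (fun _ => q) S (fun F => f (F ∪ blk (ct t) d)) := by
      intro t ht
      obtain ⟨⟨b1, b2⟩, b3, b4⟩ := hbd t ht
      have hac : |(ct t).1| ≤ 7 * P ∧ |(ct t).2| ≤ 7 * P := by
        rw [abs_le, abs_le]
        exact ⟨⟨b1, b2⟩, b3, b4⟩
      have hSk : S ⊆ blk (ct t) k := by
        rw [hS]
        unfold blk boxE
        apply RE_subset <;> push_cast <;> omega
      have g1 : ann q d k ≤ PQ q (blk (ct t) k) (fun F => Yev (3 * L) (ct t) d (F ∩ S)) := by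
        refine (ann_le h0 h1 (ct t) d k).trans (Pr_mono hok ?_)
        intro F _ hF
        refine A4a_Yev ?_ ?_ hF
        · obtain ⟨a1, a2⟩ := hac
          push_cast
          omega
        · obtain ⟨a1, a2⟩ := hac
          push_cast
          omega
      have g2 : PQ q (blk (ct t) k) (fun F => Yev (3 * L) (ct t) d (F ∩ S)) =
          PQ q S (fun F => Yev (3 * L) (ct t) d (F ∩ S)) := by
        apply Pr_local hSk
        intro F _
        rw [Finset.inter_assoc, Finset.inter_self]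
      have g3 : PQ q S (fun F => Yev (3 * L) (ct t) d (F ∩ S)) ≤
          Ex (fun _ => q) S (fun F => f (F \ blk (ct t) d) - f (F ∪ blk (ct t) d)) := by
        unfold PQ Pr
        apply Ex_mono hok
        intro F hF
        simp only
        rw [Finset.inter_eq_left.mpr hF]
        by_cases hY : Yev (3 * L) (ct t) d F
        · rw [ind_of hY]
          have := Yev_drop (L := L) (fun e he => hK3 t ht e (hblk1 t he)) hY
          rw [hf]
          linarith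
        · rw [ind_not_of hY]
          have e1 : F ∪ blk (ct t) d = (F \ blk (ct t) d) ∪ blk (ct t) d := by
            rw [Finset.sdiff_union_self_eq_union]
          have h6 := (hf1 t ht).le (hsubS t ht) (F := F \ blk (ct t) d)
            (Finset.sdiff_subset.trans hF) (b := blk (ct t) d) (hblk1 t)
          rw [← e1] at h6
          linarith
      rw [Ex_sub] at g3
      exact g1.trans (g2.le.trans g3)
    have hcard : (T.card : ℝ) = (2 * (j:ℝ) + 1) ^ 2 := by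
      rw [hT, Finset.card_product, Int.card_Icc]
      have : ((j:ℤ) + 1 - -(j:ℤ)).toNat = 2 * j + 1 := by omega
      rw [this]
      push_cast
      ring
    have h2 : (T.card : ℝ) * ann q d k ≤
        Real.sqrt (2 / (κ ^ 4) ^ 2 * (T.card * (2 * κ⁻¹ ^ 4))) := by
      refine le_trans ?_ hsum
      rw [← nsmul_eq_mul, ← Finset.sum_const]
      exact Finset.sum_le_sum hlow
    have h3 : Real.sqrt (2 / (κ ^ 4) ^ 2 * (T.card * (2 * κ⁻¹ ^ 4))) =
        2 * κ⁻¹ ^ 6 * (2 * (j:ℝ) + 1) := by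
      rw [hcard]
      rw [show 2 / (κ ^ 4) ^ 2 * ((2 * (j:ℝ) + 1) ^ 2 * (2 * κ⁻¹ ^ 4)) =
        (2 * κ⁻¹ ^ 6 * (2 * (j:ℝ) + 1)) ^ 2 by
          field_simp]
      exact Real.sqrt_sq (by positivity)
    rw [h3, hcard] at h2
    have hj0 : (0:ℝ) < 2 * (j:ℝ) + 1 := by positivity
    have h4 : (2 * (j:ℝ) + 1) * ann q d k ≤ 2 * κ⁻¹ ^ 6 := by
      have h5 : (2 * (j:ℝ) + 1) * ((2 * (j:ℝ) + 1) * ann q d k) ≤
          (2 * (j:ℝ) + 1) * (2 * κ⁻¹ ^ 6) := by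
        calc (2 * (j:ℝ) + 1) * ((2 * (j:ℝ) + 1) * ann q d k) =
            (2 * (j:ℝ) + 1) ^ 2 * ann q d k := by ring
          _ ≤ _ := h2
          _ = _ := by ring
      exact le_of_mul_le_mul_left h5 hj0
    have h6 : (k:ℝ) ≤ 64 * d * (2 * (j:ℝ) + 1) := by
      have h7 : (k:ℝ) < 64 * d * ((j:ℝ) + 1) := by exact_mod_cast hjk2
      have h8 : (0:ℝ) ≤ j := Nat.cast_nonneg j
      nlinarith
    have h9 : ann q d k ≤ 128 * κ⁻¹ ^ 6 * ((d:ℝ) / k) := by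
      rw [mul_div_assoc', le_div_iff₀ hk0]
      have ha := ann_nonneg h0 h1 d k
      calc ann q d k * k ≤ ann q d k * (64 * d * (2 * (j:ℝ) + 1)) :=
            mul_le_mul_of_nonneg_left h6 ha
        _ = 64 * d * ((2 * (j:ℝ) + 1) * ann q d k) := by ring
        _ ≤ 64 * d * (2 * κ⁻¹ ^ 6) := mul_le_mul_of_nonneg_left h4 (by positivity)
        _ = 128 * κ⁻¹ ^ 6 * d := by ring
    have h10 : 0 ≤ 64 * ((d:ℝ) / k) := by positivity
    rw [add_mul]
    linarith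
  · intro t ht t' ht' hne
    apply TS.blk_disj
    have key : ∀ x y : ℤ, x ≠ y → 2 * ((3 * d : ℕ) : ℤ) < |7 * d * x - 7 * d * y| := by
      intro x y hxy
      have h2 : (1:ℤ) ≤ |x - y| := Int.one_le_abs (sub_ne_zero.mpr hxy)
      have h3 : |7 * (d:ℤ) * x - 7 * d * y| = 7 * d * |x - y| := by
        rw [← mul_sub, abs_mul, abs_of_nonneg (by positivity : (0:ℤ) ≤ 7 * d)]
      rw [h3]
      push_cast
      have hdz : (1:ℤ) ≤ d := by exact_mod_cast hd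
      nlinarith
    by_cases h5 : t.1 = t'.1
    · right
      exact key _ _ (fun h7 => hne (Prod.ext h5 h7))
    · left
      exact key _ _ h5
  · intro t ht
    refine (win_circ hW hd (by omega) (ct t).1 (ct t).2 S ?_).1
    have := hsubS t ht
    unfold blk at this
    push_cast at this
    exact this
  · intro t _
    exact (win_blk hW hd (by omega) (ct t).1 (ct t).2 S).1

end Run7.h976
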