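import Pool.Agent.TH350.RC.WZ

/-!
Zero estimates at `X = -1` and `X = 0` for sums of few polynomials `X^e (X+1)^a`, degree `< p`.
-/

set_option autoImplicit false

namespace Run7.h976.RS

open Polynomial Finset Pool.Agent.TH350.WZ

variable {F : Type*} [Field F]

theorem zest_li' (p : ℕ) [Fact p.Prime] [CharP F p] (u : F[X]) (hu : Prime u)
    (hud : u.natDegree = 1) (od : ℕ × ℕ → ℕ)
    (hod : ∀ s, ∃ g : F[X], ph s = u ^ od s * g ∧ ¬ u ∣ g)
    (hdl : ∀ (M : ℕ) (f : F[X]), u ^ M ∣ f → u ^ M ∣ dl f)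
    (N : ℕ) (s : Fin N → ℕ × ℕ)
    (hs : ∀ j, (s j).1 + (s j).2 < p) (hli : LinearIndependent F (fun j => (ph (s j) : F[X])))
    (c : Fin N → F) (M : ℕ) (hM : u ^ M ∣ ∑ j, C (c j) * (ph (s j) : F[X])) (j0 : Fin N)
    (hc : c j0 ≠ 0) : 2 * M ≤ 2 * od (s j0) + N * (N - 1) := by
  classical
  set G : Matrix (Fin N) (Fin N) F[X] := Matrix.of fun i j : Fin N => (Gs (s j) (i : ℕ) : F[X]) with hG
  have hphd : ∀ j, (ph (s j) : F[X]).natDegree < p := by
    intro j
    unfold ph
    have h1 := natDegree_mul_le (p := (X ^ (s j).1 : F[X])) (q := (X + 1) ^ (s j).2)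
    have h2 : (X ^ (s j).1 : F[X]).natDegree ≤ (s j).1 := natDegree_X_pow_le _
    have h3 : ((X + 1) ^ (s j).2 : F[X]).natDegree ≤ (s j).2 := by
      refine natDegree_pow_le.trans ?_
      have : (X + 1 : F[X]).natDegree ≤ 1 := by compute_degree
      nlinarith
    have := hs j
    omega
  have hdet : G.det ≠ 0 := by
    intro h0
    obtain ⟨v, hv0, hv⟩ := Matrix.exists_vecMul_eq_zero_iff.2 h0
    apply hv0
    refine nonvanish p N _ hli hphd v (fun j => ?_)
    have h1 := congrFun hv j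
    simp only [Matrix.vecMul, dotProduct, Pi.zero_apply, hG, Matrix.of_apply] at h1
    have h2 : ∑ i : Fin N, v i * dl^[(i : ℕ)] (ph (s j) : F[X]) =
        ph (s j) * ∑ i : Fin N, v i * Gs (s j) (i : ℕ) := by
      rw [Finset.mul_sum]
      refine Finset.sum_congr rfl (fun i _ => ?_)
      rw [dl_iter_ph]; ring
    rw [h2, h1, mul_zero]
  set f : F[X] := ∑ j, C (c j) * (ph (s j) : F[X]) with hf
  have hdli : ∀ i : ℕ, u ^ M ∣ dl^[i] f := by
    intro i
    induction i with
    | zero => exact hM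
    | succ i ih => rw [Function.iterate_succ_apply']; exact hdl M _ ih
  have hGm : G.mulVec (fun j => C (c j) * ph (s j)) = fun i : Fin N => dl^[(i : ℕ)] f := by
    funext i
    rw [hf, dl_iter_sum]
    simp only [Matrix.mulVec, dotProduct, hG, Matrix.of_apply]
    refine Finset.sum_congr rfl (fun j _ => ?_)
    rw [dl_iter_C_mul, dl_iter_ph]; ring
  have hadj : G.det • (fun j => C (c j) * ph (s j)) = G.adjugate.mulVec (fun i : Fin N => dl^[(i : ℕ)] f) := by
    rw [← hGm, Matrix.mulVec_mulVec, Matrix.adjugate_mul, Matrix.smul_mulVec, Matrix.one_mulVec]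
  rcases Nat.lt_or_ge (od (s j0)) M with hlt | hge
  · have hdvd : u ^ (M - od (s j0)) ∣ G.det := by
      have h1 := congrFun hadj j0
      simp only [Pi.smul_apply, smul_eq_mul, Matrix.mulVec, dotProduct] at h1
      have h2 : u ^ M ∣ G.det * (C (c j0) * ph (s j0)) := by
        rw [h1]
        refine Finset.dvd_sum (fun i _ => ?_)
        exact Dvd.dvd.mul_left (hdli _) _
      obtain ⟨g, hg1, hg2⟩ := hod (s j0)
      rw [hg1] at h2
      have h3 : G.det * (C (c j0) * (u ^ od (s j0) * g)) =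
          u ^ od (s j0) * (G.det * g * C (c j0)) := by ring
      have h4 : u ^ M = u ^ od (s j0) * u ^ (M - od (s j0)) := by
        rw [← pow_add]; congr 1; omega
      rw [h3, h4] at h2
      have h5 : u ^ (M - od (s j0)) ∣ G.det * g * C (c j0) :=
        (mul_dvd_mul_iff_left (pow_ne_zero _ hu.ne_zero)).mp h2
      have h6 : G.det * g = G.det * g * C (c j0) * C ((c j0)⁻¹) := by
        rw [mul_assoc (G.det * g), ← C_mul, mul_inv_cancel₀ hc, C_1, mul_one]
      have h7 : u ^ (M - od (s j0)) ∣ G.det * g := by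
        rw [h6]
        exact Dvd.dvd.mul_right h5 _
      exact hu.pow_dvd_of_dvd_mul_right _ hg2 h7
    have h5 := natDegree_le_of_dvd hdvd hdet
    rw [natDegree_pow, hud, mul_one] at h5
    have h7 := natDegree_detG (F := F) N s
    rw [← hG] at h7
    omega
  · omega

/-- Zero estimate: a combination which vanishes to the order `M` only needs the terms whose own
order is at least `M - N (N - 1) / 2`. -/
theorem zest_span (p : ℕ) [Fact p.Prime] [CharP F p] (u : F[X]) (hu : Prime u)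
    (hud : u.natDegree = 1) (od : ℕ × ℕ → ℕ)
    (hod : ∀ s, ∃ g : F[X], ph s = u ^ od s * g ∧ ¬ u ∣ g)
    (hdl : ∀ (M : ℕ) (f : F[X]), u ^ M ∣ f → u ^ M ∣ dl f)
    (S : Finset (ℕ × ℕ)) (hS : ∀ s ∈ S, s.1 + s.2 < p) (f : F[X]) (M : ℕ)
    (hfS : f ∈ Submodule.span F (ph '' (S : Set (ℕ × ℕ)))) (hM : u ^ M ∣ f) :
    f ∈ Submodule.span F
      (ph '' {s : ℕ × ℕ | s ∈ S ∧ 2 * M ≤ 2 * od s + S.card * (S.card - 1)}) := by
  classical
  set B0 : Set F[X] := ((S.image (fun s => (ph s : F[X])) : Finset F[X]) : Set F[X]) with hB0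
  obtain ⟨b, hb1, hb2, hb3⟩ := exists_linearIndependent F B0
  have hbfin : b.Finite := (Finset.finite_toSet _).subset hb1
  have hfb : f ∈ Submodule.span F b := by
    rw [hb2, hB0, Finset.coe_image]
    exact hfS
  let bf : Finset F[X] := hbfin.toFinset
  have hbf : ∀ x, x ∈ bf ↔ x ∈ b := fun x => Set.Finite.mem_toFinset hbfin
  have hcard : bf.card ≤ S.card := by
    refine (Finset.card_le_card (t := S.image (fun s => (ph s : F[X]))) ?_).trans Finset.card_image_le
    intro x hx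
    have := hb1 ((hbf x).1 hx)
    rwa [hB0, Finset.mem_coe] at this
  let en : Fin bf.card ≃ bf := bf.equivFin.symm
  have hsx : ∀ j : Fin bf.card, ∃ s ∈ S, ph s = ((en j : bf) : F[X]) := by
    intro j
    have := hb1 ((hbf _).1 (en j).2)
    rw [hB0, Finset.mem_coe, Finset.mem_image] at this
    exact this
  choose s hsS hs using hsx
  have hli : LinearIndependent F (fun j => (ph (s j) : F[X])) := by
    have h1 : LinearIndependent F (fun x : bf => (x : F[X])) := by
      have h2 : LinearIndependent F ((Subtype.val : b → F[X]) ∘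
          (fun x : bf => (⟨x.1, (hbf x.1).1 x.2⟩ : b))) := by
        refine hb3.comp _ ?_
        intro x y hxy
        have := congrArg Subtype.val hxy
        exact Subtype.ext this
      exact h2
    have h3 := h1.comp en en.injective
    have h4 : (fun j => (ph (s j) : F[X])) = (fun x : bf => (x : F[X])) ∘ en := by
      funext j
      rw [hs j]; rfl
    rw [h4]
    exact h3
  have hrange : Set.range (fun j => (ph (s j) : F[X])) = b := by
    ext x
    constructor
    · rintro ⟨j, rfl⟩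
      simp only [hs j]
      exact (hbf _).1 (en j).2
    · intro hx
      refine ⟨en.symm ⟨x, (hbf x).2 hx⟩, ?_⟩
      simp only [hs]
      rw [Equiv.apply_symm_apply]
  rw [← hrange] at hfb
  obtain ⟨c', hc'⟩ := (Submodule.mem_span_range_iff_exists_fun F).1 hfb
  have hsum : f = ∑ j, C (c' j) * (ph (s j) : F[X]) := by
    rw [← hc']
    refine Finset.sum_congr rfl (fun j _ => ?_)
    rw [Polynomial.smul_eq_C_mul]
  have hN : bf.card * (bf.card - 1) ≤ S.card * (S.card - 1) :=
    Nat.mul_le_mul hcard (Nat.sub_le_sub_right hcard 1)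
  rw [← hc']
  refine Submodule.sum_mem _ (fun j _ => ?_)
  by_cases hcj : c' j = 0
  · rw [hcj, zero_smul]
    exact Submodule.zero_mem _
  · refine Submodule.smul_mem _ _ (Submodule.subset_span ⟨s j, ⟨hsS j, ?_⟩, rfl⟩)
    have hz := zest_li' p u hu hud od hod hdl bf.card s (fun j => hS _ (hsS j)) hli c' M
      (hsum ▸ hM) j hcj
    omega

theorem not_X1_dvd_X_pow (e : ℕ) : ¬ (X + 1 : F[X]) ∣ X ^ e := by
  intro h
  obtain ⟨g, hg⟩ := h
  have h1 := congrArg (fun q : F[X] => q.eval (-1)) hg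
  simp only [eval_pow, eval_X, eval_mul, eval_add, eval_one, neg_add_cancel, zero_mul] at h1
  exact (pow_ne_zero e (neg_ne_zero.mpr one_ne_zero)) h1

theorem not_X_dvd_X1_pow (e : ℕ) : ¬ (X : F[X]) ∣ (X + 1) ^ e := by
  intro h
  obtain ⟨g, hg⟩ := h
  have h1 := congrArg (fun q : F[X] => q.eval 0) hg
  simp only [eval_pow, eval_X, eval_mul, eval_add, eval_one, zero_add, one_pow, zero_mul] at h1
  exact one_ne_zero h1

theorem prime_X1 : Prime (X + 1 : F[X]) := by
  have e : (X + 1 : F[X]) = X - C (-1) := by simp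
  rw [e]
  exact prime_X_sub_C _

theorem dl_X (M : ℕ) (f : F[X]) (h : X ^ M ∣ f) : X ^ M ∣ dl f := by
  obtain ⟨g, rfl⟩ := h
  obtain ⟨h, h1, _⟩ := dl_iter_order (F := F) M g 1
  rw [Function.iterate_one] at h1
  rw [h1]
  exact Dvd.intro _ rfl

/-- The estimate at `-1`. -/
theorem zest_neg (p : ℕ) [Fact p.Prime] [CharP F p] (S : Finset (ℕ × ℕ))
    (hS : ∀ s ∈ S, s.1 + s.2 < p) (f : F[X]) (M : ℕ)
    (hfS : f ∈ Submodule.span F (ph '' (S : Set (ℕ × ℕ)))) (hM : (X + 1) ^ M ∣ f) :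
    f ∈ Submodule.span F
      (ph '' {s : ℕ × ℕ | s ∈ S ∧ 2 * M ≤ 2 * s.2 + S.card * (S.card - 1)}) := by
  refine zest_span p (X + 1) prime_X1 ?_ (fun s => s.2) ?_ dvd_dl S hS f M hfS hM
  · have e : (X + 1 : F[X]) = X + C 1 := by simp
    rw [e, natDegree_X_add_C]
  · intro s
    exact ⟨X ^ s.1, by unfold ph; ring, not_X1_dvd_X_pow _⟩

/-- The estimate at `0`. -/
theorem zest_zero (p : ℕ) [Fact p.Prime] [CharP F p] (S : Finset (ℕ × ℕ))
    (hS : ∀ s ∈ S, s.1 + s.2 < p) (f : F[X]) (M : ℕ)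
    (hfS : f ∈ Submodule.span F (ph '' (S : Set (ℕ × ℕ)))) (hM : X ^ M ∣ f) :
    f ∈ Submodule.span F
      (ph '' {s : ℕ × ℕ | s ∈ S ∧ 2 * M ≤ 2 * s.1 + S.card * (S.card - 1)}) := by
  refine zest_span p X prime_X natDegree_X (fun s => s.1) ?_ dl_X S hS f M hfS hM
  intro s
  exact ⟨(X + 1) ^ s.2, rfl, not_X_dvd_X1_pow _⟩

end Run7.h976.RS
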