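import Pool.Agent.Run7.h976.RS1

/-!
A sparse solution of the three-term functional equation
`X^{2k} Q((X+1)/X) + X Q(X+1) - (X+1) Q(X) = 0` has at least `c √k` terms.
-/

set_option autoImplicit false

namespace Run7.h976.RS

open Polynomial Finset Pool.Agent.TH350.WZ

variable {F : Type*} [Field F]

/-- The polynomials `X^{2(k-i)} (X+1)^{2i}` are linearly independent, in a strong form. -/
theorem indep_zero {k M : ℕ} {T : Finset ℕ} (hT : ∀ i ∈ T, i ≤ k ∧ 2 * (k - i) < M) (f : ℕ → F)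
    (h : X ^ M ∣ ∑ i ∈ T, C (f i) * (ph (2 * (k - i), 2 * i) : F[X])) : ∀ i ∈ T, f i = 0 := by
  classical
  by_contra hcon
  push Not at hcon
  obtain ⟨j, hj, hfj⟩ := hcon
  set T' := T.filter (fun i => f i ≠ 0) with hT'
  have hne : T'.Nonempty := ⟨j, Finset.mem_filter.mpr ⟨hj, hfj⟩⟩
  set m := T'.max' hne with hm
  have hmT' : m ∈ T' := Finset.max'_mem _ _
  have hmT := (Finset.mem_filter.mp hmT').1
  have hfm := (Finset.mem_filter.mp hmT').2
  obtain ⟨hmk, hmM⟩ := hT m hmT
  have h1 : (∑ i ∈ T, C (f i) * (ph (2 * (k - i), 2 * i) : F[X])).coeff (2 * (k - m)) = 0 := by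
    rw [X_pow_dvd_iff] at h
    exact h _ hmM
  rw [finsetSum_coeff, Finset.sum_eq_single m] at h1
  · unfold ph at h1
    simp only at h1
    rw [coeff_C_mul, coeff_X_pow_mul', if_pos le_rfl, Nat.sub_self, coeff_zero_eq_eval_zero] at h1
    simp at h1
    exact hfm h1
  · intro i hi hne'
    by_cases hfi : f i = 0
    · rw [hfi, C_0, zero_mul, coeff_zero]
    · have hiT' : i ∈ T' := Finset.mem_filter.mpr ⟨hi, hfi⟩
      have hle : i ≤ m := Finset.le_max' _ _ hiT'
      have hlt : i < m := lt_of_le_of_ne hle hne'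
      have hik := (hT i hi).1
      unfold ph
      simp only
      rw [coeff_C_mul, coeff_X_pow_mul', if_neg (by omega), mul_zero]
  · intro h2
    exact absurd hmT h2

/-- The sum of the terms of the first two types does not vanish. -/
theorem indep_two (p : ℕ) [Fact p.Prime] [CharP F p] {k : ℕ} (hkp : 2 * k < p) {T : Finset ℕ}
    (hT : ∀ i ∈ T, i < k) (v : ℕ → F) (hv : ∀ i ∈ T, v i ≠ 0)
    (h : ∑ i ∈ T, C (v i) * (ph (2 * (k - i), 2 * i) + ph (1, 2 * i) : F[X]) = 0) : T = ∅ := by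
  classical
  by_contra hne
  rw [← ne_eq, ← Finset.nonempty_iff_ne_empty] at hne
  set m := T.min' hne with hm
  have hmT : m ∈ T := Finset.min'_mem _ _
  have hmk := hT m hmT
  have h1 : C (v m) * (ph (2 * (k - m), 2 * m) + ph (1, 2 * m) : F[X]) =
      -∑ i ∈ T.erase m, C (v i) * (ph (2 * (k - i), 2 * i) + ph (1, 2 * i) : F[X]) := by
    rw [← Finset.add_sum_erase _ _ hmT] at h
    exact eq_neg_of_add_eq_zero_left h
  have h2 : (X + 1 : F[X]) ^ (2 * m + 2) ∣
      C (v m) * (ph (2 * (k - m), 2 * m) + ph (1, 2 * m) : F[X]) := by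
    rw [h1, dvd_neg]
    refine Finset.dvd_sum (fun i hi => ?_)
    have hiT := Finset.mem_of_mem_erase hi
    have hle : m ≤ i := Finset.min'_le _ _ hiT
    have hlt : m < i := lt_of_le_of_ne hle (Finset.ne_of_mem_erase hi).symm
    have e : (X + 1 : F[X]) ^ (2 * i) = (X + 1) ^ (2 * m + 2) * (X + 1) ^ (2 * i - (2 * m + 2)) := by
      rw [← pow_add]; congr 1; omega
    unfold ph
    simp only
    rw [e]
    refine Dvd.dvd.mul_left ⟨X ^ (2 * (k - m + m - i)) * (X + 1) ^ (2 * i - (2 * m + 2)) +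
      X ^ 1 * (X + 1) ^ (2 * i - (2 * m + 2)), ?_⟩ _
    have : k - m + m - i = k - i := by omega
    rw [this]
    ring
  have h3 : (X + 1 : F[X]) ^ 2 ∣ C (v m) * (X ^ (2 * (k - m)) + X) := by
    have e : C (v m) * (ph (2 * (k - m), 2 * m) + ph (1, 2 * m) : F[X]) =
        (X + 1) ^ (2 * m) * (C (v m) * (X ^ (2 * (k - m)) + X)) := by
      unfold ph
      simp only
      ring
    rw [e, pow_add] at h2
    exact (mul_dvd_mul_iff_left (pow_ne_zero _ prime_X1.ne_zero)).mp h2
  obtain ⟨g, hg⟩ := h3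
  obtain ⟨n, hn⟩ : ∃ n, k - m = n + 1 := ⟨k - m - 1, by omega⟩
  rw [hn] at hg
  have h4 := congrArg (fun q : F[X] => (derivative q).eval (-1)) hg
  have hodd : ((-1 : F)) ^ (2 * (n + 1) - 1) = -1 := by
    have : 2 * (n + 1) - 1 = 2 * n + 1 := by omega
    rw [this, pow_succ, pow_mul]
    simp
  simp only [derivative_mul, derivative_C, derivative_add, derivative_X,
    derivative_pow, derivative_one, eval_mul, eval_add, eval_C, eval_X, eval_pow, eval_one,
    eval_zero, zero_mul, zero_add, neg_add_cancel, hodd, eval_natCast, map_natCast] at h4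
  have h5 : v m * ((((2 * (n + 1) : ℕ) : F)) * (-1) + 1) = 0 := by
    linear_combination h4
  rcases mul_eq_zero.mp h5 with h6 | h6
  · exact hv m hmT h6
  · have h7 : (((2 * n + 1 : ℕ)) : F) = 0 := by
      push_cast at h6 ⊢
      linear_combination -h6
    rw [CharP.cast_eq_zero_iff F p] at h7
    have := Nat.le_of_dvd (by omega) h7
    omega

theorem mem_span_fin {T : Finset ℕ} {g : ℕ → ℕ × ℕ} {f : F[X]}
    (h : f ∈ Submodule.span F (ph '' ((T.image g : Finset (ℕ × ℕ)) : Set (ℕ × ℕ)))) :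
    ∃ c : ℕ → F, f = ∑ i ∈ T, C (c i) * ph (g i) := by
  classical
  rw [Finset.coe_image, ← Set.image_comp] at h
  rw [Submodule.mem_span_image_finset_iff_exists_fun] at h
  obtain ⟨c, hc⟩ := h
  refine ⟨fun i => if h : i ∈ T then c ⟨i, h⟩ else 0, ?_⟩
  rw [← hc, ← Finset.sum_coe_sort T]
  refine Finset.sum_congr rfl (fun i _ => ?_)
  rw [Polynomial.smul_eq_C_mul]
  simp only [Finset.coe_mem, dite_true]
  rfl

theorem core (p : ℕ) [Fact p.Prime] [CharP F p] {k : ℕ} (hkp : 2 * k + 3 ≤ p) {R : Finset ℕ}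
    (hR : ∀ i ∈ R, 0 < i ∧ i < k) (hsym : ∀ i ∈ R, k - i ∈ R) (v : ℕ → F)
    (hv : ∀ i ∈ R, v i ≠ 0)
    (hrel : ∑ i ∈ R, C (v i) *
      (((X : F[X]) + 1) ^ (2 * i) * (X ^ (2 * (k - i)) + X) - (X + 1) * X ^ (2 * i)) = 0)
    (hne : R.Nonempty) : 2 * k ≤ 3 * R.card * (3 * R.card - 1) + 2 := by
  classical
  by_contra hcon
  push Not at hcon
  set N := 3 * R.card with hN
  obtain ⟨D, hD⟩ : ∃ D, N * (N - 1) = 2 * D := by
    have := Nat.even_mul_pred_self N
    obtain ⟨D, hD⟩ := this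
    exact ⟨D, by rw [hD]; ring⟩
  rw [hD] at hcon
  obtain ⟨M, hM⟩ : ∃ M, M = D + 2 := ⟨_, rfl⟩
  have hMk : M ≤ k := by omega
  set hi := R.filter (fun i => M ≤ 2 * i) with hhi
  set lo := R.filter (fun i => ¬ M ≤ 2 * i) with hlo
  set nr := hi.filter (fun i => ¬ M ≤ 2 * (k - i)) with hnr
  set fr := hi.filter (fun i => M ≤ 2 * (k - i)) with hfr
  have hhiR : ∀ i ∈ hi, i ∈ R ∧ M ≤ 2 * i := fun i h => Finset.mem_filter.mp h
  have hloR : ∀ i ∈ lo, i ∈ R ∧ ¬ M ≤ 2 * i := fun i h => Finset.mem_filter.mp h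
  have hcI : ∀ i, (ph (2 * (k - i), 2 * i) : F[X]) = X ^ (2 * (k - i)) * (X + 1) ^ (2 * i) :=
    fun i => rfl
  have hcII : ∀ i, (ph (1, 2 * i) : F[X]) = X ^ 1 * (X + 1) ^ (2 * i) := fun i => rfl
  have hcIII : ∀ i, (ph (2 * i, 1) : F[X]) = X ^ (2 * i) * (X + 1) ^ 1 := fun i => rfl
  -- the relation
  have hrel2 : ∑ i ∈ R, C (v i) * (ph (2 * (k - i), 2 * i) + ph (1, 2 * i)) =
      ∑ i ∈ R, C (v i) * (ph (2 * i, 1) : F[X]) := by
    rw [← sub_eq_zero, ← Finset.sum_sub_distrib, ← hrel]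
    refine Finset.sum_congr rfl (fun i _ => ?_)
    rw [hcI, hcII, hcIII]
    ring
  have hsplit : ∑ i ∈ hi, C (v i) * (ph (2 * (k - i), 2 * i) + ph (1, 2 * i) : F[X]) =
      ∑ i ∈ R, C (v i) * (ph (2 * i, 1) : F[X]) -
        ∑ i ∈ lo, C (v i) * (ph (2 * (k - i), 2 * i) + ph (1, 2 * i) : F[X]) := by
    rw [← hrel2, ← Finset.sum_filter_add_sum_filter_not R (fun i => M ≤ 2 * i)]
    ring
  set Hi : F[X] := ∑ i ∈ hi, C (v i) * (ph (2 * (k - i), 2 * i) + ph (1, 2 * i) : F[X]) with hHi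
  have hdvd : ∀ n : ℕ, (∀ i ∈ hi, n ≤ 2 * i) → (X + 1) ^ n ∣ Hi := by
    intro n hn
    rw [hHi]
    refine Finset.dvd_sum (fun i h => Dvd.dvd.mul_left ?_ _)
    have e : (X + 1 : F[X]) ^ (2 * i) = (X + 1) ^ n * (X + 1) ^ (2 * i - n) := by
      rw [← pow_add]; congr 1; have := hn i h; omega
    rw [hcI, hcII, e]
    exact ⟨X ^ (2 * (k - i)) * (X + 1) ^ (2 * i - n) + X ^ 1 * (X + 1) ^ (2 * i - n), by ring⟩
  -- first zero estimate
  set S1 : Finset (ℕ × ℕ) := lo.image (fun i => (2 * (k - i), 2 * i)) ∪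
    (lo.image (fun i => (1, 2 * i)) ∪ R.image (fun i => (2 * i, 1))) with hS1
  have hS1c : S1.card ≤ N := by
    have e1 := Finset.card_union_le (lo.image (fun i => (2 * (k - i), 2 * i)))
      (lo.image (fun i => (1, 2 * i)) ∪ R.image (fun i => (2 * i, 1)))
    have e2 := Finset.card_union_le (lo.image (fun i => (1, 2 * i))) (R.image (fun i => (2 * i, 1)))
    have e3 := Finset.card_image_le (s := lo) (f := fun i => (2 * (k - i), 2 * i))
    have e4 := Finset.card_image_le (s := lo) (f := fun i => (1, 2 * i))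
    have e5 := Finset.card_image_le (s := R) (f := fun i => (2 * i, 1))
    have e6 : lo.card ≤ R.card := Finset.card_filter_le _ _
    rw [hS1]
    omega
  have hmemS1 : Hi ∈ Submodule.span F (ph '' (S1 : Set (ℕ × ℕ))) := by
    have hmem : ∀ s ∈ S1, (ph s : F[X]) ∈ Submodule.span F (ph '' (S1 : Set (ℕ × ℕ))) :=
      fun s hs => Submodule.subset_span (Set.mem_image_of_mem _ hs)
    rw [hsplit]
    simp only [← Polynomial.smul_eq_C_mul]
    refine Submodule.sub_mem _ (Submodule.sum_mem _ (fun i h => Submodule.smul_mem _ _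
      (hmem _ ?_))) (Submodule.sum_mem _ (fun i h => Submodule.smul_mem _ _
      (Submodule.add_mem _ (hmem _ ?_) (hmem _ ?_))))
    · rw [hS1, Finset.mem_union, Finset.mem_union]
      exact Or.inr (Or.inr (Finset.mem_image_of_mem (fun i => (2 * i, 1)) h))
    · rw [hS1, Finset.mem_union]
      exact Or.inl (Finset.mem_image_of_mem (fun i => (2 * (k - i), 2 * i)) h)
    · rw [hS1, Finset.mem_union, Finset.mem_union]
      exact Or.inr (Or.inl (Finset.mem_image_of_mem (fun i => (1, 2 * i)) h))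
  have hz1 := zest_neg p S1 (by
    intro s hs
    rw [hS1, Finset.mem_union, Finset.mem_union, Finset.mem_image, Finset.mem_image,
      Finset.mem_image] at hs
    rcases hs with ⟨i, h, rfl⟩ | ⟨i, h, rfl⟩ | ⟨i, h, rfl⟩
    · have := hR i (hloR i h).1
      simp only; omega
    · have := hR i (hloR i h).1
      simp only; omega
    · have := hR i h
      simp only; omega) Hi M hmemS1 (hdvd M (fun i h => (hhiR i h).2))
  have hcc1 : S1.card * (S1.card - 1) ≤ 2 * D := by
    rw [← hD]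
    exact Nat.mul_le_mul hS1c (Nat.sub_le_sub_right hS1c 1)
  have hz1' : Hi ∈ Submodule.span F (ph '' ((lo.image (fun i => (2 * (k - i), 2 * i)) :
      Finset (ℕ × ℕ)) : Set (ℕ × ℕ))) ⊔ Submodule.span F (ph '' ((lo.image (fun i => (1, 2 * i)) :
      Finset (ℕ × ℕ)) : Set (ℕ × ℕ))) := by
    rw [← Submodule.span_union, ← Set.image_union]
    refine Submodule.span_mono (Set.image_mono ?_) hz1
    rintro s ⟨hs1, hs2⟩
    have hs3 : 2 ≤ s.2 := by omega
    rw [hS1, Finset.mem_union, Finset.mem_union] at hs1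
    rcases hs1 with h | h | h
    · exact Or.inl h
    · exact Or.inr h
    · rw [Finset.mem_image] at h
      obtain ⟨i, _, rfl⟩ := h
      simp only at hs3
      omega
  obtain ⟨a, ha, b, hb, hab⟩ := Submodule.mem_sup.mp hz1'
  obtain ⟨ca, hca⟩ := mem_span_fin ha
  -- second zero estimate
  have hHsplit : Hi = ∑ i ∈ fr, C (v i) * ph (2 * (k - i), 2 * i) +
      (∑ i ∈ nr, C (v i) * ph (2 * (k - i), 2 * i) + ∑ i ∈ hi, C (v i) * (ph (1, 2 * i) : F[X])) := by
    rw [hHi, ← add_assoc, hfr, hnr, Finset.sum_filter_add_sum_filter_not, ← Finset.sum_add_distrib]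
    refine Finset.sum_congr rfl (fun i _ => ?_)
    ring
  obtain ⟨P, hP⟩ : ∃ P : F[X], P = ∑ i ∈ fr, C (v i) * ph (2 * (k - i), 2 * i) - a := ⟨_, rfl⟩
  have hP2 : P = b - (∑ i ∈ nr, C (v i) * ph (2 * (k - i), 2 * i) +
      ∑ i ∈ hi, C (v i) * (ph (1, 2 * i) : F[X])) := by
    rw [hP]
    linear_combination -hab - hHsplit
  have hPd : X ^ M ∣ P := by
    rw [hP]
    have hX : ∀ i, M ≤ 2 * (k - i) → (X : F[X]) ^ M ∣ ph (2 * (k - i), 2 * i) := by
      intro i h
      rw [hcI]
      exact Dvd.dvd.mul_right (pow_dvd_pow _ h) _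
    refine dvd_sub (Finset.dvd_sum (fun i h => Dvd.dvd.mul_left (hX i ?_) _)) ?_
    · exact (Finset.mem_filter.mp h).2
    · rw [hca]
      refine Finset.dvd_sum (fun i h => Dvd.dvd.mul_left (hX i ?_) _)
      have h1 := hloR i h
      omega
  set S2 : Finset (ℕ × ℕ) := nr.image (fun i => (2 * (k - i), 2 * i)) ∪
    R.image (fun i => (1, 2 * i)) with hS2
  have hnrR : ∀ i ∈ nr, i ∈ R := fun i h => (hhiR i (Finset.mem_filter.mp h).1).1
  have hS2c : S2.card ≤ N := by
    have e1 := Finset.card_union_le (nr.image (fun i => (2 * (k - i), 2 * i)))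
      (R.image (fun i => (1, 2 * i)))
    have e3 := Finset.card_image_le (s := nr) (f := fun i => (2 * (k - i), 2 * i))
    have e4 := Finset.card_image_le (s := R) (f := fun i => (1, 2 * i))
    have e6 : nr.card ≤ R.card := Finset.card_le_card hnrR
    rw [hS2]
    omega
  have hmemS2 : P ∈ Submodule.span F (ph '' (S2 : Set (ℕ × ℕ))) := by
    have hmem : ∀ s ∈ S2, (ph s : F[X]) ∈ Submodule.span F (ph '' (S2 : Set (ℕ × ℕ))) :=
      fun s hs => Submodule.subset_span (Set.mem_image_of_mem _ hs)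
    rw [hP2]
    simp only [← Polynomial.smul_eq_C_mul]
    refine Submodule.sub_mem _ ?_ (Submodule.add_mem _ (Submodule.sum_mem _ (fun i h =>
      Submodule.smul_mem _ _ (hmem _ ?_))) (Submodule.sum_mem _ (fun i h => Submodule.smul_mem _ _
      (hmem _ ?_))))
    · refine Submodule.span_mono (Set.image_mono ?_) hb
      intro s hs
      rw [Finset.mem_coe, Finset.mem_image] at hs
      obtain ⟨i, h, rfl⟩ := hs
      rw [Finset.mem_coe, hS2, Finset.mem_union]
      exact Or.inr (Finset.mem_image_of_mem (fun i => (1, 2 * i)) (hloR i h).1)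
    · rw [hS2, Finset.mem_union]
      exact Or.inl (Finset.mem_image_of_mem (fun i => (2 * (k - i), 2 * i)) h)
    · rw [hS2, Finset.mem_union]
      exact Or.inr (Finset.mem_image_of_mem (fun i => (1, 2 * i)) (hhiR i h).1)
  have hz2 := zest_zero p S2 (by
    intro s hs
    rw [hS2, Finset.mem_union, Finset.mem_image, Finset.mem_image] at hs
    rcases hs with ⟨i, h, rfl⟩ | ⟨i, h, rfl⟩
    · have := hR i (hnrR i h)
      simp only; omega
    · have := hR i h
      simp only; omega) P M hmemS2 hPd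
  have hcc2 : S2.card * (S2.card - 1) ≤ 2 * D := by
    rw [← hD]
    exact Nat.mul_le_mul hS2c (Nat.sub_le_sub_right hS2c 1)
  have hz2' : P ∈ Submodule.span F (ph '' ((nr.image (fun i => (2 * (k - i), 2 * i)) :
      Finset (ℕ × ℕ)) : Set (ℕ × ℕ))) := by
    refine Submodule.span_mono (Set.image_mono ?_) hz2
    rintro s ⟨hs1, hs2⟩
    have hs3 : 2 ≤ s.1 := by omega
    rw [hS2, Finset.mem_union] at hs1
    rcases hs1 with h | h
    · exact h
    · rw [Finset.mem_image] at h
      obtain ⟨i, _, rfl⟩ := h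
      simp only at hs3
      omega
  obtain ⟨cp, hcp⟩ := mem_span_fin hz2'
  have hP0 : P = 0 := by
    have h1 := indep_zero (M := M) (T := nr) (k := k) (fun i h => by
      have h1 := (Finset.mem_filter.mp h).2
      have h2 := hR i (hnrR i h)
      omega) cp (by rw [← hcp]; exact hPd)
    rw [hcp]
    exact Finset.sum_eq_zero (fun i h => by rw [h1 i h, C_0, zero_mul])
  -- no far terms
  have hdisj : Disjoint fr lo := by
    rw [Finset.disjoint_left]
    intro i h1 h2
    exact (hloR i h2).2 (hhiR i (Finset.mem_filter.mp h1).1).2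
  have hsum0 : ∑ i ∈ fr ∪ lo, C (if i ∈ lo then - ca i else v i) *
      (ph (2 * (k - i), 2 * i) : F[X]) = 0 := by
    rw [Finset.sum_union hdisj]
    have h1 : ∑ i ∈ fr, C (if i ∈ lo then - ca i else v i) * (ph (2 * (k - i), 2 * i) : F[X]) =
        ∑ i ∈ fr, C (v i) * ph (2 * (k - i), 2 * i) := by
      refine Finset.sum_congr rfl (fun i h => ?_)
      rw [if_neg (Finset.disjoint_left.mp hdisj h)]
    have h2 : ∑ i ∈ lo, C (if i ∈ lo then - ca i else v i) * (ph (2 * (k - i), 2 * i) : F[X]) =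
        -a := by
      rw [hca, ← Finset.sum_neg_distrib]
      refine Finset.sum_congr rfl (fun i h => ?_)
      rw [if_pos h, C_neg]
      ring
    rw [h1, h2, ← sub_eq_add_neg, ← hP, hP0]
  have hall := indep_zero (M := 2 * k + 1) (k := k) (T := fr ∪ lo) (fun i h => by
    rw [Finset.mem_union] at h
    rcases h with h | h
    · have := hR i (hhiR i (Finset.mem_filter.mp h).1).1
      omega
    · have := hR i (hloR i h).1
      omega) _ (by rw [hsum0]; exact dvd_zero _)
  have hfr0 : fr = ∅ := by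
    by_contra hne'
    obtain ⟨i, h⟩ := Finset.nonempty_iff_ne_empty.mpr hne'
    have h1 := hall i (Finset.mem_union_left _ h)
    rw [if_neg (Finset.disjoint_left.mp hdisj h)] at h1
    exact hv i (hhiR i (Finset.mem_filter.mp h).1).1 h1
  have ha0 : a = 0 := by
    have h1 : P = -a := by rw [hP, hfr0, Finset.sum_empty, zero_sub]
    rw [hP0] at h1
    exact neg_eq_zero.mp h1.symm
  have hHb : Hi = b := by rw [← hab, ha0, zero_add]
  -- the high part vanishes
  have hHi0 : Hi = 0 := by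
    have h1 : (X + 1) ^ (2 * k - M + 1) ∣ Hi := by
      apply hdvd
      intro i h
      have h2 := hR i (hhiR i h).1
      have h3 : ¬ M ≤ 2 * (k - i) := by
        intro h4
        have : i ∈ fr := Finset.mem_filter.mpr ⟨h, h4⟩
        rw [hfr0] at this
        exact absurd this (Finset.notMem_empty i)
      omega
    apply Polynomial.eq_zero_of_dvd_of_natDegree_lt h1
    have e : (X + 1 : F[X]) = X + C 1 := by simp
    rw [natDegree_pow, e, natDegree_X_add_C, mul_one, hHb]
    obtain ⟨cb, hcb⟩ := mem_span_fin hb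
    have h4 : b.natDegree ≤ M := by
      rw [hcb]
      refine natDegree_sum_le_of_forall_le _ _ (fun i h => ?_)
      have h5 := (hloR i h).2
      refine (natDegree_C_mul_le _ _).trans ?_
      rw [hcII, pow_one]
      have hX1 : (((X : F[X]) + 1) ^ (2 * i)).natDegree ≤ 2 * i := by
        refine natDegree_pow_le.trans ?_
        have : (X + 1 : F[X]).natDegree ≤ 1 := by compute_degree
        nlinarith
      have h6 := natDegree_mul_le (p := (X : F[X])) (q := (X + 1) ^ (2 * i))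
      have h7 : (X : F[X]).natDegree ≤ 1 := natDegree_X_le
      omega
    omega
  have hhi0 : hi = ∅ := by
    refine indep_two p (k := k) (by omega) (T := hi) (fun i h => (hR i (hhiR i h).1).2) v
      (fun i h => hv i (hhiR i h).1) ?_
    rw [← hHi0, hHi]
  obtain ⟨i, h⟩ := hne
  have h1 : ¬ M ≤ 2 * i := by
    intro h2
    have : i ∈ hi := Finset.mem_filter.mpr ⟨h, h2⟩
    rw [hhi0] at this
    exact absurd this (Finset.notMem_empty i)
  have h2 : ¬ M ≤ 2 * (k - i) := by
    intro h2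
    have : k - i ∈ hi := Finset.mem_filter.mpr ⟨hsym i h, h2⟩
    rw [hhi0] at this
    exact absurd this (Finset.notMem_empty _)
  have := hR i h
  omega

end Run7.h976.RS
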