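import Pool.Agent.Run7.h976.RS2
import Pool.Agent.TH350.RC.SumReg

/-!
Sums of two regular indices: every index which is a sum of two regular indices is one in many ways.
-/

set_option autoImplicit false

namespace Run7.h976.RS

open Polynomial Finset Pool.Agent.TH350.WZ Pool.Agent.TH350.AddF Pool.Agent.H332R2
  Pool.Agent.TH350.SumReg

open Classical in
/-- The indices `i`, `0 < i < k`, such that `i` and `k - i` are regular. -/
noncomputable def RR (p k : ℕ) : Finset ℕ :=
  (Finset.Ioo 0 k).filter (fun i : ℕ => ¬ ((p : ℤ) ∣ (_root_.bernoulli (2 * i)).num) ∧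
    ¬ ((p : ℤ) ∣ (_root_.bernoulli (2 * (k - i))).num))

theorem mem_RR {p k i : ℕ} : i ∈ RR p k ↔ (0 < i ∧ i < k) ∧
    ¬ ((p : ℤ) ∣ (_root_.bernoulli (2 * i)).num) ∧
    ¬ ((p : ℤ) ∣ (_root_.bernoulli (2 * (k - i))).num) := by
  unfold RR
  rw [Finset.mem_filter, Finset.mem_Ioo]

/-- An irregular index which is a sum of two regular indices. -/
theorem irregular_sum {p : ℕ} [hp : Fact p.Prime] (k : ℕ) (hk : 2 ≤ k) (hkp : 2 * k + 3 ≤ p)
    (hirr : (p : ℤ) ∣ (_root_.bernoulli (2 * k)).num) (hne : (RR p k).Nonempty) :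
    2 * k ≤ 3 * (RR p k).card * (3 * (RR p k).card - 1) + 2 := by
  classical
  have hccb : ∀ m, 2 * m + 3 ≤ p → (cc p (2 * m) = 0 ↔ (p : ℤ) ∣ (_root_.bernoulli (2 * m)).num) :=
    fun m hm => cc_eq_zero_iff (by omega) (by omega)
  have hid := identity_poly (p := p) k hk hkp
  have hck : cc p (2 * k) = 0 := (hccb k hkp).2 hirr
  have hw0 : ww p k 0 = 0 := by
    unfold ww; simp [hck]
  have hwk : ww p k k = 0 := by
    unfold ww; simp [hck]
  have hmem : ∀ i, 0 < i → i < k → (i ∈ RR p k ↔ ww p k i ≠ 0) := by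
    intro i h1 h2
    rw [mem_RR]
    unfold ww
    rw [mul_ne_zero_iff, ne_eq, ne_eq, hccb i (by omega), hccb (k - i) (by omega)]
    exact ⟨fun h => h.2, fun h => ⟨⟨h1, h2⟩, h⟩⟩
  refine core (F := ZMod p) p hkp (R := RR p k) (fun i h => (mem_RR.mp h).1) ?_ (ww p k) ?_ ?_ hne
  · intro i h
    rw [mem_RR] at h ⊢
    have e : k - (k - i) = i := by omega
    rw [e]
    exact ⟨by omega, h.2.2, h.2.1⟩
  · intro i h
    have := (mem_RR.mp h).1
    exact (hmem i this.1 this.2).mp h
  · rw [← hid]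
    apply Finset.sum_subset
    · intro i h
      have := (mem_RR.mp h).1
      rw [Finset.mem_range]
      omega
    · intro i h1 h2
      rw [Finset.mem_range] at h1
      have hz : ww p k i = 0 := by
        rcases Nat.eq_zero_or_pos i with h3 | h3
        · rw [h3]; exact hw0
        · rcases Nat.lt_or_ge i k with h4 | h4
          · by_contra hcon
            exact h2 ((hmem i h3 h4).mpr hcon)
          · have : i = k := by omega
            rw [this]; exact hwk
      rw [hz, C_0, zero_mul]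

/-- Every index which is a sum of two regular indices has many representations. -/
theorem many_reps {p : ℕ} (hp : p.Prime) (k : ℕ) (hkp : 2 * k + 3 ≤ p) (hne : (RR p k).Nonempty) :
    2 * k ≤ 9 * (RR p k).card ^ 2 := by
  haveI : Fact p.Prime := ⟨hp⟩
  have hr : 1 ≤ (RR p k).card := Finset.card_pos.mpr hne
  have hk : 2 ≤ k := by
    obtain ⟨i, h⟩ := hne
    have := (mem_RR.mp h).1
    omega
  by_cases hirr : (p : ℤ) ∣ (_root_.bernoulli (2 * k)).num
  · have h1 := irregular_sum k hk hkp hirr hne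
    obtain ⟨r, hr2⟩ : ∃ r, (RR p k).card = r + 1 := ⟨(RR p k).card - 1, by omega⟩
    rw [hr2] at h1 ⊢
    have e : 3 * (r + 1) - 1 = 3 * r + 2 := by omega
    rw [e] at h1
    nlinarith
  · have h1 := main (p := p) k hk hkp hirr (RR p k) (fun i h1 h2 h3 h4 =>
      mem_RR.mpr ⟨⟨h1, h2⟩, h3, h4⟩) (fun i h => (mem_RR.mp h).1)
    nlinarith

end Run7.h976.RS
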