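import Pool.Agent.Run7.h976.RS3
import Pool.Agent.H332R2.Window

/-!
The number of regular indices up to `K` is at least `K^(2/3) / 8`.
-/

set_option autoImplicit false

namespace Run7.h976.RS

open Finset

/-- The index `m` is regular. -/
def Rg (p m : ℕ) : Prop := ¬ ((p : ℤ) ∣ (_root_.bernoulli (2 * m)).num)

open Classical in
/-- The regular indices up to `x`. -/
noncomputable def TT (p x : ℕ) : Finset ℕ := (Finset.Icc 1 x).filter (Rg p)

theorem mem_TT {p x m : ℕ} : m ∈ TT p x ↔ (1 ≤ m ∧ m ≤ x) ∧ Rg p m := by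
  classical
  unfold TT
  rw [Finset.mem_filter, Finset.mem_Icc]

theorem window {p : ℕ} (hp : p.Prime) (a r : ℕ) (hr : 1 ≤ r)
    (ha : a ≤ r * r) (hpr : 2 * (a + r) + 3 ≤ p) : ∃ m : ℕ, a < m ∧ m ≤ a + r ∧ Rg p m := by
  have : Fact p.Prime := ⟨hp⟩
  rcases Nat.eq_zero_or_pos a with h0 | h0
  · refine ⟨1, by omega, by omega, ?_⟩
    unfold Rg
    have h2 : _root_.bernoulli (2 * 1) = 6⁻¹ := bernoulli_two
    rw [h2]
    have h3 : ((6 : ℚ)⁻¹).num = 1 := by norm_num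
    rw [h3]
    intro h
    have := Int.le_of_dvd (by norm_num) h
    have := hp.two_le
    omega
  · by_contra hcon
    push Not at hcon
    refine Pool.Agent.H332R2.no_window (p := p) (2 * a) r (r + 1) (by omega) (by omega) (by nlinarith)
      (by omega) (by omega) ?_
    intro k hk1 hk2
    rcases Nat.even_or_odd' k with ⟨m, hm | hm⟩
    · subst hm
      rw [Pool.Agent.H332R2.cc_eq_zero_iff (by omega) (by omega)]
      have := hcon m (by omega) (by omega)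
      unfold Rg at this
      exact not_not.mp this
    · have hb : _root_.bernoulli k = 0 := bernoulli_eq_zero_of_odd ⟨m, hm⟩ (by omega)
      unfold Pool.Agent.H332R2.cc
      rw [hb]
      simp

/-- At least `L` regular indices up to `L²`. -/
theorem card_ge {p : ℕ} (hp : p.Prime) {K L : ℕ} (hL : L * L ≤ K) (hK : 2 * K + 3 ≤ p) :
    L ≤ (TT p K).card := by
  classical
  have h : ∀ j : ℕ, j < L → ∃ m : ℕ, j * L < m ∧ m ≤ j * L + L ∧ Rg p m := by
    intro j hj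
    have h1 : j * L + L ≤ L * L := by nlinarith
    exact window hp (j * L) L (by omega) (by nlinarith) (by omega)
  choose! m h1 h2 h3 using h
  have hinj : Set.InjOn m (Finset.range L : Finset ℕ) := by
    intro i hi j hj hij
    rw [Finset.mem_coe, Finset.mem_range] at hi hj
    have a1 := h1 i hi
    have a2 := h2 i hi
    have b1 := h1 j hj
    have b2 := h2 j hj
    rw [hij] at a1 a2
    by_contra hne
    rcases Nat.lt_or_ge i j with h4 | h4
    · have : (i + 1) * L ≤ j * L := Nat.mul_le_mul_right L h4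
      nlinarith
    · have : (j + 1) * L ≤ i * L := Nat.mul_le_mul_right L (by omega)
      nlinarith
  calc L = ((Finset.range L).image m).card := by
        rw [Finset.card_image_of_injOn hinj, Finset.card_range]
    _ ≤ (TT p K).card := by
        apply Finset.card_le_card
        intro x hx
        rw [Finset.mem_image] at hx
        obtain ⟨j, hj, rfl⟩ := hx
        rw [Finset.mem_range] at hj
        have a1 := h1 j hj
        have a2 := h2 j hj
        have a3 : j * L + L ≤ L * L := by nlinarith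
        rw [mem_TT]
        exact ⟨⟨by omega, by omega⟩, h3 j hj⟩

/-- Counting the representations of the sums of a sparse set and of a small set. -/
theorem pairs {p : ℕ} (hp : p.Prime) {K L : ℕ} (hL : L * L ≤ K) (hK : 2 * K + 3 ≤ p) :
    ∃ m : ℕ → ℕ, (∀ j < L / 2, 2 * j * L < m j) ∧
      ∑ j ∈ Finset.range (L / 2), ∑ u ∈ TT p L, (RR p (m j + u)).card ≤ (TT p K).card ^ 2 ∧
      ∀ j < L / 2, ∀ u ∈ TT p L, 2 * (m j + u) ≤ 9 * (RR p (m j + u)).card ^ 2 := by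
  classical
  have hLJ : 2 * (L / 2) ≤ L := Nat.mul_div_le L 2
  have hJ : ∀ j, j < L / 2 → 2 * j * L + 2 * L ≤ L * L := by
    intro j hj
    have : 2 * j + 2 ≤ L := by omega
    nlinarith
  have h : ∀ j : ℕ, j < L / 2 → ∃ m : ℕ, 2 * j * L < m ∧ m ≤ 2 * j * L + L ∧ Rg p m := by
    intro j hj
    have h1 := hJ j hj
    exact window hp (2 * j * L) L (by omega) (by omega) (by omega)
  choose! m h1 h2 h3 using h
  have hsub : ∀ j < L / 2, ∀ u ∈ TT p L, m j + u ≤ K := by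
    intro j hj u hu
    have a1 := h2 j hj
    have a2 := hJ j hj
    have a3 := (mem_TT.mp hu).1.2
    omega
  refine ⟨m, h1, ?_, ?_⟩
  · rw [← Finset.sum_product', ← Finset.card_sigma]
    have e : (TT p K).card ^ 2 = (TT p K ×ˢ TT p K).card := by
      rw [Finset.card_product, sq]
    rw [e]
    apply Finset.card_le_card_of_injOn
      (fun x : (Σ _ : ℕ × ℕ, ℕ) => (x.2, m x.1.1 + x.1.2 - x.2))
    · rintro ⟨⟨j, u⟩, i⟩ hx
      rw [Finset.mem_coe, Finset.mem_sigma, Finset.mem_product, Finset.mem_range] at hx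
      obtain ⟨⟨hj, hu⟩, hi⟩ := hx
      simp only at hj hu hi
      have hi' := mem_RR.mp hi
      have a1 := hsub j hj u hu
      have b1 := hi'.1.1
      have b2 := hi'.1.2
      have c1 : i ∈ TT p K := mem_TT.mpr ⟨⟨by omega, by omega⟩, hi'.2.1⟩
      have c2 : m j + u - i ∈ TT p K := mem_TT.mpr ⟨⟨by omega, by omega⟩, hi'.2.2⟩
      rw [Finset.mem_coe, Finset.mem_product]
      exact ⟨c1, c2⟩
    · rintro ⟨⟨j, u⟩, i⟩ hx ⟨⟨j', u'⟩, i'⟩ hx' heq
      rw [Finset.mem_coe, Finset.mem_sigma, Finset.mem_product, Finset.mem_range] at hx hx'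
      obtain ⟨⟨hj, hu⟩, hi⟩ := hx
      obtain ⟨⟨hj', hu'⟩, hi'⟩ := hx'
      simp only at hj hu hi hj' hu' hi'
      simp only [Prod.mk.injEq] at heq
      obtain ⟨e1, e2⟩ := heq
      subst e1
      have b1 := (mem_RR.mp hi).1
      have b2 := (mem_RR.mp hi').1
      have hsum : m j + u = m j' + u' := by omega
      have c1 := h1 j hj
      have c2 := h2 j hj
      have c3 := h1 j' hj'
      have c4 := h2 j' hj'
      have c5 := (mem_TT.mp hu).1
      have c6 := (mem_TT.mp hu').1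
      have hjj : j = j' := by
        by_contra hne
        rcases Nat.lt_or_ge j j' with h4 | h4
        · have : 2 * (j + 1) * L ≤ 2 * j' * L := Nat.mul_le_mul_right L (by omega)
          nlinarith
        · have : 2 * (j' + 1) * L ≤ 2 * j * L := Nat.mul_le_mul_right L (by omega)
          nlinarith
      subst hjj
      have huu : u = u' := by omega
      subst huu
      rfl
  · intro j hj u hu
    have a1 := hsub j hj u hu
    have a2 := (mem_TT.mp hu)
    apply many_reps hp _ (by omega)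
    refine ⟨m j, ?_⟩
    rw [mem_RR]
    have e : m j + u - m j = u := by omega
    rw [e]
    have a3 : 0 < m j := lt_of_le_of_lt (Nat.zero_le _) (h1 j hj)
    have a4 := a2.1.1
    exact ⟨⟨a3, by omega⟩, h3 j hj, a2.2⟩

theorem sum_sqrt (n : ℕ) :
    2 / 3 * ((n:ℝ) * Real.sqrt n) ≤ ∑ j ∈ Finset.range (n + 1), Real.sqrt j := by
  induction n with
  | zero => simp
  | succ n ih =>
    rw [Finset.sum_range_succ]
    have h1 : (0:ℝ) ≤ n := Nat.cast_nonneg n
    obtain ⟨a, ha⟩ : ∃ a, a = Real.sqrt ((n + 1 : ℕ) : ℝ) := ⟨_, rfl⟩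
    obtain ⟨b, hb⟩ : ∃ b, b = Real.sqrt (n : ℝ) := ⟨_, rfl⟩
    have ha0 : 0 ≤ a := by rw [ha]; exact Real.sqrt_nonneg _
    have hb0 : 0 ≤ b := by rw [hb]; exact Real.sqrt_nonneg _
    have ha2 : a ^ 2 = (n:ℝ) + 1 := by
      rw [ha, Real.sq_sqrt (by positivity)]; push_cast; ring
    have hb2 : b ^ 2 = (n:ℝ) := by rw [hb, Real.sq_sqrt h1]
    have hba : b ≤ a := by
      rw [ha, hb]
      exact Real.sqrt_le_sqrt (by push_cast; linarith)
    rw [← hb] at ih
    rw [← ha]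
    have h3 : ((n + 1 : ℕ) : ℝ) = a ^ 2 := by rw [ha2]; push_cast; ring
    rw [h3]
    have h4 : (n:ℝ) = b ^ 2 := hb2.symm
    rw [h4] at ih
    have h5 : a ^ 2 - b ^ 2 = 1 := by rw [ha2, hb2]; ring
    have h6 : 2 / 3 * (a ^ 2 * a) - 2 / 3 * (b ^ 2 * b) ≤ a := by
      have h7 : a = a * (a ^ 2 - b ^ 2) := by rw [h5, mul_one]
      have h8 : 0 ≤ a * (a ^ 2 - b ^ 2) - (2 / 3 * (a ^ 2 * a) - 2 / 3 * (b ^ 2 * b)) := by
        have : a * (a ^ 2 - b ^ 2) - (2 / 3 * (a ^ 2 * a) - 2 / 3 * (b ^ 2 * b)) =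
            1 / 3 * ((a - b) ^ 2 * (a + 2 * b)) := by ring
        rw [this]
        positivity
      linarith
    linarith

/-- The recursive inequality. -/
theorem recursion {p : ℕ} (hp : p.Prime) {K L : ℕ} (hL : L * L ≤ K) (hK : 2 * K + 3 ≤ p)
    (hL60 : 60 ≤ L) :
    0.14 * ((TT p L).card * (L:ℝ) ^ 2) ≤ ((TT p K).card : ℝ) ^ 2 := by
  obtain ⟨m, hm1, hm2, hm3⟩ := pairs hp hL hK
  obtain ⟨J, hJ⟩ : ∃ J, J = L / 2 := ⟨_, rfl⟩
  rw [← hJ] at hm1 hm2 hm3
  obtain ⟨n, hn⟩ : ∃ n, J = n + 1 := ⟨J - 1, by omega⟩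
  have hLr : (60:ℝ) ≤ L := by exact_mod_cast hL60
  have hL0 : (0:ℝ) ≤ L := by linarith
  have h1 : ∀ j ∈ Finset.range J, ∀ u ∈ TT p L,
      2 / 3 * (Real.sqrt L * Real.sqrt j) ≤ ((RR p (m j + u)).card : ℝ) := by
    intro j hj u hu
    rw [Finset.mem_range] at hj
    have a1 := hm1 j hj
    have a2 := hm3 j hj u hu
    have a3 : 4 * (j * L) ≤ 9 * (RR p (m j + u)).card ^ 2 := by
      have : 2 * (2 * j * L) ≤ 2 * (m j + u) := by omega
      nlinarith
    have a4 : 4 * ((j:ℝ) * L) ≤ 9 * ((RR p (m j + u)).card : ℝ) ^ 2 := by exact_mod_cast a3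
    rw [← Real.sqrt_mul hL0]
    have a5 : Real.sqrt ((L:ℝ) * j) ≤ 3 / 2 * ((RR p (m j + u)).card : ℝ) := by
      apply Real.sqrt_le_iff.mpr
      refine ⟨by positivity, ?_⟩
      nlinarith
    linarith
  have h2 : ∑ j ∈ Finset.range J, ∑ u ∈ TT p L, 2 / 3 * (Real.sqrt L * Real.sqrt j) ≤
      ((TT p K).card : ℝ) ^ 2 := by
    have h3 : ∑ j ∈ Finset.range J, ∑ u ∈ TT p L, ((RR p (m j + u)).card : ℝ) ≤
        ((TT p K).card : ℝ) ^ 2 := by exact_mod_cast hm2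
    exact (Finset.sum_le_sum (fun j hj => Finset.sum_le_sum (fun u hu => h1 j hj u hu))).trans h3
  have h4 : ∑ j ∈ Finset.range J, ∑ u ∈ TT p L, 2 / 3 * (Real.sqrt L * Real.sqrt j) =
      2 / 3 * ((TT p L).card : ℝ) * Real.sqrt L * ∑ j ∈ Finset.range J, Real.sqrt j := by
    rw [Finset.mul_sum]
    apply Finset.sum_congr rfl
    intro j _
    rw [Finset.sum_const, nsmul_eq_mul]
    ring
  rw [h4, hn] at h2
  have h5 := sum_sqrt n
  -- numerical bounds
  have hn2 : L ≤ 2 * n + 3 := by omega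
  have hn3 : (L:ℝ) ≤ 2 * n + 3 := by exact_mod_cast hn2
  have hnL : 0.475 * (L:ℝ) ≤ n := by linarith
  have hs1 : 0.689 * Real.sqrt L ≤ Real.sqrt n := by
    apply Real.le_sqrt_of_sq_le
    rw [mul_pow, Real.sq_sqrt hL0]
    nlinarith
  have hsL : Real.sqrt L * Real.sqrt L = L := Real.mul_self_sqrt hL0
  have hs0 : 0 ≤ Real.sqrt L := Real.sqrt_nonneg _
  have h6 : 0.3272 * ((L:ℝ) * Real.sqrt L) ≤ (n:ℝ) * Real.sqrt n := by
    have : 0.475 * (L:ℝ) * (0.689 * Real.sqrt L) ≤ (n:ℝ) * Real.sqrt n :=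
      mul_le_mul hnL hs1 (by positivity) (by positivity)
    nlinarith [mul_nonneg hL0 hs0]
  have h7 : 0.218 * ((L:ℝ) * Real.sqrt L) ≤ ∑ j ∈ Finset.range (n + 1), Real.sqrt j := by
    have := mul_nonneg hL0 hs0
    linarith
  have h8 : 2 / 3 * ((TT p L).card : ℝ) * Real.sqrt L * (0.218 * ((L:ℝ) * Real.sqrt L)) ≤
      ((TT p K).card : ℝ) ^ 2 :=
    (mul_le_mul_of_nonneg_left h7 (by positivity)).trans h2
  have h9 : 2 / 3 * ((TT p L).card : ℝ) * Real.sqrt L * (0.218 * ((L:ℝ) * Real.sqrt L)) =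
      2 / 3 * 0.218 * ((TT p L).card * (L:ℝ)) * (Real.sqrt L * Real.sqrt L) := by ring
  rw [h9, hsL] at h8
  have h10 : 0 ≤ ((TT p L).card : ℝ) * (L:ℝ) ^ 2 := by positivity
  have h11 : 2 / 3 * 0.218 * ((TT p L).card * (L:ℝ)) * (L:ℝ) =
      2 / 3 * 0.218 * (((TT p L).card : ℝ) * (L:ℝ) ^ 2) := by ring
  rw [h11] at h8
  linarith

/-- **The number of regular indices up to `K` is at least `K^(2/3) / 8`.** -/
theorem two_thirds {p : ℕ} (hp : p.Prime) (K : ℕ) (hK : 2 * K + 3 ≤ p) :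
    K ^ 2 ≤ 512 * (TT p K).card ^ 3 := by
  induction K using Nat.strong_induction_on with
  | _ K ih =>
    obtain ⟨L, hL⟩ : ∃ L, L = Nat.sqrt K := ⟨_, rfl⟩
    have hLK : L * L ≤ K := by rw [hL]; exact Nat.sqrt_le K
    have hKL : K < (L + 1) * (L + 1) := by rw [hL]; exact Nat.lt_succ_sqrt K
    rcases Nat.lt_or_ge L 60 with h60 | h60
    · rcases Nat.eq_zero_or_pos K with h0 | h0
      · rw [h0]; simp
      have hL1 : 1 ≤ L := by
        by_contra hcon
        have : L = 0 := by omega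
        rw [this] at hKL
        omega
      have h1 := card_ge hp hLK hK
      have h2 : L ^ 3 ≤ (TT p K).card ^ 3 := Nat.pow_le_pow_left h1 3
      have h3 : K ^ 2 ≤ ((L + 1) * (L + 1)) ^ 2 := Nat.pow_le_pow_left hKL.le 2
      have h4 : ((L + 1) * (L + 1)) ^ 2 ≤ 512 * L ^ 3 := by
        have h5 : (L + 1) ≤ 2 * L := by omega
        have h6 : (L + 1) ^ 3 ≤ (2 * L) ^ 3 := Nat.pow_le_pow_left h5 3
        calc ((L + 1) * (L + 1)) ^ 2 = (L + 1) ^ 3 * (L + 1) := by ring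
          _ ≤ (2 * L) ^ 3 * 60 := Nat.mul_le_mul h6 (by omega)
          _ = 480 * L ^ 3 := by ring
          _ ≤ 512 * L ^ 3 := Nat.mul_le_mul_right _ (by norm_num)
      omega
    · have hlt : L < K := by nlinarith
      have h1 := ih L hlt (by omega)
      have h2 := recursion hp hLK hK h60
      obtain ⟨a, ha⟩ : ∃ a : ℝ, a = ((TT p K).card : ℝ) := ⟨_, rfl⟩
      obtain ⟨b, hb⟩ : ∃ b : ℝ, b = ((TT p L).card : ℝ) := ⟨_, rfl⟩
      rw [← ha, ← hb] at h2
      have h1' : (L:ℝ) ^ 2 ≤ 512 * b ^ 3 := by rw [hb]; exact_mod_cast h1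
      have ha0 : 0 ≤ a := by rw [ha]; positivity
      have hb0 : 0 ≤ b := by rw [hb]; positivity
      have hLr : (60:ℝ) ≤ L := by exact_mod_cast h60
      have hL0 : (0:ℝ) ≤ L := by linarith
      have hKr : (K:ℝ) ≤ ((L:ℝ) + 1) * ((L:ℝ) + 1) := by exact_mod_cast hKL.le
      have h3 : (0.14 * (b * (L:ℝ) ^ 2)) ^ 3 ≤ (a ^ 2) ^ 3 :=
        pow_le_pow_left₀ (by positivity) h2 3
      have h4 : (K:ℝ) ≤ (61/60) ^ 2 * (L:ℝ) ^ 2 := by
        have : (L:ℝ) + 1 ≤ 61/60 * L := by linarith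
        calc (K:ℝ) ≤ ((L:ℝ) + 1) * ((L:ℝ) + 1) := hKr
          _ ≤ (61/60 * L) * (61/60 * L) := mul_le_mul this this (by positivity) (by positivity)
          _ = _ := by ring
      have h5 : (K:ℝ) ^ 4 ≤ ((61/60) ^ 2 * (L:ℝ) ^ 2) ^ 4 :=
        pow_le_pow_left₀ (Nat.cast_nonneg K) h4 4
      have h6 : (K:ℝ) ^ 4 ≤ (512 * a ^ 3) ^ 2 := by
        have e1 : (0.14 * (b * (L:ℝ) ^ 2)) ^ 3 = 0.14 ^ 3 * (b ^ 3 * (L:ℝ) ^ 6) := by ring
        have e2 : (512 * a ^ 3) ^ 2 = 512 ^ 2 * (a ^ 2) ^ 3 := by ring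
        have e3 : (L:ℝ) ^ 2 * (L:ℝ) ^ 6 ≤ 512 * b ^ 3 * (L:ℝ) ^ 6 :=
          mul_le_mul_of_nonneg_right h1' (by positivity)
        have e4 : ((61/60) ^ 2 * (L:ℝ) ^ 2) ^ 4 = (61/60) ^ 8 * ((L:ℝ) ^ 2 * (L:ℝ) ^ 6) := by ring
        rw [e1] at h3
        rw [e4] at h5
        rw [e2]
        have e5 : 0 ≤ (L:ℝ) ^ 2 * (L:ℝ) ^ 6 := by positivity
        have e6 : ((61/60 : ℝ)) ^ 8 ≤ 512 * 0.14 ^ 3 := by norm_num
        calc (K:ℝ) ^ 4 ≤ (61/60) ^ 8 * ((L:ℝ) ^ 2 * (L:ℝ) ^ 6) := h5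
          _ ≤ (512 * 0.14 ^ 3) * ((L:ℝ) ^ 2 * (L:ℝ) ^ 6) := mul_le_mul_of_nonneg_right e6 e5
          _ ≤ (512 * 0.14 ^ 3) * (512 * b ^ 3 * (L:ℝ) ^ 6) :=
              mul_le_mul_of_nonneg_left e3 (by norm_num)
          _ = 512 ^ 2 * (0.14 ^ 3 * (b ^ 3 * (L:ℝ) ^ 6)) := by ring
          _ ≤ 512 ^ 2 * (a ^ 2) ^ 3 := mul_le_mul_of_nonneg_left h3 (by norm_num)
      have h7 : (K:ℝ) ^ 2 ≤ 512 * a ^ 3 := by
        have e : (K:ℝ) ^ 4 = ((K:ℝ) ^ 2) ^ 2 := by ring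
        rw [e] at h6
        exact (pow_le_pow_iff_left₀ (by positivity) (by positivity) (by norm_num)).mp h6
      rw [ha] at h7
      exact_mod_cast h7

end Run7.h976.RS
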