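import Pool.Agent.Run7.h976.AF2
import Pool.Agent.H973R3.NC.NP

/-!
Bond percolation on `ℤ²`: the event that the end points of an edge at the origin are connected
without this edge. Local events near the origin, near the edges which are pivotal for it, and in
annuli.
-/

set_option autoImplicit false

namespace Run7.h976

open H974 H12S H973N H389NS H389NS.E1b Finset

/-- The end points of `e0 β` are connected. -/
def fB (β : Bool) (F : Finset Edg) : Prop :=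
  Cn {src (e0 β)} {tgt (e0 β)} (↑F : Set Edg)

theorem fB_mono (β : Bool) {F G : Finset Edg} (h : F ⊆ G) (hF : fB β F) : fB β G :=
  NP.cn_mono (by exact_mod_cast h) hF

theorem fB_iff {β : Bool} {F : Finset Edg} :
    fB β F ↔ Reach (↑F : Set Edg) (src (e0 β)) (tgt (e0 β)) := by
  constructor
  · rintro ⟨u, hu, v, hv, h⟩
    rw [Set.mem_singleton_iff] at hu hv
    subst hu; subst hv
    exact h
  · intro h
    exact ⟨_, rfl, _, rfl, h⟩

/-- The random edges: the edges of the box of radius `n` except `e0 β`. -/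
noncomputable def Sn (n : ℕ) (β : Bool) : Finset Edg := (boxE n).erase (e0 β)

/-- sup norm of the base point of an edge -/
def nm (e : Edg) : ℕ := max e.1.natAbs e.2.1.natAbs

/-- sup distance of the base points of two edges -/
def nd (e g : Edg) : ℕ := max (e.1 - g.1).natAbs (e.2.1 - g.2.1).natAbs

theorem nd_comm (e g : Edg) : nd e g = nd g e := by
  unfold nd
  omega

theorem nm_le {e : Edg} {k : ℕ} : nm e ≤ k ↔ (-(k:ℤ) ≤ e.1 ∧ e.1 ≤ k) ∧
    (-(k:ℤ) ≤ e.2.1 ∧ e.2.1 ≤ k) := by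
  unfold nm
  omega

theorem mem_boxE_of {e : Edg} {k : ℕ} (h : nm e + 1 ≤ k) : e ∈ boxE k := by
  have h1 := (nm_le (e := e) (k := nm e)).mp le_rfl
  obtain ⟨x, y, _ | _⟩ := e
  · unfold boxE
    rw [mem_RE_false]
    simp only at h1
    omega
  · unfold boxE
    rw [mem_RE_true]
    simp only at h1
    omega

theorem nm_of_mem {e : Edg} {k : ℕ} (h : e ∈ boxE k) : nm e ≤ k := by
  rw [nm_le]
  obtain ⟨x, y, _ | _⟩ := e
  · unfold boxE at h
    rw [mem_RE_false] at h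
    simp only
    omega
  · unfold boxE at h
    rw [mem_RE_true] at h
    simp only
    omega

theorem nd_blk {e g : Edg} {k : ℕ} (h : g ∈ blk (bp e) k) : nd e g ≤ k := by
  obtain ⟨⟨h1, h2⟩, h3, h4⟩ := NP.RE_weak h
  unfold bp at h1 h2 h3 h4
  simp only at h1 h2 h3 h4
  unfold nd
  omega

theorem mem_blk_of {e g : Edg} {k : ℕ} (h : nd e g + 1 ≤ k) : g ∈ blk (bp e) k := by
  apply NP.RE_strong
  unfold nd at h
  unfold bp
  simp only
  omega

/-- far from the box of centre `c` and radius `k` (or on its boundary) -/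
def far (c : ℤ × ℤ) (k : ℕ) (z : Vtx) : Prop :=
  z.1 ≤ c.1 - k ∨ c.1 + k ≤ z.1 ∨ z.2 ≤ c.2 - k ∨ c.2 + k ≤ z.2

/-- in the box -/
def inb (c : ℤ × ℤ) (k : ℕ) (z : Vtx) : Prop := inR (c.1 - k) (c.1 + k) (c.2 - k) (c.2 + k) z

theorem crossing {c : ℤ × ℤ} {d k : ℕ} (hd : d ≤ k) {G : Set Edg} {u z : Vtx}
    (hu : inb c d u) (hz : far c k z) (h : Reach G u z) :
    ∃ v ∈ bdB c d, ∃ w ∈ bdB c k, Reach (G ∩ ↑(blk c k \ blk c d)) v w ∧ Reach G u w := by
  have huk : inR (c.1 - k) (c.1 + k) (c.2 - k) (c.2 + k) u := by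
    unfold inb at hu
    unfold inR at hu ⊢
    omega
  obtain ⟨w, h1, h2, h3⟩ := first_exit huk h hz
  obtain ⟨v, k1, k2, k3⟩ := last_exit (c := c) (d := d) (k := k) hd
    (G := G ∩ ↑(RE (c.1 - k) (c.1 + k) (c.2 - k) (c.2 + k))) (F := G) Set.inter_subset_left
    (fun e he => Finset.mem_coe.mp he.2) (w := w) (by omega) (u := u) h3.symm hu
  exact ⟨v, bdB_iff.mpr ⟨k1, k2⟩, w, bdB_iff.mpr ⟨h1, h2⟩, k3, h3.mono Set.inter_subset_left⟩

/-- Two distinct clusters which leave the box contain two crossings of the annulus. -/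
theorem A4a_of {c : ℤ × ℤ} {d k : ℕ} (hd : d ≤ k) {G : Set Edg} {u u' z z' : Vtx}
    (hu : inb c d u) (hu' : inb c d u') (hz : far c k z) (hz' : far c k z')
    (h : Reach G u z) (h' : Reach G u' z') (hn : ¬ Reach G u u') : A4a c d k G := by
  obtain ⟨v, hv, w, hw, h1, h2⟩ := crossing hd hu hz h
  obtain ⟨v', hv', w', hw', h1', h2'⟩ := crossing hd hu' hz' h'
  refine ⟨v, hv, v', hv', ⟨w, hw, h1⟩, ⟨w', hw', h1'⟩, ?_⟩
  intro h3
  apply hn
  have m : ∀ a b : Vtx, Reach (G ∩ ↑(blk c k \ blk c d)) a b → Reach G a b :=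
    fun a b hab => hab.mono Set.inter_subset_left
  exact (((h2.trans (m _ _ h1).symm).trans (m _ _ h3)).trans (m _ _ h1')).trans h2'.symm

theorem A4a_congr {c : ℤ × ℤ} {d k : ℕ} {F G : Set Edg}
    (h : ∀ e ∈ blk c k, e ∉ blk c d → (e ∈ F ↔ e ∈ G)) : A4a c d k F ↔ A4a c d k G := by
  have e1 : F ∩ ↑(blk c k \ blk c d) = G ∩ ↑(blk c k \ blk c d) := by
    ext x
    simp only [Set.mem_inter_iff, Finset.mem_coe, Finset.mem_sdiff]
    constructor
    · rintro ⟨h1, h2, h3⟩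
      exact ⟨(h x h2 h3).mp h1, h2, h3⟩
    · rintro ⟨h1, h2, h3⟩
      exact ⟨(h x h2 h3).mpr h1, h2, h3⟩
  unfold A4a
  rw [e1]

/-- A pivotal edge: each end point of `e0 β` is connected to an end point of the pivotal edge. -/
theorem pf_ends {β : Bool} {g : Edg} {F : Finset Edg} (h : Pf (fB β) g F) :
    (∃ z, (z = src g ∨ z = tgt g) ∧ Reach (↑(F.erase g) : Set Edg) (src (e0 β)) z) ∧
    (∃ z, (z = src g ∨ z = tgt g) ∧ Reach (↑(F.erase g) : Set Edg) (tgt (e0 β)) z) ∧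
    ¬ Reach (↑(F.erase g) : Set Edg) (src (e0 β)) (tgt (e0 β)) := by
  obtain ⟨h1, h2⟩ := h
  rw [fB_iff] at h1 h2
  have e1 : (↑(insert g F) : Set Edg) = insert g (↑(F.erase g) : Set Edg) := by
    ext x
    simp only [Finset.coe_insert, Set.mem_insert_iff, Finset.mem_coe, Finset.mem_erase]
    tauto
  rw [e1] at h1
  have h3 : Reach (↑(F.erase g) : Set Edg) (src (e0 β)) (tgt (e0 β)) ∨
      (Reach (↑(F.erase g) : Set Edg) (src (e0 β)) (src g) ∧
        Reach (↑(F.erase g) : Set Edg) (tgt g) (tgt (e0 β))) ∨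
      (Reach (↑(F.erase g) : Set Edg) (src (e0 β)) (tgt g) ∧
        Reach (↑(F.erase g) : Set Edg) (src g) (tgt (e0 β))) :=
    (GR_insert (s := src) (t := tgt) (F := (↑(F.erase g) : Set Edg)) (e := g)
      (x := src (e0 β)) (y := tgt (e0 β))).mp h1
  rcases h3 with h3 | ⟨h3, h4⟩ | ⟨h3, h4⟩
  · exact absurd h3 h2
  · exact ⟨⟨_, Or.inl rfl, h3⟩, ⟨_, Or.inr rfl, h4.symm⟩, h2⟩
  · exact ⟨⟨_, Or.inr rfl, h3⟩, ⟨_, Or.inl rfl, h4.symm⟩, h2⟩

/-- The four-arm event at the origin. -/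
def A40 (β : Bool) (ρ : ℕ) (F : Finset Edg) : Prop :=
  A4 (-ρ) ρ (-ρ) ρ (e0 β) (↑F : Set Edg)

theorem A40_congr {β : Bool} {ρ : ℕ} {F G : Finset Edg}
    (h : ∀ g ∈ boxE ρ, g ≠ e0 β → (g ∈ F ↔ g ∈ G)) : A40 β ρ F ↔ A40 β ρ G := by
  unfold A40
  apply A4_congr
  intro g hg hne
  rw [Finset.mem_coe, Finset.mem_coe]
  exact h g hg hne

theorem notMem_box {ρ : ℕ} {g : Edg} (hg : g ∉ boxE ρ) {z : Vtx} (hz : z = src g ∨ z = tgt g) :
    z.1 ≤ -(ρ:ℤ) ∨ (ρ:ℤ) ≤ z.1 ∨ z.2 ≤ -(ρ:ℤ) ∨ (ρ:ℤ) ≤ z.2 := by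
  obtain ⟨x, y, _ | _⟩ := g
  · unfold boxE at hg
    rw [mem_RE_false] at hg
    rcases hz with rfl | rfl
    · simp only [src_mk]; omega
    · simp only [tgt_false]; omega
  · unfold boxE at hg
    rw [mem_RE_true] at hg
    rcases hz with rfl | rfl
    · simp only [src_mk]; omega
    · simp only [tgt_true]; omega

theorem e0_in {β : Bool} {ρ : ℕ} (hρ : 1 ≤ ρ) :
    inR (-(ρ:ℤ)) ρ (-(ρ:ℤ)) ρ (src (e0 β)) ∧ inR (-(ρ:ℤ)) ρ (-(ρ:ℤ)) ρ (tgt (e0 β)) := by
  unfold e0 inR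
  cases β
  · simp only [src_mk, tgt_false]; omega
  · simp only [src_mk, tgt_true]; omega

/-- Two distinct clusters of the ends of `e0 β` which leave the box: four arms. -/
theorem A40_of {β : Bool} {ρ : ℕ} (hρ : 1 ≤ ρ) {F : Finset Edg} (he : e0 β ∉ F) {z z' : Vtx}
    (hz : z.1 ≤ -(ρ:ℤ) ∨ (ρ:ℤ) ≤ z.1 ∨ z.2 ≤ -(ρ:ℤ) ∨ (ρ:ℤ) ≤ z.2)
    (hz' : z'.1 ≤ -(ρ:ℤ) ∨ (ρ:ℤ) ≤ z'.1 ∨ z'.2 ≤ -(ρ:ℤ) ∨ (ρ:ℤ) ≤ z'.2)
    (h : Reach (↑F : Set Edg) (src (e0 β)) z) (h' : Reach (↑F : Set Edg) (tgt (e0 β)) z')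
    (hn : ¬ Reach (↑F : Set Edg) (src (e0 β)) (tgt (e0 β))) : A40 β ρ F := by
  have e1 : ((↑F : Set Edg) ∩ ↑(RE (-(ρ:ℤ)) ρ (-(ρ:ℤ)) ρ)) \ {e0 β} =
      (↑F : Set Edg) ∩ ↑(RE (-(ρ:ℤ)) ρ (-(ρ:ℤ)) ρ) := by
    ext x
    simp only [Set.mem_sdiff, Set.mem_inter_iff, Finset.mem_coe, Set.mem_singleton_iff]
    constructor
    · rintro ⟨h1, _⟩
      exact h1
    · rintro ⟨h1, h2⟩
      exact ⟨⟨h1, h2⟩, fun h3 => he (h3 ▸ h1)⟩
  obtain ⟨w, k1, k2, k3⟩ := first_exit (e0_in (β := β) hρ).1 h hz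
  obtain ⟨w', k1', k2', k3'⟩ := first_exit (e0_in (β := β) hρ).2 h' hz'
  unfold A40 A4
  rw [e1]
  exact ⟨⟨w, ⟨k1, k2⟩, k3⟩, ⟨w', ⟨k1', k2'⟩, k3'⟩, fun h3 => hn (h3.mono Set.inter_subset_left)⟩

theorem pf_A40 {β : Bool} {ρ : ℕ} (hρ : 1 ≤ ρ) {g : Edg} {F : Finset Edg} (he : e0 β ∉ F)
    (hg : g ∉ boxE ρ) (h : Pf (fB β) g F) : A40 β ρ F := by
  obtain ⟨⟨z, hz, h1⟩, ⟨z', hz', h2⟩, h3⟩ := pf_ends h
  have h4 := A40_of hρ (F := F.erase g) (fun h => he (Finset.mem_of_mem_erase h))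
    (notMem_box hg hz) (notMem_box hg hz') h1 h2 h3
  refine (A40_congr ?_).mp h4
  intro x hx _
  rw [Finset.mem_erase]
  exact ⟨fun h => h.2, fun h => ⟨fun h5 => hg (h5 ▸ hx), h⟩⟩

theorem pf_A4a {β : Bool} {d k : ℕ} (hd : 1 ≤ d) (hdk : d ≤ k) {g : Edg} {F : Finset Edg}
    (hg : g ∉ boxE k) (h : Pf (fB β) g F) : A4a (0, 0) d k (↑F : Set Edg) := by
  obtain ⟨⟨z, hz, h1⟩, ⟨z', hz', h2⟩, h3⟩ := pf_ends h
  have hs : ∀ z : Vtx, (z = src g ∨ z = tgt g) → far (0, 0) k z := by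
    intro z hz
    have := notMem_box hg hz
    unfold far
    simp only
    omega
  have h4 : A4a (0, 0) d k (↑(F.erase g) : Set Edg) := by
    refine A4a_of hdk (u := src (e0 β)) (u' := tgt (e0 β)) ?_ ?_ (hs z hz) (hs z' hz') h1 h2 h3
    · have := (e0_in (β := β) hd).1
      unfold inb
      unfold inR at this ⊢
      simp only
      omega
    · have := (e0_in (β := β) hd).2
      unfold inb
      unfold inR at this ⊢
      simp only
      omega
  refine (A4a_congr ?_).mp h4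
  intro x hx _
  rw [S4C_blk0] at hx
  rw [Finset.mem_coe, Finset.mem_coe, Finset.mem_erase]
  exact ⟨fun h => h.2, fun h => ⟨fun h5 => hg (h5 ▸ hx), h⟩⟩

/-- A pivotal block. -/
theorem bf_A4a {β : Bool} {c : ℤ × ℤ} {d k : ℕ} (hdk : d ≤ k) {F : Finset Edg}
    (hx : far c k (src (e0 β))) (hy : far c k (tgt (e0 β)))
    (h : Bf (fB β) (blk c d) F) : A4a c d k (↑F : Set Edg) := by
  obtain ⟨h1, h2⟩ := h
  rw [fB_iff] at h1 h2
  have key : ∀ a w : Vtx, Reach (↑(F ∪ blk c d) : Set Edg) a w →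
      Reach (↑(F \ blk c d) : Set Edg) a w ∨ ∃ x, inb c d x ∧
        Reach (↑(F \ blk c d) : Set Edg) a x := by
    intro a w hw
    induction hw with
    | refl => exact Or.inl (Reach.refl _ _)
    | @tail w w' _ hs ih =>
      rcases ih with ih | ih
      · obtain ⟨e, he, hc⟩ := hs
        by_cases hb : e ∈ blk c d
        · right
          have hb2 := BS_adj_box hb
          refine ⟨w, ?_, ih⟩
          rcases hc with ⟨h1, h2⟩ | ⟨h1, h2⟩
          · rw [← h1]; exact hb2.1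
          · rw [← h2]; exact hb2.2
        · left
          refine ih.trans (Adj.reach ⟨e, ?_, hc⟩)
          rw [Finset.mem_coe, Finset.mem_union] at he
          rw [Finset.mem_coe, Finset.mem_sdiff]
          exact ⟨he.resolve_right hb, hb⟩
      · exact Or.inr ih
  have k1 := (key _ _ h1).resolve_left h2
  have k2 := (key _ _ h1.symm).resolve_left (fun h => h2 h.symm)
  obtain ⟨u, hu, hxu⟩ := k1
  obtain ⟨u', hu', hyu'⟩ := k2
  have h4 : A4a c d k (↑(F \ blk c d) : Set Edg) := by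
    refine A4a_of hdk hu hu' hx hy hxu.symm hyu'.symm ?_
    intro h5
    exact h2 ((hxu.trans h5).trans hyu'.symm)
  refine (A4a_congr ?_).mp h4
  intro x _ hx2
  rw [Finset.mem_coe, Finset.mem_coe, Finset.mem_sdiff]
  exact ⟨fun h => h.1, fun h => ⟨h, hx2⟩⟩

theorem fB_eq (β : Bool) : fB β = (fun F : Finset Edg =>
    Cn {src (e0 β)} {tgt (e0 β)} (↑F : Set Edg)) := rfl

/-- The end points of `e0 β` are not in the interior of a ball which does not meet the origin. -/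
theorem off_ball {β : Bool} {e : Edg} {ρ : ℕ} (h : ρ + 1 ≤ nm e) :
    Off (e.1 - ρ) (e.1 + ρ) (e.2.1 - ρ) (e.2.1 + ρ) {src (e0 β)} {tgt (e0 β)} := by
  intro v hv hv'
  have hv2 : v = (0, 0) ∨ v = (1, 0) ∨ v = (0, 1) := by
    rcases hv with hv | hv
    · left
      rw [Set.mem_singleton_iff] at hv
      rw [hv]
      rfl
    · right
      rw [Set.mem_singleton_iff] at hv
      rw [hv]
      cases β
      · right; rfl
      · left; rfl
  unfold nm at h
  rcases hv2 with rfl | rfl | rfl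
  · simp only at hv'
    omega
  · simp only at hv'
    omega
  · simp only at hv'
    omega

theorem SD_symm {f : Finset Edg → Prop} {e g : Edg} {F : Finset Edg} (h : SD f e g F) :
    SD f g e F := by
  obtain ⟨h1, h2, h3, h4⟩ := h
  refine ⟨h2, h1, ?_, ?_⟩
  · rwa [Finset.insert_comm]
  · rwa [Finset.erase_right_comm]

theorem SD_L4 {β : Bool} {e g : Edg} {ρ : ℕ} (hρ : 1 ≤ ρ) (he : ρ + 1 ≤ nm e)
    (heg : ρ < nd e g) {F : Finset Edg} (h : SD (fB β) e g F) : L4 ρ e (↑F : Set Edg) := by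
  refine NP.SD_L4_aux (I := {src (e0 β)}) (J := {tgt (e0 β)}) hρ (g := g) (off_ball he) ?_ h.1
  intro h5
  have := nd_blk h5
  omega

theorem SD_A40 {β : Bool} {e g : Edg} {ρ : ℕ} (hρ : 1 ≤ ρ) (he : ρ + 1 ≤ nm e)
    (hg : ρ + 1 ≤ nm g) {F : Finset Edg} (h0 : e0 β ∉ F) (h : SD (fB β) e g F) :
    A40 β ρ F := by
  have hgb : g ∉ boxE ρ := fun h5 => by have := nm_of_mem h5; omega
  have heb : e ∉ boxE ρ := fun h5 => by have := nm_of_mem h5; omega
  have hne : e0 β ≠ e := by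
    rintro rfl
    unfold e0 nm at he
    simp at he
  rcases h.2.1 with h1 | h1
  · have h2 := pf_A40 hρ (F := F.erase e) (fun h => h0 (Finset.mem_of_mem_erase h)) hgb h1
    refine (A40_congr ?_).mp h2
    intro x hx _
    rw [Finset.mem_erase]
    exact ⟨fun h => h.2, fun h => ⟨fun h5 => heb (h5 ▸ hx), h⟩⟩
  · have h2 := pf_A40 hρ (F := insert e F) (by
      rw [Finset.mem_insert]
      rintro (h3 | h3)
      · exact hne h3
      · exact h0 h3) hgb h1
    refine (A40_congr ?_).mp h2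
    intro x hx _
    rw [Finset.mem_insert]
    exact ⟨fun h => h.resolve_left (fun h5 => heb (h5 ▸ hx)), fun h => Or.inr h⟩

/-- `e` in the inner box, `g` outside the outer box. -/
theorem SD_A4a0 {β : Bool} {e g : Edg} {d k : ℕ} (hd : 1 ≤ d) (hdk : d ≤ k) (he : nm e + 1 ≤ d)
    (hg : k + 1 ≤ nm g) {F : Finset Edg} (h : SD (fB β) e g F) :
    A4a (0, 0) d k (↑F : Set Edg) := by
  have hgb : g ∉ boxE k := fun h5 => by have := nm_of_mem h5; omega
  have heb : e ∈ blk (0, 0) d := by rw [S4C_blk0]; exact mem_boxE_of he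
  rcases h.2.1 with h1 | h1
  · have h2 := pf_A4a hd hdk (F := F.erase e) hgb h1
    refine (A4a_congr ?_).mp h2
    intro x _ hx
    rw [Finset.mem_coe, Finset.mem_coe, Finset.mem_erase]
    exact ⟨fun h => h.2, fun h => ⟨fun h5 => hx (h5 ▸ heb), h⟩⟩
  · have h2 := pf_A4a hd hdk (F := insert e F) hgb h1
    refine (A4a_congr ?_).mp h2
    intro x _ hx
    rw [Finset.mem_coe, Finset.mem_coe, Finset.mem_insert]
    exact ⟨fun h => h.resolve_left (fun h5 => hx (h5 ▸ heb)), fun h => Or.inr h⟩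

/-- `e` and `g` in the inner box around `e`, the origin outside the outer box. -/
theorem SD_A4ae {β : Bool} {e g : Edg} {d k : ℕ} (hdk : d ≤ k) (heg : nd e g + 1 ≤ d)
    (hk : k + 1 ≤ nm e) {F : Finset Edg} (h : SD (fB β) e g F) :
    A4a (bp e) d k (↑F : Set Edg) := by
  have hee : nd e e + 1 ≤ d := by
    have : nd e e = 0 := by unfold nd; simp
    omega
  have hfar : ∀ v : Vtx, v ∈ ({src (e0 β)} ∪ {tgt (e0 β)} : Set Vtx) → far (bp e) k v := by
    intro v hv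
    have := off_ball (β := β) (e := e) (ρ := k) hk v hv
    unfold far bp
    simp only
    by_contra hcon
    push Not at hcon
    exact this ⟨⟨by omega, by omega⟩, by omega, by omega⟩
  exact bf_A4a hdk (hfar _ (Or.inl rfl)) (hfar _ (Or.inr rfl))
    (NP.SD_Bf (mem_blk_of hee) (mem_blk_of heg) h)

end Run7.h976
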