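import Pool.Agent.Run7.h976.TR1
import Pool.Agent.W424.NC.NearC

/-!
Bond percolation on `ℤ²`: near-critical bound for the probability that two edges are jointly
relevant for the connection of the end points of an edge at the origin.
-/

set_option autoImplicit false

namespace Run7.h976

open H974 H12S H973N H389NS H389NS.E1b Finset

/-- The event only depends on the edges of `W`. -/
def Loc (W : Finset Edg) (A : Finset Edg → Prop) : Prop := ∀ F : Finset Edg, A F ↔ A (F ∩ W)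

theorem Loc.mono {W V : Finset Edg} {A : Finset Edg → Prop} (hA : Loc W A) (h : W ⊆ V) :
    Loc V A := by
  intro F
  rw [hA F, hA (F ∩ V), Finset.inter_assoc, Finset.inter_eq_right.mpr h]

theorem Loc.and {W V : Finset Edg} {A B : Finset Edg → Prop} (hA : Loc W A) (hB : Loc V B) :
    Loc (W ∪ V) (fun F => A F ∧ B F) := by
  intro F
  exact and_congr (hA.mono Finset.subset_union_left F) (hB.mono Finset.subset_union_right F)

theorem pr_and {q : ℝ} {S W V : Finset Edg} {A B : Finset Edg → Prop} (hW : W ⊆ S) (hV : V ⊆ S)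
    (hd : Disjoint W V) (hA : Loc W A) (hB : Loc V B) :
    PQ q S (fun F => A F ∧ B F) = PQ q S A * PQ q S B :=
  Pr_indep hW hV hd (fun F _ => hA F) (fun F _ => hB F)

theorem pr_and_le {q : ℝ} (h0 : 0 ≤ q) (h1 : q ≤ 1) {S W V : Finset Edg}
    {A B : Finset Edg → Prop} (hW : W ⊆ S) (hV : V ⊆ S)
    (hd : Disjoint W V) (hA : Loc W A) (hB : Loc V B) {a b : ℝ} (ha : PQ q S A ≤ a)
    (hb : PQ q S B ≤ b) : PQ q S (fun F => A F ∧ B F) ≤ a * b := by
  rw [pr_and hW hV hd hA hB]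
  have ok : Ok (fun _ : Edg => q) := fun _ => ⟨h0, h1⟩
  exact mul_le_mul ha hb (Pr_nonneg ok _ _) ((Pr_nonneg ok _ _).trans ha)

theorem loc_A40 (β : Bool) (ρ : ℕ) : Loc ((boxE ρ).erase (e0 β)) (A40 β ρ) := by
  intro F
  apply A40_congr
  intro g hg hne
  rw [Finset.mem_inter, Finset.mem_erase]
  exact ⟨fun h => ⟨h, hne, hg⟩, fun h => h.1⟩

theorem loc_L4 (ρ : ℕ) (e : Edg) : Loc (blk (bp e) ρ) (fun F => L4 ρ e (↑F : Set Edg)) := by
  intro F
  apply NP.L4_congr'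
  intro g hg _
  rw [Finset.mem_inter]
  exact ⟨fun h => ⟨h, hg⟩, fun h => h.1⟩

theorem loc_A4a (c : ℤ × ℤ) (d k : ℕ) :
    Loc (blk c k \ blk c d) (fun F => A4a c d k (↑F : Set Edg)) := by
  intro F
  apply A4a_congr
  intro g hg hne
  rw [Finset.mem_coe, Finset.mem_coe, Finset.mem_inter, Finset.mem_sdiff]
  exact ⟨fun h => ⟨h, hg, hne⟩, fun h => h.1⟩

/-- with the trivial event at radius `0` -/
def A40' (β : Bool) (ρ : ℕ) (F : Finset Edg) : Prop := ρ = 0 ∨ A40 β ρ F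

/-- with the trivial event at radius `0` -/
def L4' (ρ : ℕ) (e : Edg) (F : Finset Edg) : Prop := ρ = 0 ∨ L4 ρ e (↑F : Set Edg)

theorem loc_A40' (β : Bool) (ρ : ℕ) : Loc ((boxE ρ).erase (e0 β)) (A40' β ρ) :=
  fun F => or_congr Iff.rfl (loc_A40 β ρ F)

theorem loc_L4' (ρ : ℕ) (e : Edg) : Loc (blk (bp e) ρ) (L4' ρ e) :=
  fun F => or_congr Iff.rfl (loc_L4 ρ e F)

/-- `(m + 1)^(-5/4)` -/
noncomputable def psi (m : ℕ) : ℝ := ((m:ℝ) + 1) ^ (-(5/4) : ℝ)

/-- `(m + 1)^(-15/8)` -/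
noncomputable def phi (m : ℕ) : ℝ := ((m:ℝ) + 1) ^ (-(15/8) : ℝ)

theorem psi_pos (m : ℕ) : 0 < psi m := by unfold psi; positivity

theorem phi_pos (m : ℕ) : 0 < phi m := by unfold phi; positivity

theorem psi_zero : psi 0 = 1 := by unfold psi; norm_num

theorem a4_le_psi {q A : ℝ} {n : ℕ} (h : A4le q A 0 n) {k : ℕ} (hk : k ≤ n) :
    a4 q k ≤ A * psi k := by
  have := Pool.Agent.W424.NC.A4le0.mp h k hk
  exact this

theorem pr_A40 {q : ℝ} (h0 : 0 ≤ q) (h1 : q ≤ 1) {β : Bool} {ρ : ℕ} {S : Finset Edg}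
    (hS : (boxE ρ).erase (e0 β) ⊆ S) : PQ q S (A40 β ρ) ≤ a4 q ρ := by
  have ok : Ok (fun _ : Edg => q) := fun _ => ⟨h0, h1⟩
  have e1 : PQ q S (A40 β ρ) = PQ q ((boxE ρ).erase (e0 β)) (A40 β ρ) :=
    Pr_local hS (fun F _ => loc_A40 β ρ F)
  have e2 : PQ q (boxE ρ) (A40 β ρ) = PQ q ((boxE ρ).erase (e0 β)) (A40 β ρ) :=
    Pr_local (Finset.erase_subset _ _) (fun F _ => loc_A40 β ρ F)
  rw [e1, ← e2]
  have n1 : 0 ≤ PQ q (boxE ρ) (fun F => A4 (-ρ) ρ (-ρ) ρ (e0 true) (↑F : Set Edg)) :=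
    Pr_nonneg ok _ _
  have n2 : 0 ≤ PQ q (boxE ρ) (fun F => A4 (-ρ) ρ (-ρ) ρ (e0 false) (↑F : Set Edg)) :=
    Pr_nonneg ok _ _
  unfold a4
  cases β
  · change PQ q (boxE ρ) (fun F => A4 (-ρ) ρ (-ρ) ρ (e0 false) (↑F : Set Edg)) ≤ _
    linarith
  · change PQ q (boxE ρ) (fun F => A4 (-ρ) ρ (-ρ) ρ (e0 true) (↑F : Set Edg)) ≤ _
    linarith

theorem pr_A40' {q A : ℝ} (h0 : 0 ≤ q) (h1 : q ≤ 1) {n : ℕ} (hA : 1 ≤ A) (h : A4le q A 0 n)
    {β : Bool} {ρ : ℕ} (hρ : ρ ≤ n) {S : Finset Edg}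
    (hS : (boxE ρ).erase (e0 β) ⊆ S) : PQ q S (A40' β ρ) ≤ A * psi ρ := by
  have ok : Ok (fun _ : Edg => q) := fun _ => ⟨h0, h1⟩
  rcases Nat.eq_zero_or_pos ρ with h2 | h2
  · rw [h2, psi_zero, mul_one]
    exact (Pr_le_one ok _ _).trans hA
  · have e1 : PQ q S (A40' β ρ) = PQ q S (A40 β ρ) := by
      apply Pr_congr
      intro F _
      unfold A40'
      constructor
      · rintro (h3 | h3)
        · omega
        · exact h3
      · exact fun h3 => Or.inr h3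
    rw [e1]
    exact (pr_A40 h0 h1 hS).trans (a4_le_psi h hρ)

theorem pr_L4' {q A : ℝ} (h0 : 0 ≤ q) (h1 : q ≤ 1) {n : ℕ} (hA : 1 ≤ A) (h : A4le q A 0 n)
    {e : Edg} {ρ : ℕ} (hρ : ρ ≤ n) {S : Finset Edg}
    (hS : blk (bp e) ρ ⊆ S) : PQ q S (L4' ρ e) ≤ A * psi ρ := by
  have ok : Ok (fun _ : Edg => q) := fun _ => ⟨h0, h1⟩
  rcases Nat.eq_zero_or_pos ρ with h2 | h2
  · rw [h2, psi_zero, mul_one]
    exact (Pr_le_one ok _ _).trans hA
  · have e1 : PQ q S (L4' ρ e) = PQ q S (fun F => L4 ρ e (↑F : Set Edg)) := by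
      apply Pr_congr
      intro F _
      unfold L4'
      constructor
      · rintro (h3 | h3)
        · omega
        · exact h3
      · exact fun h3 => Or.inr h3
    rw [e1]
    exact (pr_L4 h0 h1 hS).trans (a4_le_psi h hρ)

theorem pr_A4a {q : ℝ} (h0 : 0 ≤ q) (h1 : q ≤ 1) {c : ℤ × ℤ} {d k : ℕ} {S : Finset Edg}
    (hS : blk c k \ blk c d ⊆ S) : PQ q S (fun F => A4a c d k (↑F : Set Edg)) ≤ ann q d k := by
  have e1 : PQ q S (fun F => A4a c d k (↑F : Set Edg)) =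
      PQ q (blk c k \ blk c d) (fun F => A4a c d k (↑F : Set Edg)) :=
    Pr_local hS (fun F _ => loc_A4a c d k F)
  have e2 : PQ q (blk c k) (fun F => A4a c d k (↑F : Set Edg)) =
      PQ q (blk c k \ blk c d) (fun F => A4a c d k (↑F : Set Edg)) :=
    Pr_local Finset.sdiff_subset (fun F _ => loc_A4a c d k F)
  rw [e1, ← e2]
  exact le_ann h0 h1 (Finset.Subset.refl _)

/-! ### Geometry -/

theorem box_pos {e : Edg} {k : ℕ} (h : e ∈ boxE k) : 1 ≤ k := by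
  obtain ⟨x, y, _ | _⟩ := e
  · unfold boxE at h
    rw [mem_RE_false] at h
    omega
  · unfold boxE at h
    rw [mem_RE_true] at h
    omega

theorem blk_pos {c : ℤ × ℤ} {e : Edg} {k : ℕ} (h : e ∈ blk c k) : 1 ≤ k := by
  obtain ⟨x, y, _ | _⟩ := e
  · unfold blk at h
    rw [mem_RE_false] at h
    omega
  · unfold blk at h
    rw [mem_RE_true] at h
    omega

theorem nm_tri (e g : Edg) : nm e ≤ nm g + nd e g := by
  unfold nm nd
  omega

theorem nm_e0 (β : Bool) : nm (e0 β) = 0 := by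
  unfold nm e0
  simp

theorem nd_e0 (e : Edg) (β : Bool) : nd e (e0 β) = nm e := by
  unfold nm nd e0
  simp

theorem blk_sub_box {e : Edg} {ρ k : ℕ} (h : nm e + ρ ≤ k) : blk (bp e) ρ ⊆ boxE k := by
  unfold nm at h
  unfold blk bp boxE
  apply RE_subset <;> simp only <;> omega

theorem blk_sub_blk {e g : Edg} {ρ k : ℕ} (h : nd e g + ρ ≤ k) :
    blk (bp g) ρ ⊆ blk (bp e) k := by
  unfold nd at h
  unfold blk bp
  apply RE_subset <;> simp only <;> omega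

theorem box_sub_box {d k : ℕ} (h : d ≤ k) : boxE d ⊆ boxE k := by
  unfold boxE
  apply RE_subset <;> omega

theorem box_sub_Sn {ρ n : ℕ} (β : Bool) (h : ρ ≤ n) : (boxE ρ).erase (e0 β) ⊆ Sn n β := by
  unfold Sn
  exact Finset.erase_subset_erase _ (box_sub_box h)

theorem blk_sub_Sn {e : Edg} {ρ n : ℕ} (β : Bool) (h : nm e + ρ ≤ n) (h2 : 4 * ρ ≤ nm e) :
    blk (bp e) ρ ⊆ Sn n β := by
  intro x hx
  unfold Sn
  rw [Finset.mem_erase]
  refine ⟨?_, blk_sub_box h hx⟩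
  rintro rfl
  have h3 := nd_blk hx
  have h4 := blk_pos hx
  rw [nd_e0] at h3
  omega

theorem ann0_sub_Sn {d k n : ℕ} (β : Bool) (hd : 1 ≤ d) (hk : k ≤ n) :
    blk (0, 0) k \ blk (0, 0) d ⊆ Sn n β := by
  intro x hx
  rw [Finset.mem_sdiff, S4C_blk0, S4C_blk0] at hx
  unfold Sn
  rw [Finset.mem_erase]
  refine ⟨?_, box_sub_box hk hx.1⟩
  rintro rfl
  exact hx.2 (mem_boxE_of (by rw [nm_e0]; omega))

theorem anne_sub_Sn {e : Edg} {d k n : ℕ} (β : Bool) (hk : nm e + k ≤ n) (hk2 : 4 * k ≤ nm e) :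
    blk (bp e) k \ blk (bp e) d ⊆ Sn n β :=
  Finset.sdiff_subset.trans (blk_sub_Sn β hk hk2)

/-- Two small balls around distant edges are disjoint. -/
theorem disj_balls {e g : Edg} {ρ σ : ℕ} (h : 4 * ρ ≤ nd e g) (h2 : 4 * σ ≤ nd e g) :
    Disjoint (blk (bp e) ρ) (blk (bp g) σ) := by
  rw [Finset.disjoint_left]
  intro x hx hx2
  have h3 := nd_blk hx
  have h4 := nd_blk hx2
  have h5 := blk_pos hx
  have h6 : nd e g ≤ nd e x + nd g x := by unfold nd; omega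
  omega

theorem disj_box_ball {e : Edg} {β : Bool} {ρ σ : ℕ} (h : 4 * ρ ≤ nm e) (h2 : 4 * σ ≤ nm e) :
    Disjoint ((boxE ρ).erase (e0 β)) (blk (bp e) σ) := by
  rw [Finset.disjoint_left]
  intro x hx hx2
  have h3 := nm_of_mem (Finset.mem_of_mem_erase hx)
  have h4 := nd_blk hx2
  have h5 := box_pos (Finset.mem_of_mem_erase hx)
  have h6 := nm_tri e x
  omega

/-! ### The bounds -/

/-- Three distant balls. -/
theorem three_balls {q A : ℝ} (h0 : 0 ≤ q) (h1 : q ≤ 1) {n : ℕ} (hA : 1 ≤ A)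
    (h : A4le q A 0 n) {β : Bool} {e g : Edg} {ρ : ℕ} (he : 4 * ρ ≤ nm e) (hg : 4 * ρ ≤ nm g)
    (heg : 4 * ρ ≤ nd e g) (hen : nm e + ρ ≤ n) (hgn : nm g + ρ ≤ n) :
    PQ q (Sn n β) (SD (fB β) e g) ≤ A ^ 3 * psi ρ ^ 3 := by
  have ok : Ok (fun _ : Edg => q) := fun _ => ⟨h0, h1⟩
  have hρn : ρ ≤ n := by omega
  have s1 : PQ q (Sn n β) (SD (fB β) e g) ≤
      PQ q (Sn n β) (fun F => A40' β ρ F ∧ (L4' ρ e F ∧ L4' ρ g F)) := by
    apply Pr_mono ok
    intro F hF hSD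
    rcases Nat.eq_zero_or_pos ρ with h2 | h2
    · exact ⟨Or.inl h2, Or.inl h2, Or.inl h2⟩
    · have hF0 : e0 β ∉ F := fun h3 => by
        have := hF h3
        unfold Sn at this
        exact (Finset.mem_erase.mp this).1 rfl
      exact ⟨Or.inr (SD_A40 h2 (by omega) (by omega) hF0 hSD),
        Or.inr (SD_L4 h2 (by omega) (by omega) hSD),
        Or.inr (SD_L4 h2 (by omega) (by rw [nd_comm]; omega) (SD_symm hSD))⟩
  refine s1.trans ?_
  have b1 := blk_sub_Sn (e := e) (ρ := ρ) (n := n) β hen he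
  have b2 := blk_sub_Sn (e := g) (ρ := ρ) (n := n) β hgn hg
  have b3 := box_sub_Sn (ρ := ρ) (n := n) β hρn
  have p1 := pr_and_le h0 h1 b1 b2 (disj_balls heg heg) (loc_L4' ρ e) (loc_L4' ρ g)
    (pr_L4' h0 h1 hA h hρn b1) (pr_L4' h0 h1 hA h hρn b2)
  have p2 := pr_and_le h0 h1 b3 (Finset.union_subset b1 b2)
    (Finset.disjoint_union_right.mpr ⟨disj_box_ball he he, disj_box_ball hg hg⟩)
    (loc_A40' β ρ) ((loc_L4' ρ e).and (loc_L4' ρ g)) (pr_A40' h0 h1 hA h hρn b3) p1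
  refine p2.trans (le_of_eq ?_)
  ring

/-- `e` close to the origin, `g` far. -/
theorem near_zero {q A : ℝ} (h0 : 0 ≤ q) (h1 : q ≤ 1) {n : ℕ} (hA : 1 ≤ A)
    (h : A4le q A 0 n) {β : Bool} {e g : Edg} {ρ d k : ℕ} (he : 4 * ρ ≤ nm e)
    (hd1 : nm e + ρ + 1 ≤ d) (hdk : d ≤ k) (hg : 4 * k ≤ nm g) (hgn : nm g + k ≤ n)
    (hk : 1 ≤ k) :
    PQ q (Sn n β) (SD (fB β) e g) ≤ (A ^ 3 * psi ρ ^ 2 * psi k) * ann q d k := by
  have ok : Ok (fun _ : Edg => q) := fun _ => ⟨h0, h1⟩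
  have hρn : ρ ≤ n := by omega
  have hkn : k ≤ n := by omega
  have heg : k + 1 ≤ nd e g := by
    have h3 := nm_tri g e
    rw [nd_comm] at h3
    omega
  have s1 : PQ q (Sn n β) (SD (fB β) e g) ≤
      PQ q (Sn n β) (fun F => (A40' β ρ F ∧ L4' ρ e F) ∧
        (A4a (0, 0) d k (↑F : Set Edg) ∧ L4' k g F)) := by
    apply Pr_mono ok
    intro F hF hSD
    have hF0 : e0 β ∉ F := fun h3 => by
      have := hF h3
      unfold Sn at this
      exact (Finset.mem_erase.mp this).1 rfl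
    refine ⟨?_, SD_A4a0 (by omega) hdk (by omega) (by omega) hSD,
      Or.inr (SD_L4 hk (by omega) (by rw [nd_comm]; omega) (SD_symm hSD))⟩
    rcases Nat.eq_zero_or_pos ρ with h2 | h2
    · exact ⟨Or.inl h2, Or.inl h2⟩
    · exact ⟨Or.inr (SD_A40 h2 (by omega) (by omega) hF0 hSD),
        Or.inr (SD_L4 h2 (by omega) (by omega) hSD)⟩
  refine s1.trans ?_
  have b1 := box_sub_Sn (ρ := ρ) (n := n) β hρn
  have b2 := blk_sub_Sn (e := e) (ρ := ρ) (n := n) β (by omega) he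
  have b3 := ann0_sub_Sn (d := d) (k := k) (n := n) β (by omega) hkn
  have b4 := blk_sub_Sn (e := g) (ρ := k) (n := n) β hgn hg
  have hsub1 : (boxE ρ).erase (e0 β) ∪ blk (bp e) ρ ⊆ boxE d :=
    Finset.union_subset ((Finset.erase_subset _ _).trans (box_sub_box (by omega)))
      (blk_sub_box (by omega))
  have d34 : Disjoint (blk (0, 0) k \ blk (0, 0) d) (blk (bp g) k) := by
    rw [Finset.disjoint_left]
    intro x hx hx2
    rw [Finset.mem_sdiff, S4C_blk0] at hx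
    have h3 := nm_of_mem hx.1
    have h4 := nd_blk hx2
    have h6 := nm_tri g x
    omega
  have d1 : Disjoint ((boxE ρ).erase (e0 β) ∪ blk (bp e) ρ)
      ((blk (0, 0) k \ blk (0, 0) d) ∪ blk (bp g) k) := by
    rw [Finset.disjoint_left]
    intro x hx hx2
    have h3 := hsub1 hx
    rcases Finset.mem_union.mp hx2 with h4 | h4
    · rw [Finset.mem_sdiff, S4C_blk0, S4C_blk0] at h4
      exact h4.2 h3
    · have h5 := nm_of_mem h3
      have h6 := nd_blk h4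
      have h7 := nm_tri g x
      omega
  have p12 := pr_and_le h0 h1 b1 b2 (disj_box_ball he he) (loc_A40' β ρ) (loc_L4' ρ e)
    (pr_A40' h0 h1 hA h hρn b1) (pr_L4' h0 h1 hA h hρn b2)
  have p34 := pr_and_le h0 h1 b3 b4 d34 (loc_A4a (0, 0) d k) (loc_L4' k g)
    (pr_A4a h0 h1 b3) (pr_L4' h0 h1 hA h hkn b4)
  have p := pr_and_le h0 h1 (Finset.union_subset b1 b2) (Finset.union_subset b3 b4) d1
    ((loc_A40' β ρ).and (loc_L4' ρ e)) ((loc_A4a (0, 0) d k).and (loc_L4' k g)) p12 p34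
  refine p.trans (le_of_eq ?_)
  ring

/-- `e` and `g` close to each other, far from the origin. -/
theorem near_pair {q A : ℝ} (h0 : 0 ≤ q) (h1 : q ≤ 1) {n : ℕ} (hA : 1 ≤ A)
    (h : A4le q A 0 n) {β : Bool} {e g : Edg} {ρ d k : ℕ} (he : 4 * ρ ≤ nd e g)
    (hd1 : nd e g + ρ + 1 ≤ d) (hdk : d ≤ k) (hg : 4 * k ≤ nm e) (hgn : nm e + k ≤ n)
    (hk : 1 ≤ k) :
    PQ q (Sn n β) (SD (fB β) e g) ≤ (A ^ 3 * psi ρ ^ 2 * psi k) * ann q d k := by
  have ok : Ok (fun _ : Edg => q) := fun _ => ⟨h0, h1⟩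
  have hρn : ρ ≤ n := by omega
  have hkn : k ≤ n := by omega
  have hgr : nm e ≤ nm g + nd e g := nm_tri e g
  have hgr2 : nm g ≤ nm e + nd e g := by
    have h3 := nm_tri g e
    rw [nd_comm] at h3
    exact h3
  have s1 : PQ q (Sn n β) (SD (fB β) e g) ≤
      PQ q (Sn n β) (fun F => (L4' ρ e F ∧ L4' ρ g F) ∧
        (A4a (bp e) d k (↑F : Set Edg) ∧ A40' β k F)) := by
    apply Pr_mono ok
    intro F hF hSD
    have hF0 : e0 β ∉ F := fun h3 => by
      have := hF h3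
      unfold Sn at this
      exact (Finset.mem_erase.mp this).1 rfl
    refine ⟨?_, SD_A4ae hdk (by omega) (by omega) hSD,
      Or.inr (SD_A40 hk (by omega) (by omega) hF0 hSD)⟩
    rcases Nat.eq_zero_or_pos ρ with h2 | h2
    · exact ⟨Or.inl h2, Or.inl h2⟩
    · exact ⟨Or.inr (SD_L4 h2 (by omega) (by omega) hSD),
        Or.inr (SD_L4 h2 (by omega) (by rw [nd_comm]; omega) (SD_symm hSD))⟩
  refine s1.trans ?_
  have b1 := blk_sub_Sn (e := e) (ρ := ρ) (n := n) β (by omega) (by omega)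
  have hsub : blk (bp e) k ⊆ Sn n β := blk_sub_Sn β hgn hg
  have b2 : blk (bp g) ρ ⊆ Sn n β := (blk_sub_blk (e := e) (g := g) (k := k) (by omega)).trans hsub
  have b3 : blk (bp e) k \ blk (bp e) d ⊆ Sn n β := Finset.sdiff_subset.trans hsub
  have b4 := box_sub_Sn (ρ := k) (n := n) β hkn
  have hsub1 : blk (bp e) ρ ∪ blk (bp g) ρ ⊆ blk (bp e) d :=
    Finset.union_subset (blk_mono (by omega)) (blk_sub_blk (by omega))
  have d34 : Disjoint (blk (bp e) k \ blk (bp e) d) ((boxE k).erase (e0 β)) :=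
    (Disjoint.symm (disj_box_ball hg hg)).mono_left Finset.sdiff_subset
  have d1 : Disjoint (blk (bp e) ρ ∪ blk (bp g) ρ)
      ((blk (bp e) k \ blk (bp e) d) ∪ (boxE k).erase (e0 β)) := by
    rw [Finset.disjoint_left]
    intro x hx hx2
    have h3 := hsub1 hx
    rcases Finset.mem_union.mp hx2 with h4 | h4
    · rw [Finset.mem_sdiff] at h4
      exact h4.2 h3
    · have h5 := nm_of_mem (Finset.mem_of_mem_erase h4)
      have h6 := nd_blk h3
      have h7 := nm_tri e x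
      omega
  have p12 := pr_and_le h0 h1 b1 b2 (disj_balls he he) (loc_L4' ρ e) (loc_L4' ρ g)
    (pr_L4' h0 h1 hA h hρn b1) (pr_L4' h0 h1 hA h hρn b2)
  have p34 := pr_and_le h0 h1 b3 b4 d34 (loc_A4a (bp e) d k) (loc_A40' β k)
    (pr_A4a h0 h1 b3) (pr_A40' h0 h1 hA h hkn b4)
  have p := pr_and_le h0 h1 (Finset.union_subset b1 b2) (Finset.union_subset b3 b4) d1
    ((loc_L4' ρ e).and (loc_L4' ρ g)) ((loc_A4a (bp e) d k).and (loc_A40' β k)) p12 p34
  refine p.trans (le_of_eq ?_)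
  ring

end Run7.h976
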