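import Pool.Agent.Run7.h976.TR2

/-!
Bond percolation on `ℤ²`: near-critical pointwise bound for the second differences.
-/

set_option autoImplicit false

namespace Run7.h976

open H974 H12S H973N H389NS H389NS.E1b Finset

theorem psi_quarter (a : ℕ) : psi (a / 4) ≤ 8 * ((a:ℝ) + 1) ^ (-(5/4) : ℝ) := by
  have h1 : ((a:ℝ) + 1) / 4 ≤ ((a / 4 : ℕ) : ℝ) + 1 := by
    have h2 : a + 1 ≤ 4 * (a / 4 + 1) := by omega
    have h3 : (a:ℝ) + 1 ≤ 4 * (((a / 4 : ℕ) : ℝ) + 1) := by exact_mod_cast h2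
    linarith
  have h4 : (0:ℝ) < ((a:ℝ) + 1) / 4 := by positivity
  have h0 : (0:ℝ) < (a:ℝ) + 1 := by positivity
  calc psi (a / 4) ≤ (((a:ℝ) + 1) / 4) ^ (-(5/4) : ℝ) :=
        Real.rpow_le_rpow_of_nonpos h4 h1 (by norm_num)
    _ = (4:ℝ) ^ (5/4 : ℝ) * ((a:ℝ) + 1) ^ (-(5/4) : ℝ) := by
        rw [Real.div_rpow h0.le (by norm_num), Real.rpow_neg (by norm_num : (0:ℝ) ≤ 4),
          div_inv_eq_mul, mul_comm]
    _ ≤ 8 * ((a:ℝ) + 1) ^ (-(5/4) : ℝ) := by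
        apply mul_le_mul_of_nonneg_right _ (by positivity)
        calc (4:ℝ) ^ (5/4 : ℝ) ≤ (4:ℝ) ^ (3/2 : ℝ) :=
              Real.rpow_le_rpow_of_exponent_le (by norm_num) (by norm_num)
          _ = 8 := by
              rw [show (4:ℝ) = 2 ^ (2:ℝ) by norm_num, ← Real.rpow_mul (by norm_num)]
              norm_num

theorem rp_split {x y : ℝ} (hx : 0 < x) (hxy : x ≤ y) :
    x ^ (-(5/4) : ℝ) * x ^ (-(5/4) : ℝ) * (x / y) * y ^ (-(5/4) : ℝ) ≤
      x ^ (-(15/8) : ℝ) * y ^ (-(15/8) : ℝ) := by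
  have hy : 0 < y := hx.trans_le hxy
  have e1 : x ^ (-(5/4) : ℝ) * x ^ (-(5/4) : ℝ) * x = x ^ (-(15/8) : ℝ) * x ^ (3/8 : ℝ) := by
    rw [← Real.rpow_add hx, ← Real.rpow_add_one hx.ne', ← Real.rpow_add hx]
    norm_num
  have e2 : y ^ (-(5/4) : ℝ) / y = y ^ (-(15/8) : ℝ) * y ^ (-(3/8) : ℝ) := by
    rw [← Real.rpow_sub_one hy.ne', ← Real.rpow_add hy]
    norm_num
  have e3 : x ^ (-(5/4) : ℝ) * x ^ (-(5/4) : ℝ) * (x / y) * y ^ (-(5/4) : ℝ) =
      (x ^ (-(5/4) : ℝ) * x ^ (-(5/4) : ℝ) * x) * (y ^ (-(5/4) : ℝ) / y) := by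
    field_simp
  rw [e3, e1, e2]
  have h1 : x ^ (3/8 : ℝ) * y ^ (-(3/8) : ℝ) ≤ 1 := by
    rw [Real.rpow_neg hy.le, ← div_eq_mul_inv, div_le_one (by positivity)]
    exact Real.rpow_le_rpow hx.le hxy (by norm_num)
  have h2 : 0 ≤ x ^ (-(15/8) : ℝ) * y ^ (-(15/8) : ℝ) := by positivity
  calc x ^ (-(15/8) : ℝ) * x ^ (3/8 : ℝ) * (y ^ (-(15/8) : ℝ) * y ^ (-(3/8) : ℝ)) =
      (x ^ (-(15/8) : ℝ) * y ^ (-(15/8) : ℝ)) * (x ^ (3/8 : ℝ) * y ^ (-(3/8) : ℝ)) := by ring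
    _ ≤ (x ^ (-(15/8) : ℝ) * y ^ (-(15/8) : ℝ)) * 1 := mul_le_mul_of_nonneg_left h1 h2
    _ = _ := mul_one _

/-- numerical bound when one distance is much smaller than the other -/
theorem num_far {a b : ℕ} (h : 64 * (a + 1) ≤ b) :
    psi (a / 4) ^ 2 * psi (b / 4) * (((2 * a + 2 : ℕ) : ℝ) / ((b / 4 : ℕ) : ℝ)) ≤
      8192 * (phi a * phi b) := by
  obtain ⟨x, hx⟩ : ∃ x : ℝ, x = (a:ℝ) + 1 := ⟨_, rfl⟩
  obtain ⟨y, hy⟩ : ∃ y : ℝ, y = (b:ℝ) + 1 := ⟨_, rfl⟩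
  have hx0 : 0 < x := by rw [hx]; positivity
  have hy0 : 0 < y := by rw [hy]; positivity
  have hxy : x ≤ y := by
    rw [hx, hy]
    have : a ≤ b := by omega
    have : (a:ℝ) ≤ b := by exact_mod_cast this
    linarith
  have h1 := psi_quarter a
  have h2 := psi_quarter b
  rw [← hx] at h1
  rw [← hy] at h2
  have p1 : 0 ≤ psi (a / 4) := (psi_pos _).le
  have p2 : 0 ≤ psi (b / 4) := (psi_pos _).le
  have hb4 : (0:ℝ) < ((b / 4 : ℕ) : ℝ) := by
    have : 0 < b / 4 := by omega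
    exact_mod_cast this
  have h3 : ((2 * a + 2 : ℕ) : ℝ) / ((b / 4 : ℕ) : ℝ) ≤ 16 * (x / y) := by
    rw [div_le_iff₀ hb4]
    have h4 : y / 8 ≤ ((b / 4 : ℕ) : ℝ) := by
      have h5 : b + 1 ≤ 8 * (b / 4) := by omega
      have h6 : (b:ℝ) + 1 ≤ 8 * ((b / 4 : ℕ) : ℝ) := by exact_mod_cast h5
      rw [hy]
      linarith
    have h7 : 16 * (x / y) * (y / 8) = 2 * x := by
      field_simp
      norm_num
    calc ((2 * a + 2 : ℕ) : ℝ) = 2 * x := by rw [hx]; push_cast; ring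
      _ = 16 * (x / y) * (y / 8) := h7.symm
      _ ≤ 16 * (x / y) * ((b / 4 : ℕ) : ℝ) := mul_le_mul_of_nonneg_left h4 (by positivity)
  have h4 : psi (a / 4) ^ 2 ≤ 64 * (x ^ (-(5/4) : ℝ) * x ^ (-(5/4) : ℝ)) := by
    calc psi (a / 4) ^ 2 ≤ (8 * x ^ (-(5/4) : ℝ)) ^ 2 := pow_le_pow_left₀ p1 h1 2
      _ = _ := by ring
  calc psi (a / 4) ^ 2 * psi (b / 4) * (((2 * a + 2 : ℕ) : ℝ) / ((b / 4 : ℕ) : ℝ))
      ≤ (64 * (x ^ (-(5/4) : ℝ) * x ^ (-(5/4) : ℝ))) * (8 * y ^ (-(5/4) : ℝ)) *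
        (16 * (x / y)) := by gcongr
    _ = 8192 * (x ^ (-(5/4) : ℝ) * x ^ (-(5/4) : ℝ) * (x / y) * y ^ (-(5/4) : ℝ)) := by ring
    _ ≤ 8192 * (x ^ (-(15/8) : ℝ) * y ^ (-(15/8) : ℝ)) :=
        mul_le_mul_of_nonneg_left (rp_split hx0 hxy) (by norm_num)
    _ = 8192 * (phi a * phi b) := by unfold phi; rw [hx, hy]

/-- numerical bound when the distances are comparable -/
theorem num_near {a b : ℕ} (h : b < 64 * (a + 1)) :
    psi (a / 4) ^ 3 ≤ 2097152 * (phi a * phi b) := by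
  obtain ⟨x, hx⟩ : ∃ x : ℝ, x = (a:ℝ) + 1 := ⟨_, rfl⟩
  obtain ⟨y, hy⟩ : ∃ y : ℝ, y = (b:ℝ) + 1 := ⟨_, rfl⟩
  have hx0 : 0 < x := by rw [hx]; positivity
  have hy0 : 0 < y := by rw [hy]; positivity
  have hxy : y / 64 ≤ x := by
    rw [hx, hy]
    have : b + 1 ≤ 64 * (a + 1) := by omega
    have : (b:ℝ) + 1 ≤ 64 * ((a:ℝ) + 1) := by exact_mod_cast this
    linarith
  have h1 := psi_quarter a
  rw [← hx] at h1
  have p1 : 0 ≤ psi (a / 4) := (psi_pos _).le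
  have h2 : psi (a / 4) ^ 3 ≤ 512 * (x ^ (-(15/8) : ℝ) * x ^ (-(15/8) : ℝ)) := by
    calc psi (a / 4) ^ 3 ≤ (8 * x ^ (-(5/4) : ℝ)) ^ 3 := pow_le_pow_left₀ p1 h1 3
      _ = 512 * (x ^ (-(5/4) : ℝ) * x ^ (-(5/4) : ℝ) * x ^ (-(5/4) : ℝ)) := by ring
      _ = _ := by
          rw [← Real.rpow_add hx0, ← Real.rpow_add hx0, ← Real.rpow_add hx0]
          norm_num
  have h3 : x ^ (-(15/8) : ℝ) ≤ 4096 * y ^ (-(15/8) : ℝ) := by
    calc x ^ (-(15/8) : ℝ) ≤ (y / 64) ^ (-(15/8) : ℝ) :=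
          Real.rpow_le_rpow_of_nonpos (by positivity) hxy (by norm_num)
      _ = (64:ℝ) ^ (15/8 : ℝ) * y ^ (-(15/8) : ℝ) := by
          rw [Real.div_rpow hy0.le (by norm_num), Real.rpow_neg (by norm_num : (0:ℝ) ≤ 64),
            div_inv_eq_mul, mul_comm]
      _ ≤ 4096 * y ^ (-(15/8) : ℝ) := by
          apply mul_le_mul_of_nonneg_right _ (by positivity)
          calc (64:ℝ) ^ (15/8 : ℝ) ≤ (64:ℝ) ^ (2 : ℝ) :=
                Real.rpow_le_rpow_of_exponent_le (by norm_num) (by norm_num)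
            _ = 4096 := by norm_num
  have hx8 : 0 ≤ x ^ (-(15/8) : ℝ) := by positivity
  calc psi (a / 4) ^ 3 ≤ 512 * (x ^ (-(15/8) : ℝ) * x ^ (-(15/8) : ℝ)) := h2
    _ ≤ 512 * (x ^ (-(15/8) : ℝ) * (4096 * y ^ (-(15/8) : ℝ))) := by gcongr
    _ = 2097152 * (phi a * phi b) := by unfold phi; rw [hx, hy]; ring

/-- **Second differences, near-critical pointwise bound.** -/
theorem SD_bound {κ A : ℝ} (hκ : 0 < κ) (hA : 1 ≤ A) : ∃ C : ℝ, 0 < C ∧ ∀ (q : ℝ) (n : ℕ),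
    Win q κ n → A4le q A 0 n → ∀ (β : Bool) (e g : Edg), 4 * nm e ≤ 3 * n → 4 * nm g ≤ 3 * n →
    PQ q (Sn n β) (SD (fB β) e g) ≤
      C * (phi (nm e) * phi (nm g)) + C * (phi (nd e g) * phi (nm e)) := by
  obtain ⟨C1, hC1, hann⟩ := ann_weak hκ
  have hA0 : 0 < A := by linarith
  obtain ⟨C, hC⟩ : ∃ C : ℝ, C = A ^ 3 * (8192 * C1) + A ^ 3 * 2097152 := ⟨_, rfl⟩
  have hCp : 0 < C := by rw [hC]; positivity
  have hCa : A ^ 3 * (8192 * C1) ≤ C := by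
    rw [hC]
    have : 0 < A ^ 3 * 2097152 := by positivity
    linarith
  have hCb : A ^ 3 * 2097152 ≤ C := by
    rw [hC]
    have : 0 < A ^ 3 * (8192 * C1) := by positivity
    linarith
  refine ⟨C, hCp, ?_⟩
  intro q n hW hA4 β
  have h0 : 0 ≤ q := by linarith [hW.lo]
  have h1 : q ≤ 1 := by linarith [hW.hi]
  -- the bound from the product of four factors
  have far_num : ∀ a b : ℕ, 64 * (a + 1) ≤ b → b ≤ n →
      (A ^ 3 * psi (a / 4) ^ 2 * psi (b / 4)) * ann q (2 * a + 2) (b / 4) ≤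
        C * (phi a * phi b) := by
    intro a b hab hbn
    have h2 := hann q n hW (2 * a + 2) (b / 4) (by omega) (by omega) (by omega)
    have hp1 := (psi_pos (a / 4)).le
    have hp2 := (psi_pos (b / 4)).le
    have hφ : 0 ≤ phi a * phi b := mul_nonneg (phi_pos a).le (phi_pos b).le
    calc (A ^ 3 * psi (a / 4) ^ 2 * psi (b / 4)) * ann q (2 * a + 2) (b / 4)
        ≤ (A ^ 3 * psi (a / 4) ^ 2 * psi (b / 4)) *
          (C1 * (((2 * a + 2 : ℕ) : ℝ) / ((b / 4 : ℕ) : ℝ))) :=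
          mul_le_mul_of_nonneg_left h2 (by positivity)
      _ = A ^ 3 * C1 * (psi (a / 4) ^ 2 * psi (b / 4) *
          (((2 * a + 2 : ℕ) : ℝ) / ((b / 4 : ℕ) : ℝ))) := by ring
      _ ≤ A ^ 3 * C1 * (8192 * (phi a * phi b)) :=
          mul_le_mul_of_nonneg_left (num_far hab) (by positivity)
      _ = A ^ 3 * (8192 * C1) * (phi a * phi b) := by ring
      _ ≤ C * (phi a * phi b) := mul_le_mul_of_nonneg_right hCa hφ
  have near_num : ∀ a b : ℕ, b < 64 * (a + 1) →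
      A ^ 3 * psi (a / 4) ^ 3 ≤ C * (phi a * phi b) := by
    intro a b hab
    have hφ : 0 ≤ phi a * phi b := mul_nonneg (phi_pos a).le (phi_pos b).le
    calc A ^ 3 * psi (a / 4) ^ 3 ≤ A ^ 3 * (2097152 * (phi a * phi b)) :=
          mul_le_mul_of_nonneg_left (num_near hab) (by positivity)
      _ = A ^ 3 * 2097152 * (phi a * phi b) := by ring
      _ ≤ _ := mul_le_mul_of_nonneg_right hCb hφ
  -- the case where `e` is the closest
  have key : ∀ e g : Edg, 4 * nm e ≤ 3 * n → 4 * nm g ≤ 3 * n → nm e ≤ nm g → nm e ≤ nd e g →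
      PQ q (Sn n β) (SD (fB β) e g) ≤ C * (phi (nm e) * phi (nm g)) := by
    intro e g hen hgn h2 h3
    rcases lt_or_ge (nm g) (64 * (nm e + 1)) with h4 | h4
    · refine (three_balls h0 h1 hA hA4 (β := β) (ρ := nm e / 4) (by omega) (by omega) (by omega)
        (by omega) (by omega)).trans (near_num _ _ h4)
    · refine (near_zero h0 h1 hA hA4 (β := β) (ρ := nm e / 4) (d := 2 * nm e + 2)
        (k := nm g / 4) (by omega) (by omega) (by omega) (by omega) (by omega) (by omega)).trans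
        (far_num _ _ h4 (by omega))
  intro e g hen hgn
  have hp1 : 0 ≤ C * (phi (nm e) * phi (nm g)) :=
    mul_nonneg hCp.le (mul_nonneg (phi_pos _).le (phi_pos _).le)
  have hp2 : 0 ≤ C * (phi (nd e g) * phi (nm e)) :=
    mul_nonneg hCp.le (mul_nonneg (phi_pos _).le (phi_pos _).le)
  by_cases c1 : nm e ≤ nm g ∧ nm e ≤ nd e g
  · have := key e g hen hgn c1.1 c1.2
    linarith
  · by_cases c2 : nm g ≤ nm e ∧ nm g ≤ nd e g
    · have h5 := key g e hgn hen c2.1 (by rw [nd_comm]; exact c2.2)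
      have h6 : PQ q (Sn n β) (SD (fB β) e g) ≤ PQ q (Sn n β) (SD (fB β) g e) :=
        Pr_mono (fun _ => ⟨h0, h1⟩) (fun F _ h => SD_symm h)
      have e1 : phi (nm g) * phi (nm e) = phi (nm e) * phi (nm g) := mul_comm _ _
      rw [e1] at h5
      linarith
    · -- the pair is the closest
      have h6 : nd e g ≤ nm e ∧ nd e g ≤ nm g := by
        constructor <;> omega
      rcases lt_or_ge (nm e) (64 * (nd e g + 1)) with h4 | h4
      · have h7 := (three_balls h0 h1 hA hA4 (β := β) (e := e) (g := g) (ρ := nd e g / 4)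
          (by omega) (by omega) (by omega) (by omega) (by omega)).trans (near_num _ _ h4)
        linarith
      · have h7 := (near_pair h0 h1 hA hA4 (β := β) (e := e) (g := g) (ρ := nd e g / 4)
          (d := 2 * nd e g + 2) (k := nm e / 4) (by omega) (by omega) (by omega) (by omega)
          (by omega) (by omega)).trans (far_num _ _ h4 (by omega))
        linarith

end Run7.h976
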