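import Pool.Agent.Run7.h976.TR3

/-!
Bond percolation on `ℤ²`: sums over edges.
-/

set_option autoImplicit false

namespace Run7.h976

open H974 H12S H973N H389NS H389NS.E1b Finset

theorem pow_sum {s : ℝ} (h0 : 0 < s) (h1 : s ≤ 1) (M : ℕ) :
    ∑ j ∈ Finset.range M, ((j:ℝ) + 1) ^ (s - 1) ≤ (M:ℝ) ^ s / s := by
  induction M with
  | zero =>
    rw [Finset.sum_range_zero]
    positivity
  | succ M ih =>
    rw [Finset.sum_range_succ]
    have hx : (0:ℝ) < (M:ℝ) + 1 := by positivity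
    have h2 : (M:ℝ) ^ s ≤ ((M:ℝ) + 1) ^ s - s * ((M:ℝ) + 1) ^ (s - 1) := by
      have h3 : (M:ℝ) = ((M:ℝ) + 1) * (1 + (-(1 / ((M:ℝ) + 1)))) := by
        field_simp
        ring
      have h4 : -1 ≤ -(1 / ((M:ℝ) + 1)) := by
        rw [neg_le_neg_iff, div_le_one hx]
        have : (0:ℝ) ≤ M := Nat.cast_nonneg M
        linarith
      have h5 := _root_.rpow_one_add_le_one_add_mul_self h4 h0.le h1
      have h6 : (0:ℝ) ≤ 1 + (-(1 / ((M:ℝ) + 1))) := by linarith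
      calc (M:ℝ) ^ s = (((M:ℝ) + 1) * (1 + (-(1 / ((M:ℝ) + 1))))) ^ s := by rw [← h3]
        _ = ((M:ℝ) + 1) ^ s * (1 + (-(1 / ((M:ℝ) + 1)))) ^ s := Real.mul_rpow hx.le h6
        _ ≤ ((M:ℝ) + 1) ^ s * (1 + s * (-(1 / ((M:ℝ) + 1)))) :=
            mul_le_mul_of_nonneg_left h5 (by positivity)
        _ = ((M:ℝ) + 1) ^ s - s * ((M:ℝ) + 1) ^ (s - 1) := by
            rw [Real.rpow_sub_one hx.ne']
            ring
    push_cast
    have h7 : (M:ℝ) ^ s / s + ((M:ℝ) + 1) ^ (s - 1) ≤ ((M:ℝ) + 1) ^ s / s := by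
      rw [div_add' _ _ _ h0.ne', div_le_div_iff_of_pos_right h0]
      linarith
    linarith

theorem shell_card (e : Edg) (G : Finset Edg) (j : ℕ) :
    (G.filter (fun g => nd e g = j)).card ≤ 16 * (j + 1) := by
  have hsub : G.filter (fun g => nd e g = j) ⊆
      ((({e.1 - j, e.1 + j} : Finset ℤ) ×ˢ
        (Finset.Icc (e.2.1 - j) (e.2.1 + j) ×ˢ (Finset.univ : Finset Bool))) ∪
      (Finset.Icc (e.1 - j) (e.1 + j) ×ˢ
        (({e.2.1 - j, e.2.1 + j} : Finset ℤ) ×ˢ (Finset.univ : Finset Bool)))) := by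
    intro g hg
    rw [Finset.mem_filter] at hg
    have h := hg.2
    unfold nd at h
    simp only [Finset.mem_union, Finset.mem_product, Finset.mem_insert, Finset.mem_singleton,
      Finset.mem_Icc, Finset.mem_univ, and_true]
    omega
  refine (Finset.card_le_card hsub).trans ((Finset.card_union_le _ _).trans ?_)
  rw [Finset.card_product, Finset.card_product, Finset.card_product, Finset.card_product,
    Int.card_Icc, Int.card_Icc, Finset.card_univ, Fintype.card_bool]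
  have e1 : (e.2.1 + (j:ℤ) + 1 - (e.2.1 - j)).toNat = 2 * j + 1 := by omega
  have e2 : (e.1 + (j:ℤ) + 1 - (e.1 - j)).toNat = 2 * j + 1 := by omega
  rw [e1, e2]
  have c1 : ({e.1 - (j:ℤ), e.1 + j} : Finset ℤ).card ≤ 2 := Finset.card_le_two
  have c2 : ({e.2.1 - (j:ℤ), e.2.1 + j} : Finset ℤ).card ≤ 2 := Finset.card_le_two
  have d1 : ({e.1 - (j:ℤ), e.1 + j} : Finset ℤ).card * ((2 * j + 1) * 2) ≤ 2 * ((2 * j + 1) * 2) :=
    Nat.mul_le_mul_right _ c1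
  have d2 : (2 * j + 1) * (({e.2.1 - (j:ℤ), e.2.1 + j} : Finset ℤ).card * 2) ≤
      (2 * j + 1) * (2 * 2) := Nat.mul_le_mul_left _ (Nat.mul_le_mul_right _ c2)
  omega

theorem shell_sum (e : Edg) (G : Finset Edg) (R : ℕ) (hG : ∀ g ∈ G, nd e g ≤ R) (w : ℕ → ℝ)
    (hw : ∀ j, 0 ≤ w j) :
    ∑ g ∈ G, w (nd e g) ≤ ∑ j ∈ Finset.range (R + 1), 16 * (((j:ℝ) + 1) * w j) := by
  have hmaps : ∀ g ∈ G, nd e g ∈ Finset.range (R + 1) := fun g hg => by
    rw [Finset.mem_range]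
    have := hG g hg
    omega
  rw [← Finset.sum_fiberwise_of_maps_to hmaps]
  apply Finset.sum_le_sum
  intro j _
  have h1 : ∑ g ∈ G with nd e g = j, w (nd e g) =
      ((G.filter (fun g => nd e g = j)).card : ℝ) * w j := by
    rw [← nsmul_eq_mul, ← Finset.sum_const]
    apply Finset.sum_congr rfl
    intro g hg
    rw [(Finset.mem_filter.mp hg).2]
  rw [h1]
  have h2 : ((G.filter (fun g => nd e g = j)).card : ℝ) ≤ 16 * ((j:ℝ) + 1) := by
    exact_mod_cast shell_card e G j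
  calc ((G.filter (fun g => nd e g = j)).card : ℝ) * w j ≤ (16 * ((j:ℝ) + 1)) * w j :=
        mul_le_mul_of_nonneg_right h2 (hw j)
    _ = _ := by ring

theorem sum_phi (e : Edg) (G : Finset Edg) (R : ℕ) (hG : ∀ g ∈ G, nd e g ≤ R) :
    ∑ g ∈ G, phi (nd e g) ≤ 128 * ((R:ℝ) + 1) ^ (1/8 : ℝ) := by
  refine (shell_sum e G R hG phi (fun j => (phi_pos j).le)).trans ?_
  have h1 : ∀ j ∈ Finset.range (R + 1), 16 * (((j:ℝ) + 1) * phi j) =
      16 * ((j:ℝ) + 1) ^ ((1/8 : ℝ) - 1) := by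
    intro j _
    have hj : (0:ℝ) < (j:ℝ) + 1 := by positivity
    unfold phi
    rw [mul_comm ((j:ℝ) + 1), ← Real.rpow_add_one hj.ne']
    norm_num
  rw [Finset.sum_congr rfl h1, ← Finset.mul_sum]
  have h2 := pow_sum (s := 1/8) (by norm_num) (by norm_num) (R + 1)
  push_cast at h2
  linarith

/-- `(j + 1)^(-3/2)` -/
theorem sum_32 (e : Edg) (G : Finset Edg) (R : ℕ) (hG : ∀ g ∈ G, nd e g ≤ R) :
    ∑ g ∈ G, (((nd e g : ℕ) : ℝ) + 1) ^ (-(3/2) : ℝ) ≤ 32 * ((R:ℝ) + 1) ^ (1/2 : ℝ) := by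
  refine (shell_sum e G R hG (fun j => ((j:ℝ) + 1) ^ (-(3/2) : ℝ))
    (fun j => by positivity)).trans ?_
  have h1 : ∀ j ∈ Finset.range (R + 1), 16 * (((j:ℝ) + 1) * ((j:ℝ) + 1) ^ (-(3/2) : ℝ)) =
      16 * ((j:ℝ) + 1) ^ ((1/2 : ℝ) - 1) := by
    intro j _
    have hj : (0:ℝ) < (j:ℝ) + 1 := by positivity
    rw [mul_comm ((j:ℝ) + 1), ← Real.rpow_add_one hj.ne']
    norm_num
  rw [Finset.sum_congr rfl h1, ← Finset.mul_sum]
  have h2 := pow_sum (s := 1/2) (by norm_num) (by norm_num) (R + 1)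
  push_cast at h2
  linarith

theorem nd_le (e g : Edg) : nd e g ≤ nm e + nm g := by
  unfold nd nm
  omega

/-- **Second differences: sum over the bulk.** -/
theorem bulk_sum {κ A : ℝ} (hκ : 0 < κ) (hA : 1 ≤ A) : ∃ C : ℝ, 0 < C ∧ ∀ (q : ℝ) (n : ℕ),
    1 ≤ n → Win q κ n → A4le q A 0 n → ∀ (β : Bool) (E G : Finset Edg),
    (∀ e ∈ E, 4 * nm e ≤ 3 * n) → (∀ g ∈ G, 4 * nm g ≤ 3 * n) →
    ∑ e ∈ E, ∑ g ∈ G, PQ q (Sn n β) (SD (fB β) e g) ≤ C * (n:ℝ) ^ (1/4 : ℝ) := by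
  obtain ⟨C, hC, hb⟩ := SD_bound hκ hA
  refine ⟨C * 131072, by positivity, ?_⟩
  intro q n hn hW hA4 β E G hE hG
  have hn1 : (1:ℝ) ≤ n := by exact_mod_cast hn
  have hn0 : (0:ℝ) < n := by linarith
  obtain ⟨X, hX⟩ : ∃ X : ℝ, X = 256 * (n:ℝ) ^ (1/8 : ℝ) := ⟨_, rfl⟩
  have hX0 : 0 ≤ X := by rw [hX]; positivity
  have hbase : ∀ R : ℕ, R ≤ 2 * n → 128 * ((R:ℝ) + 1) ^ (1/8 : ℝ) ≤ X := by
    intro R hR
    have hRr : (R:ℝ) ≤ 2 * n := by exact_mod_cast hR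
    have h2 : ((R:ℝ) + 1) ^ (1/8 : ℝ) ≤ (256 * (n:ℝ)) ^ (1/8 : ℝ) :=
      Real.rpow_le_rpow (by positivity) (by linarith) (by norm_num)
    have h3 : (256 * (n:ℝ)) ^ (1/8 : ℝ) = 2 * (n:ℝ) ^ (1/8 : ℝ) := by
      rw [Real.mul_rpow (by norm_num) hn0.le, show (256:ℝ) = 2 ^ (8:ℝ) by norm_num,
        ← Real.rpow_mul (by norm_num)]
      norm_num
    rw [h3] at h2
    rw [hX]
    linarith
  have hsum0 : ∀ H : Finset Edg, (∀ g ∈ H, 4 * nm g ≤ 3 * n) → ∑ g ∈ H, phi (nm g) ≤ X := by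
    intro H hH
    have h1 : ∑ g ∈ H, phi (nm g) = ∑ g ∈ H, phi (nd (e0 β) g) := by
      apply Finset.sum_congr rfl
      intro g _
      rw [nd_comm, nd_e0]
    rw [h1]
    refine (sum_phi (e0 β) H n ?_).trans (hbase n (by omega))
    intro g hg
    have := hH g hg
    rw [nd_comm, nd_e0]
    omega
  have hsum1 : ∀ e ∈ E, ∑ g ∈ G, phi (nd e g) ≤ X := by
    intro e he
    refine (sum_phi e G (2 * n) ?_).trans (hbase (2 * n) le_rfl)
    intro g hg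
    have h2 := hG g hg
    have h3 := hE e he
    have h4 := nd_le e g
    omega
  have h1 : ∑ e ∈ E, ∑ g ∈ G, PQ q (Sn n β) (SD (fB β) e g) ≤
      ∑ e ∈ E, phi (nm e) * (C * (∑ g ∈ G, phi (nm g)) + C * (∑ g ∈ G, phi (nd e g))) := by
    apply Finset.sum_le_sum
    intro e he
    rw [Finset.mul_sum, Finset.mul_sum, ← Finset.sum_add_distrib, Finset.mul_sum]
    apply Finset.sum_le_sum
    intro g hg
    refine (hb q n hW hA4 β e g (hE e he) (hG g hg)).trans (le_of_eq ?_)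
    ring
  have h2 : ∑ e ∈ E, phi (nm e) * (C * (∑ g ∈ G, phi (nm g)) + C * (∑ g ∈ G, phi (nd e g))) ≤
      ∑ e ∈ E, phi (nm e) * (2 * C * X) := by
    apply Finset.sum_le_sum
    intro e he
    apply mul_le_mul_of_nonneg_left _ (phi_pos _).le
    have g1 := mul_le_mul_of_nonneg_left (hsum0 G hG) hC.le
    have g2 := mul_le_mul_of_nonneg_left (hsum1 e he) hC.le
    linarith
  have h3 : ∑ e ∈ E, phi (nm e) * (2 * C * X) ≤ X * (2 * C * X) := by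
    rw [← Finset.sum_mul]
    exact mul_le_mul_of_nonneg_right (hsum0 E hE) (by positivity)
  refine (h1.trans (h2.trans h3)).trans (le_of_eq ?_)
  have h4 : (n:ℝ) ^ (1/8 : ℝ) * (n:ℝ) ^ (1/8 : ℝ) = (n:ℝ) ^ (1/4 : ℝ) := by
    rw [← Real.rpow_add hn0]
    norm_num
  rw [hX, ← h4]
  ring

end Run7.h976
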