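import Pool.Agent.Run7.h976.TR4
import Pool.Agent.W424.NC.NearA

/-!
Bond percolation on `ℤ²`: conditional bounds for the total influence outside a box.
-/

set_option autoImplicit false

namespace Run7.h976

open H974 H12S H973N H389NS H389NS.E1b Finset

/-- the edges of the box of radius `n` which are not in the box of radius `m` -/
noncomputable def Vo (m n : ℕ) : Finset Edg := boxE n \ boxE m

theorem Sn_eq {m n : ℕ} (β : Bool) (hm : 1 ≤ m) (hmn : m ≤ n) :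
    Sn n β = (boxE m).erase (e0 β) ∪ Vo m n := by
  have h0 : e0 β ∈ boxE m := mem_boxE_of (by rw [nm_e0]; omega)
  ext x
  unfold Sn Vo
  simp only [Finset.mem_erase, Finset.mem_union, Finset.mem_sdiff]
  constructor
  · rintro ⟨h1, h2⟩
    by_cases h3 : x ∈ boxE m
    · exact Or.inl ⟨h1, h3⟩
    · exact Or.inr ⟨h2, h3⟩
  · rintro (⟨h1, h2⟩ | ⟨h1, h2⟩)
    · exact ⟨h1, box_sub_box hmn h2⟩
    · exact ⟨fun h => h2 (h ▸ h0), h1⟩

theorem disj_in_out (m n : ℕ) (β : Bool) : Disjoint ((boxE m).erase (e0 β)) (Vo m n) := by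
  rw [Finset.disjoint_left]
  intro x hx hx2
  unfold Vo at hx2
  exact (Finset.mem_sdiff.mp hx2).2 (Finset.mem_of_mem_erase hx)

/-- The end points of `e0 β` as a pair of sets. -/
abbrev CB (β : Bool) (O : Set Edg) : Finset Edg → Prop :=
  CO {src (e0 β)} {tgt (e0 β)} O

theorem pf_glue {β : Bool} {m n : ℕ} {Z Y : Finset Edg} (hZ : Disjoint Z (Vo m n)) {g : Edg}
    (hg : g ∈ Vo m n) : Pf (fB β) g (Z ∪ Y) ↔ Pf (CB β ↑Z) g Y := by
  have hgZ : g ∉ Z := fun h => (Finset.disjoint_left.mp hZ h) hg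
  have e1 : (↑(insert g (Z ∪ Y)) : Set Edg) = ↑(insert g Y) ∪ ↑Z := by
    ext x
    simp only [Finset.coe_insert, Finset.coe_union, Set.mem_insert_iff, Set.mem_union,
      Finset.mem_coe]
    tauto
  have e2 : (↑((Z ∪ Y).erase g) : Set Edg) = ↑(Y.erase g) ∪ ↑Z := by
    ext x
    simp only [Set.mem_union, Finset.mem_coe, Finset.mem_erase, Finset.mem_union]
    constructor
    · rintro ⟨h1, h2 | h2⟩
      · exact Or.inr h2
      · exact Or.inl ⟨h1, h2⟩
    · rintro (⟨h1, h2⟩ | h2)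
      · exact ⟨h1, Or.inr h2⟩
      · exact ⟨fun h => hgZ (h ▸ h2), Or.inl h2⟩
  unfold Pf fB CB CO
  rw [e1, e2]

/-- Conditioning on the configuration in the box of radius `m`. -/
theorem cond_sum {q : ℝ} (h0 : 0 ≤ q) (h1 : q ≤ 1) {m n : ℕ} (hm : 1 ≤ m) (hmn : m ≤ n)
    {β : Bool} {B : ℝ} {G : Finset Edg} (hG : G ⊆ Vo m n)
    (hB : ∀ O : Set Edg, Disjoint O ↑(Vo m n) → ∑ g ∈ G, PQ q (Vo m n) (Pf (CB β O) g) ≤ B)
    {Ein : Finset Edg → Prop} (hE : Loc ((boxE m).erase (e0 β)) Ein)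
    {T : Finset Edg → Finset Edg}
    (hT : ∀ X Y : Finset Edg, X ⊆ (boxE m).erase (e0 β) → Y ⊆ Vo m n → T (X ∪ Y) = T X ∪ Y)
    (hT2 : ∀ X : Finset Edg, X ⊆ (boxE m).erase (e0 β) → Disjoint (T X) (Vo m n)) :
    ∑ g ∈ G, PQ q (Sn n β) (fun F => Ein F ∧ Pf (fB β) g (T F)) ≤
      B * PQ q (Sn n β) Ein := by
  have ok : Ok (fun _ : Edg => q) := fun _ => ⟨h0, h1⟩
  have hd := disj_in_out m n β
  have eS := Sn_eq β hm hmn
  have hloc : ∀ X Y : Finset Edg, X ⊆ (boxE m).erase (e0 β) → Y ⊆ Vo m n →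
      (Ein (X ∪ Y) ↔ Ein X) := by
    intro X Y hX hY
    rw [hE (X ∪ Y), hE X]
    have : (X ∪ Y) ∩ (boxE m).erase (e0 β) = X ∩ (boxE m).erase (e0 β) := by
      rw [Finset.union_inter_distrib_right]
      have h3 : Y ∩ (boxE m).erase (e0 β) = ∅ := by
        rw [← Finset.disjoint_iff_inter_eq_empty]
        exact (Finset.disjoint_of_subset_right hY hd).symm
      rw [h3, Finset.union_empty]
    rw [this]
  have e1 : PQ q (Sn n β) Ein = PQ q ((boxE m).erase (e0 β)) Ein := by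
    rw [eS]
    exact Pr_local Finset.subset_union_left (fun F _ => hE F)
  have e2 : ∀ g ∈ G, PQ q (Sn n β) (fun F => Ein F ∧ Pf (fB β) g (T F)) =
      Ex (fun _ => q) ((boxE m).erase (e0 β)) (fun X => ind (Ein X) *
        PQ q (Vo m n) (Pf (CB β ↑(T X)) g)) := by
    intro g hg
    rw [eS]
    unfold PQ Pr
    rw [Ex_union hd]
    apply Ex_congr
    intro X hX
    rw [← Ex_mul_left]
    apply Ex_congr
    intro Y hY
    rw [ind_and, ind_congr (hloc X Y hX hY), hT X Y hX hY, ind_congr (pf_glue (hT2 X hX) (hG hg))]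
  rw [Finset.sum_congr rfl e2, ← Ex_sum, e1]
  have e3 : Ex (fun _ => q) ((boxE m).erase (e0 β)) (fun X => ∑ g ∈ G, ind (Ein X) *
        PQ q (Vo m n) (Pf (CB β ↑(T X)) g)) ≤
      Ex (fun _ => q) ((boxE m).erase (e0 β)) (fun X => B * ind (Ein X)) := by
    apply Ex_mono ok
    intro X hX
    rw [← Finset.mul_sum, mul_comm B]
    apply mul_le_mul_of_nonneg_left _ (ind_nonneg _)
    apply hB
    rw [Finset.disjoint_coe]
    exact hT2 X hX
  rw [Ex_mul_left] at e3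
  exact e3

/-- The four rectangles around the box of radius `m`. -/
theorem cover_out {m n : ℕ} {g : Edg} (hg : g ∈ boxE n) (hm : m + 2 ≤ nm g) :
    g ∈ RE ((m:ℤ) + 1) n (-n) n ∨ g ∈ RE (-n) (-((m:ℤ) + 1)) (-n) n ∨
      g ∈ RE (-n) n ((m:ℤ) + 1) n ∨ g ∈ RE (-n) n (-n) (-((m:ℤ) + 1)) := by
  unfold nm at hm
  obtain ⟨x, y, _ | _⟩ := g
  · unfold boxE at hg
    rw [mem_RE_false] at hg
    rw [mem_RE_false, mem_RE_false, mem_RE_false, mem_RE_false]
    simp only at hm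
    omega
  · unfold boxE at hg
    rw [mem_RE_true] at hg
    rw [mem_RE_true, mem_RE_true, mem_RE_true, mem_RE_true]
    simp only at hm
    omega

theorem RE_out {m n : ℕ} (hmn : m + 1 ≤ n) {a b c d : ℤ} (h1 : -(n:ℤ) ≤ a) (h2 : b ≤ n)
    (h3 : -(n:ℤ) ≤ c) (h4 : d ≤ n)
    (h : (m:ℤ) + 1 ≤ a ∨ b ≤ -((m:ℤ) + 1) ∨ (m:ℤ) + 1 ≤ c ∨ d ≤ -((m:ℤ) + 1)) :
    RE a b c d ⊆ Vo m n := by
  intro x hx
  unfold Vo
  rw [Finset.mem_sdiff]
  refine ⟨?_, ?_⟩
  · unfold boxE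
    exact RE_subset h1 h2 h3 h4 hx
  · intro hx2
    unfold boxE at hx2
    obtain ⟨x, y, _ | _⟩ := x
    · rw [mem_RE_false] at hx hx2
      omega
    · rw [mem_RE_true] at hx hx2
      omega

/-- The total influence outside the box of radius `m`. -/
theorem out_sum {κ A : ℝ} (hκ : 0 < κ) (hA : 1 ≤ A) : ∃ C : ℝ, 0 < C ∧ ∀ (q : ℝ) (K m : ℕ),
    Win q κ (4 * 2 ^ K) → A4le q A 0 (4 * 2 ^ K) → 1 ≤ m → m + 1 ≤ 4 * 2 ^ K →
    ∀ (β : Bool) (O : Set Edg), Disjoint O ↑(Vo m (4 * 2 ^ K)) →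
    ∀ G ⊆ Vo m (4 * 2 ^ K), (∀ g ∈ G, m + 2 ≤ nm g) →
    ∑ g ∈ G, PQ q (Vo m (4 * 2 ^ K)) (Pf (CB β O) g) ≤
      C * (((4 * 2 ^ K : ℕ) : ℝ)) ^ (3/4 : ℝ) := by
  classical
  obtain ⟨C1, hC1, hwh⟩ := whitney_sum κ hκ
  obtain ⟨C2, hC2, hwb⟩ := Pool.Agent.W424.NC.W_bounds0 (ε := 0) le_rfl (by norm_num)
  refine ⟨4 * (C1 * 8 * (C2 * A)), by positivity, ?_⟩
  intro q K m hW hA4 hm hmn β O hO G hGV hGm
  have h0 : 0 ≤ q := by linarith [hW.lo]
  have h1 : q ≤ 1 := by linarith [hW.hi]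
  have ok : Ok (fun _ : Edg => q) := fun _ => ⟨h0, h1⟩
  obtain ⟨n, hn⟩ : ∃ n : ℕ, n = 4 * 2 ^ K := ⟨_, rfl⟩
  rw [← hn] at hW hA4 hmn hO hGV ⊢
  have hW1 : W1s q K ≤ C2 * A * (n:ℝ) ^ (3/4 : ℝ) := by
    have h2 := (hwb q A K h0 h1 hA ?_).1
    · rw [add_zero] at h2
      refine h2.trans ?_
      apply mul_le_mul_of_nonneg_left _ (by positivity)
      apply Real.rpow_le_rpow (by positivity) _ (by norm_num)
      rw [hn]
      push_cast
      have : (0:ℝ) < 2 ^ K := by positivity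
      linarith
    · intro k hk
      have hkn : 2 ^ k ≤ n := by
        have := Nat.pow_le_pow_right (show 0 < 2 by norm_num) hk
        omega
      have h3 := Pool.Agent.W424.NC.A4le0.mp hA4 (2 ^ k) hkn
      refine h3.trans ?_
      apply mul_le_mul_of_nonneg_left _ (by linarith)
      rw [add_zero]
      push_cast
      exact Real.rpow_le_rpow_of_nonpos (by positivity) (by linarith) (by norm_num)
  have hpiece : ∀ a b c d : ℤ, -(n:ℤ) ≤ a → b ≤ n → -(n:ℤ) ≤ c → d ≤ n →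
      ((m:ℤ) + 1 ≤ a ∨ b ≤ -((m:ℤ) + 1) ∨ (m:ℤ) + 1 ≤ c ∨ d ≤ -((m:ℤ) + 1)) →
      ∑ g ∈ G.filter (fun g => g ∈ RE a b c d), PQ q (Vo m n) (Pf (CB β O) g) ≤
        C1 * 8 * (C2 * A) * (n:ℝ) ^ (3/4 : ℝ) := by
    intro a b c d k1 k2 k3 k4 k5
    have hsub := RE_out hmn k1 k2 k3 k4 k5
    have hnz : (n:ℤ) = 4 * 2 ^ K := by rw [hn]; push_cast; ring
    have h2 := hwh q n hW a b c d K 8 (by norm_num) (by omega) (by push_cast; omega)
      (by push_cast; omega) (Vo m n) {src (e0 β)} {tgt (e0 β)} O hO ?_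
      (G.filter (fun g => g ∈ RE a b c d)) ((Finset.filter_subset _ _).trans hGV)
      (fun g hg => (Finset.mem_filter.mp hg).2) ?_
    · refine h2.trans ?_
      have h3 := mul_le_mul_of_nonneg_left hW1 (show 0 ≤ C1 * ((8:ℕ):ℝ) by positivity)
      refine h3.trans (le_of_eq ?_)
      push_cast
      ring
    · intro v hv hv'
      have hv2 : v = (0, 0) ∨ v = (1, 0) ∨ v = (0, 1) := by
        rcases hv with hv | hv
        · left
          rw [Set.mem_singleton_iff] at hv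
          rw [hv]
          rfl
        · right
          rw [Set.mem_singleton_iff] at hv
          rw [hv]
          cases β
          · right; rfl
          · left; rfl
      rcases hv2 with rfl | rfl | rfl
      · simp only at hv'
        omega
      · simp only at hv'
        omega
      · simp only at hv'
        omega
    · intro g _ e he _
      exact hsub (RE_subset (by omega) (by omega) (by omega) (by omega) he)
  have hp : ∀ g, 0 ≤ PQ q (Vo m n) (Pf (CB β O) g) := fun g => Pr_nonneg ok _ _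
  have hsplit : ∑ g ∈ G, PQ q (Vo m n) (Pf (CB β O) g) ≤
      ∑ g ∈ G.filter (fun g => g ∈ RE ((m:ℤ) + 1) n (-n) n), PQ q (Vo m n) (Pf (CB β O) g) +
      (∑ g ∈ G.filter (fun g => g ∈ RE (-n) (-((m:ℤ) + 1)) (-n) n),
        PQ q (Vo m n) (Pf (CB β O) g) +
      (∑ g ∈ G.filter (fun g => g ∈ RE (-n) n ((m:ℤ) + 1) n), PQ q (Vo m n) (Pf (CB β O) g) +
      ∑ g ∈ G.filter (fun g => g ∈ RE (-n) n (-n) (-((m:ℤ) + 1))),
        PQ q (Vo m n) (Pf (CB β O) g))) := by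
    rw [Finset.sum_filter, Finset.sum_filter, Finset.sum_filter, Finset.sum_filter,
      ← Finset.sum_add_distrib, ← Finset.sum_add_distrib, ← Finset.sum_add_distrib]
    apply Finset.sum_le_sum
    intro g hg
    have hgn : g ∈ boxE n := by
      have := hGV hg
      unfold Vo at this
      exact (Finset.mem_sdiff.mp this).1
    have hc := cover_out hgn (hGm g hg)
    have hpg := hp g
    have hnn : ∀ P : Prop, ∀ _ : Decidable P,
        0 ≤ (if P then PQ q (Vo m n) (Pf (CB β O) g) else 0) := by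
      intro P _
      split_ifs
      · exact hpg
      · exact le_rfl
    have n1 := hnn (g ∈ RE ((m:ℤ) + 1) n (-n) n) inferInstance
    have n2 := hnn (g ∈ RE (-n) (-((m:ℤ) + 1)) (-n) n) inferInstance
    have n3 := hnn (g ∈ RE (-n) n ((m:ℤ) + 1) n) inferInstance
    have n4 := hnn (g ∈ RE (-n) n (-n) (-((m:ℤ) + 1))) inferInstance
    rcases hc with hc | hc | hc | hc
    · rw [if_pos hc]
      linarith
    · rw [if_pos hc]
      linarith
    · rw [if_pos hc]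
      linarith
    · rw [if_pos hc]
      linarith
  have g1 := hpiece ((m:ℤ) + 1) n (-n) n (by omega) le_rfl le_rfl le_rfl (Or.inl le_rfl)
  have g2 := hpiece (-n) (-((m:ℤ) + 1)) (-n) n le_rfl (by omega) le_rfl le_rfl
    (Or.inr (Or.inl le_rfl))
  have g3 := hpiece (-n) n ((m:ℤ) + 1) n le_rfl le_rfl (by omega) le_rfl
    (Or.inr (Or.inr (Or.inl le_rfl)))
  have g4 := hpiece (-n) n (-n) (-((m:ℤ) + 1)) le_rfl le_rfl le_rfl (by omega)
    (Or.inr (Or.inr (Or.inr le_rfl)))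
  refine hsplit.trans ?_
  linarith

end Run7.h976
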