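import Pool.Agent.Run7.h976.TR5
import Pool.Agent.H973R3.NC.DV

/-!
Bond percolation on `ℤ²`: near-critical bounds for the first two derivatives of the probability
that the end points of an edge are connected without this edge, in a box.
-/

set_option autoImplicit false

namespace Run7.h976

open H974 H12S H973N H389NS H389NS.E1b Finset

theorem notMem_of_nm {m : ℕ} {g : Edg} (h : m + 1 ≤ nm g) : g ∉ boxE m := fun h5 => by
  have := nm_of_mem h5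
  omega

theorem e0_notMem {n : ℕ} {β : Bool} {F : Finset Edg} (hF : F ⊆ Sn n β) : e0 β ∉ F := fun h3 => by
  have := hF h3
  unfold Sn at this
  exact (Finset.mem_erase.mp this).1 rfl

/-- First order: the influence of the edges far from the origin. -/
theorem first_out {κ A : ℝ} (hκ : 0 < κ) (hA : 1 ≤ A) : ∃ C : ℝ, 0 < C ∧ ∀ (q : ℝ) (j : ℕ),
    Win q κ (8 * 2 ^ j) → A4le q A 0 (8 * 2 ^ j) → ∀ (β : Bool) (G : Finset Edg),
    G ⊆ Sn (8 * 2 ^ j) β → (∀ g ∈ G, 8 * 2 ^ j < 2 * nm g) →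
    ∑ g ∈ G, PQ q (Sn (8 * 2 ^ j) β) (Pf (fB β) g) ≤
      C * (((8 * 2 ^ j : ℕ) : ℝ)) ^ (-(1/2) : ℝ) := by
  obtain ⟨C1, hC1, hout⟩ := out_sum hκ hA
  refine ⟨C1 * A * 32, by positivity, ?_⟩
  intro q j hW hA4 β G hG hGm
  have h0 : 0 ≤ q := by linarith [hW.lo]
  have h1 : q ≤ 1 := by linarith [hW.hi]
  have ok : Ok (fun _ : Edg => q) := fun _ => ⟨h0, h1⟩
  obtain ⟨n, hn⟩ : ∃ n : ℕ, n = 8 * 2 ^ j := ⟨_, rfl⟩
  obtain ⟨m, hm⟩ : ∃ m : ℕ, m = 2 * 2 ^ j := ⟨_, rfl⟩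
  have hK : 4 * 2 ^ (j + 1) = n := by rw [hn, pow_succ]; ring
  have hj1 : 1 ≤ 2 ^ j := Nat.one_le_two_pow
  have hmn : n = 4 * m := by omega
  rw [← hn] at hW hA4 hG hGm ⊢
  have hGV : G ⊆ Vo m n := by
    intro g hg
    unfold Vo
    rw [Finset.mem_sdiff]
    have h2 := hG hg
    unfold Sn at h2
    exact ⟨Finset.mem_of_mem_erase h2, notMem_of_nm (by have := hGm g hg; omega)⟩
  have hsum := cond_sum (q := q) h0 h1 (m := m) (n := n) (by omega) (by omega) (β := β)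
    (B := C1 * (n:ℝ) ^ (3/4 : ℝ)) (G := G) hGV ?_ (Ein := A40 β m) (loc_A40 β m) (T := id) ?_ ?_
  · have h2 : ∑ g ∈ G, PQ q (Sn n β) (Pf (fB β) g) ≤
        ∑ g ∈ G, PQ q (Sn n β) (fun F => A40 β m F ∧ Pf (fB β) g (id F)) := by
      apply Finset.sum_le_sum
      intro g hg
      apply Pr_mono ok
      intro F hF hP
      refine ⟨pf_A40 (by omega) (e0_notMem hF) ?_ hP, hP⟩
      exact notMem_of_nm (by have := hGm g hg; omega)
    have h3 : PQ q (Sn n β) (A40 β m) ≤ A * psi m :=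
      (pr_A40 h0 h1 (box_sub_Sn β (by omega))).trans (a4_le_psi hA4 (by omega))
    have hn0 : (0:ℝ) < n := by
      have : 0 < n := by omega
      exact_mod_cast this
    have h4 : psi m ≤ 32 * (n:ℝ) ^ (-(5/4) : ℝ) := by
      have h5 : (n:ℝ) / 4 ≤ (m:ℝ) + 1 := by rw [hmn]; push_cast; linarith
      calc psi m ≤ ((n:ℝ) / 4) ^ (-(5/4) : ℝ) :=
            Real.rpow_le_rpow_of_nonpos (by positivity) h5 (by norm_num)
        _ = (4:ℝ) ^ (5/4 : ℝ) * (n:ℝ) ^ (-(5/4) : ℝ) := by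
            rw [Real.div_rpow hn0.le (by norm_num), Real.rpow_neg (by norm_num : (0:ℝ) ≤ 4),
              div_inv_eq_mul, mul_comm]
        _ ≤ 32 * (n:ℝ) ^ (-(5/4) : ℝ) := by
            apply mul_le_mul_of_nonneg_right _ (by positivity)
            calc (4:ℝ) ^ (5/4 : ℝ) ≤ (4:ℝ) ^ (2 : ℝ) :=
                  Real.rpow_le_rpow_of_exponent_le (by norm_num) (by norm_num)
              _ ≤ 32 := by norm_num
    calc ∑ g ∈ G, PQ q (Sn n β) (Pf (fB β) g) ≤ _ := h2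
      _ ≤ C1 * (n:ℝ) ^ (3/4 : ℝ) * PQ q (Sn n β) (A40 β m) := hsum
      _ ≤ C1 * (n:ℝ) ^ (3/4 : ℝ) * (A * (32 * (n:ℝ) ^ (-(5/4) : ℝ))) := by
          apply mul_le_mul_of_nonneg_left _ (by positivity)
          exact h3.trans (mul_le_mul_of_nonneg_left h4 (by linarith))
      _ = C1 * A * 32 * ((n:ℝ) ^ (3/4 : ℝ) * (n:ℝ) ^ (-(5/4) : ℝ)) := by ring
      _ = C1 * A * 32 * (n:ℝ) ^ (-(1/2) : ℝ) := by
          rw [← Real.rpow_add hn0]
          norm_num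
  · intro O hO
    have := hout q (j + 1) m (by rw [hK]; exact hW) (by rw [hK]; exact hA4) (by omega)
      (by rw [hK]; omega) β O (by rw [hK]; exact hO) G (by rw [hK]; exact hGV)
      (fun g hg => by have := hGm g hg; omega)
    rw [hK] at this
    exact this
  · intro X Y _ _
    rfl
  · intro X hX
    exact Finset.disjoint_of_subset_left hX (disj_in_out m n β)

/-- The local event around the origin and around an edge `e`, seen from far away. -/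
theorem ein {κ A : ℝ} (hκ : 0 < κ) (hA : 1 ≤ A) : ∃ C : ℝ, 0 < C ∧ ∀ (q : ℝ) (j : ℕ),
    Win q κ (8 * 2 ^ j) → A4le q A 0 (8 * 2 ^ j) → ∀ (β : Bool) (e : Edg),
    nm e ≤ 4 * 2 ^ j → ∃ Ein : Finset Edg → Prop, Loc ((boxE (5 * 2 ^ j)).erase (e0 β)) Ein ∧
    (∀ (g : Edg) (F : Finset Edg), F ⊆ Sn (8 * 2 ^ j) β → 5 * 2 ^ j + 2 ≤ nm g →
      SD (fB β) e g F → Ein F) ∧
    PQ q (Sn (8 * 2 ^ j) β) Ein ≤
      C * (((nm e : ℕ) : ℝ) + 1) ^ (-(3/2) : ℝ) / ((8 * 2 ^ j : ℕ) : ℝ) := by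
  obtain ⟨C1, hC1, hann⟩ := ann_weak hκ
  have hA0 : 0 < A := by linarith
  refine ⟨A ^ 2 * (256 * C1) + A ^ 2 * 4096, by positivity, ?_⟩
  intro q j hW hA4 β e he
  have h0 : 0 ≤ q := by linarith [hW.lo]
  have h1 : q ≤ 1 := by linarith [hW.hi]
  have ok : Ok (fun _ : Edg => q) := fun _ => ⟨h0, h1⟩
  obtain ⟨n, hn⟩ : ∃ n : ℕ, n = 8 * 2 ^ j := ⟨_, rfl⟩
  have hj1 : 1 ≤ 2 ^ j := Nat.one_le_two_pow
  rw [← hn] at hW hA4 ⊢
  obtain ⟨x, hx⟩ : ∃ x : ℝ, x = ((nm e : ℕ) : ℝ) + 1 := ⟨_, rfl⟩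
  have hx0 : 0 < x := by rw [hx]; positivity
  have hn0 : (0:ℝ) < n := by
    have : 0 < n := by omega
    exact_mod_cast this
  obtain ⟨ρ, hρ⟩ : ∃ ρ : ℕ, ρ = nm e / 4 := ⟨_, rfl⟩
  have hψ : psi ρ ^ 2 ≤ 64 * (x ^ (-(5/4) : ℝ) * x ^ (-(5/4) : ℝ)) := by
    have h2 := psi_quarter (nm e)
    rw [← hx, ← hρ] at h2
    calc psi ρ ^ 2 ≤ (8 * x ^ (-(5/4) : ℝ)) ^ 2 := pow_le_pow_left₀ (psi_pos _).le h2 2
      _ = _ := by ring
  have ex1 : x ^ (-(5/4) : ℝ) * x ^ (-(5/4) : ℝ) * x = x ^ (-(3/2) : ℝ) := by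
    rw [← Real.rpow_add hx0, ← Real.rpow_add_one hx0.ne']
    norm_num
  have b1 := box_sub_Sn (ρ := ρ) (n := n) β (by omega)
  have b2 := blk_sub_Sn (e := e) (ρ := ρ) (n := n) β (by omega) (by omega)
  have p12 := pr_and_le h0 h1 b1 b2 (disj_box_ball (by omega) (by omega)) (loc_A40' β ρ)
    (loc_L4' ρ e) (pr_A40' h0 h1 hA hA4 (by omega) b1) (pr_L4' h0 h1 hA hA4 (by omega) b2)
  have hloc12 := (loc_A40' β ρ).and (loc_L4' ρ e)
  have hdet : ∀ (g : Edg) (F : Finset Edg), F ⊆ Sn n β → 5 * 2 ^ j + 2 ≤ nm g →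
      SD (fB β) e g F → A40' β ρ F ∧ L4' ρ e F := by
    intro g F hF hg hSD
    have h3 := nm_tri g e
    rw [nd_comm] at h3
    rcases Nat.eq_zero_or_pos ρ with h2 | h2
    · exact ⟨Or.inl h2, Or.inl h2⟩
    · exact ⟨Or.inr (SD_A40 h2 (by omega) (by omega) (e0_notMem hF) hSD),
        Or.inr (SD_L4 h2 (by omega) (by omega) hSD)⟩
  have hsub1 : (boxE ρ).erase (e0 β) ∪ blk (bp e) ρ ⊆ (boxE (5 * 2 ^ j)).erase (e0 β) := by
    refine Finset.union_subset (Finset.erase_subset_erase _ (box_sub_box (by omega))) ?_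
    intro y hy
    rw [Finset.mem_erase]
    refine ⟨?_, blk_sub_box (by omega) hy⟩
    have := b2 hy
    unfold Sn at this
    exact (Finset.mem_erase.mp this).1
  have hC1' : 0 ≤ A ^ 2 * (256 * C1) * x ^ (-(3/2) : ℝ) / n := by positivity
  have hC2' : 0 ≤ A ^ 2 * 4096 * x ^ (-(3/2) : ℝ) / n := by positivity
  have hsplit : (A ^ 2 * (256 * C1) + A ^ 2 * 4096) * x ^ (-(3/2) : ℝ) / n =
      A ^ 2 * (256 * C1) * x ^ (-(3/2) : ℝ) / n + A ^ 2 * 4096 * x ^ (-(3/2) : ℝ) / n := by ring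
  rw [← hx]
  rcases lt_or_ge n (64 * (nm e + 1)) with h4 | h4
  · refine ⟨fun F => A40' β ρ F ∧ L4' ρ e F, hloc12.mono hsub1, hdet, ?_⟩
    have h5 : (1:ℝ) ≤ 64 * x / n := by
      rw [le_div_iff₀ hn0, one_mul, hx]
      exact_mod_cast h4.le
    have h6 : PQ q (Sn n β) (fun F => A40' β ρ F ∧ L4' ρ e F) ≤
        A ^ 2 * 4096 * x ^ (-(3/2) : ℝ) / n := by
      calc PQ q (Sn n β) (fun F => A40' β ρ F ∧ L4' ρ e F) ≤ A * psi ρ * (A * psi ρ) := p12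
        _ = A ^ 2 * psi ρ ^ 2 := by ring
        _ ≤ A ^ 2 * (64 * (x ^ (-(5/4) : ℝ) * x ^ (-(5/4) : ℝ))) :=
            mul_le_mul_of_nonneg_left hψ (by positivity)
        _ = A ^ 2 * (64 * (x ^ (-(5/4) : ℝ) * x ^ (-(5/4) : ℝ))) * 1 := (mul_one _).symm
        _ ≤ A ^ 2 * (64 * (x ^ (-(5/4) : ℝ) * x ^ (-(5/4) : ℝ))) * (64 * x / n) :=
            mul_le_mul_of_nonneg_left h5 (by positivity)
        _ = A ^ 2 * 4096 * (x ^ (-(5/4) : ℝ) * x ^ (-(5/4) : ℝ) * x) / n := by ring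
        _ = _ := by rw [ex1]
    rw [hsplit]
    linarith
  · obtain ⟨d, hd⟩ : ∃ d : ℕ, d = 2 * nm e + 2 := ⟨_, rfl⟩
    obtain ⟨k, hk⟩ : ∃ k : ℕ, k = 4 * 2 ^ j := ⟨_, rfl⟩
    have b3 := ann0_sub_Sn (d := d) (k := k) (n := n) β (by omega) (by omega)
    have hd12 : Disjoint ((boxE ρ).erase (e0 β) ∪ blk (bp e) ρ)
        (blk (0, 0) k \ blk (0, 0) d) := by
      rw [Finset.disjoint_left]
      intro y hy hy2
      rw [Finset.mem_sdiff, S4C_blk0, S4C_blk0] at hy2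
      apply hy2.2
      rcases Finset.mem_union.mp hy with h | h
      · exact box_sub_box (by omega) (Finset.mem_of_mem_erase h)
      · exact blk_sub_box (by omega) h
    refine ⟨fun F => (A40' β ρ F ∧ L4' ρ e F) ∧ A4a (0, 0) d k (↑F : Set Edg),
      (hloc12.and (loc_A4a (0, 0) d k)).mono (Finset.union_subset hsub1 ?_), ?_, ?_⟩
    · intro y hy
      rw [Finset.mem_erase]
      refine ⟨?_, ?_⟩
      · have := b3 hy
        unfold Sn at this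
        exact (Finset.mem_erase.mp this).1
      · rw [Finset.mem_sdiff, S4C_blk0] at hy
        exact box_sub_box (by omega) hy.1
    · intro g F hF hg hSD
      exact ⟨hdet g F hF hg hSD, SD_A4a0 (by omega) (by omega) (by omega) (by omega) hSD⟩
    · have h5 := pr_and_le h0 h1 (Finset.union_subset b1 b2) b3 hd12 hloc12
        (loc_A4a (0, 0) d k) p12 ((pr_A4a h0 h1 b3).trans (hann q n hW d k (by omega) (by omega)
          (by omega)))
      have h7 : (d:ℝ) / k = 4 * x / n := by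
        have hk2 : (n:ℝ) = 2 * k := by
          have : n = 2 * k := by omega
          exact_mod_cast this
        have hk0 : (0:ℝ) < k := by
          have : 0 < k := by omega
          exact_mod_cast this
        rw [hk2, hd, hx]
        push_cast
        field_simp
        ring
      have h6 : PQ q (Sn n β) (fun F => (A40' β ρ F ∧ L4' ρ e F) ∧
          A4a (0, 0) d k (↑F : Set Edg)) ≤ A ^ 2 * (256 * C1) * x ^ (-(3/2) : ℝ) / n := by
        calc _ ≤ A * psi ρ * (A * psi ρ) * (C1 * ((d:ℝ) / k)) := h5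
          _ = A ^ 2 * psi ρ ^ 2 * (C1 * (4 * x / n)) := by rw [h7]; ring
          _ ≤ A ^ 2 * (64 * (x ^ (-(5/4) : ℝ) * x ^ (-(5/4) : ℝ))) * (C1 * (4 * x / n)) := by
              apply mul_le_mul_of_nonneg_right _ (by positivity)
              exact mul_le_mul_of_nonneg_left hψ (by positivity)
          _ = A ^ 2 * (256 * C1) * (x ^ (-(5/4) : ℝ) * x ^ (-(5/4) : ℝ) * x) / n := by ring
          _ = _ := by rw [ex1]
      rw [hsplit]
      linarith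

/-- Second order: pairs with one edge near the boundary. -/
theorem bdry_sum {κ A : ℝ} (hκ : 0 < κ) (hA : 1 ≤ A) : ∃ C : ℝ, 0 < C ∧ ∀ (q : ℝ) (j : ℕ),
    Win q κ (8 * 2 ^ j) → A4le q A 0 (8 * 2 ^ j) → ∀ (β : Bool) (E G : Finset Edg),
    (∀ e ∈ E, nm e ≤ 4 * 2 ^ j) → G ⊆ Sn (8 * 2 ^ j) β → (∀ g ∈ G, 5 * 2 ^ j + 2 ≤ nm g) →
    ∑ e ∈ E, ∑ g ∈ G, PQ q (Sn (8 * 2 ^ j) β) (SD (fB β) e g) ≤
      C * (((8 * 2 ^ j : ℕ) : ℝ)) ^ (1/4 : ℝ) := by
  obtain ⟨C1, hC1, hout⟩ := out_sum hκ hA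
  obtain ⟨C2, hC2, hein⟩ := ein hκ hA
  refine ⟨128 * (C1 * C2), by positivity, ?_⟩
  intro q j hW hA4 β E G hE hG hGm
  have h0 : 0 ≤ q := by linarith [hW.lo]
  have h1 : q ≤ 1 := by linarith [hW.hi]
  have ok : Ok (fun _ : Edg => q) := fun _ => ⟨h0, h1⟩
  have hein' := hein q j hW hA4 β
  obtain ⟨n, hn⟩ : ∃ n : ℕ, n = 8 * 2 ^ j := ⟨_, rfl⟩
  obtain ⟨m, hm⟩ : ∃ m : ℕ, m = 5 * 2 ^ j := ⟨_, rfl⟩
  have hK : 4 * 2 ^ (j + 1) = n := by rw [hn, pow_succ]; ring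
  have hj1 : 1 ≤ 2 ^ j := Nat.one_le_two_pow
  rw [← hn, ← hm] at hein'
  rw [← hn] at hW hA4 hG ⊢
  rw [← hm] at hGm
  have hn0 : (0:ℝ) < n := by
    have : 0 < n := by omega
    exact_mod_cast this
  have hn1 : (1:ℝ) ≤ n := by
    have : 1 ≤ n := by omega
    exact_mod_cast this
  have hGV : G ⊆ Vo m n := by
    intro g hg
    unfold Vo
    rw [Finset.mem_sdiff]
    have h2 := hG hg
    unfold Sn at h2
    exact ⟨Finset.mem_of_mem_erase h2, notMem_of_nm (by have := hGm g hg; omega)⟩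
  have hB : ∀ O : Set Edg, Disjoint O ↑(Vo m n) →
      ∑ g ∈ G, PQ q (Vo m n) (Pf (CB β O) g) ≤ C1 * (n:ℝ) ^ (3/4 : ℝ) := by
    intro O hO
    have := hout q (j + 1) m (by rw [hK]; exact hW) (by rw [hK]; exact hA4) (by omega)
      (by rw [hK]; omega) β O (by rw [hK]; exact hO) G (by rw [hK]; exact hGV)
      (fun g hg => hGm g hg)
    rw [hK] at this
    exact this
  have hone : ∀ e ∈ E, ∑ g ∈ G, PQ q (Sn n β) (SD (fB β) e g) ≤
      (2 * C1 * (n:ℝ) ^ (3/4 : ℝ)) *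
        (C2 * (((nm e : ℕ) : ℝ) + 1) ^ (-(3/2) : ℝ) / n) := by
    intro e he
    obtain ⟨Ein, hloc, hdet, hpr⟩ := hein' e (hE e he)
    have hem : e ∈ boxE m := mem_boxE_of (by have := hE e he; omega)
    have heV : e ∉ Vo m n := by
      unfold Vo
      rw [Finset.mem_sdiff]
      exact fun h => h.2 hem
    have s1 := cond_sum (q := q) h0 h1 (m := m) (n := n) (by omega) (by omega) (β := β)
      (B := C1 * (n:ℝ) ^ (3/4 : ℝ)) (G := G) hGV hB (Ein := Ein) hloc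
      (T := fun F => F.erase e)
      (fun X Y hX hY => by
        rw [Finset.erase_union_distrib, Finset.erase_eq_of_notMem (fun h => heV (hY h))])
      (fun X hX => Finset.disjoint_of_subset_left ((Finset.erase_subset _ _).trans hX)
        (disj_in_out m n β))
    have s2 := cond_sum (q := q) h0 h1 (m := m) (n := n) (by omega) (by omega) (β := β)
      (B := C1 * (n:ℝ) ^ (3/4 : ℝ)) (G := G) hGV hB (Ein := Ein) hloc
      (T := fun F => insert e F)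
      (fun X Y hX hY => by rw [Finset.insert_union])
      (fun X hX => by
        rw [Finset.disjoint_insert_left]
        exact ⟨heV, Finset.disjoint_of_subset_left hX (disj_in_out m n β)⟩)
    have s3 : ∑ g ∈ G, PQ q (Sn n β) (SD (fB β) e g) ≤
        ∑ g ∈ G, PQ q (Sn n β) (fun F => Ein F ∧ Pf (fB β) g (F.erase e)) +
        ∑ g ∈ G, PQ q (Sn n β) (fun F => Ein F ∧ Pf (fB β) g (insert e F)) := by
      rw [← Finset.sum_add_distrib]
      apply Finset.sum_le_sum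
      intro g hg
      refine le_trans (Pr_mono ok ?_) (Pr_or_le ok (Sn n β)
        (fun F => Ein F ∧ Pf (fB β) g (F.erase e)) (fun F => Ein F ∧ Pf (fB β) g (insert e F)))
      intro F hF hSD
      have h3 := hdet g F hF (hGm g hg) hSD
      rcases hSD.2.1 with h4 | h4
      · exact Or.inl ⟨h3, h4⟩
      · exact Or.inr ⟨h3, h4⟩
    have hpos : 0 ≤ C1 * (n:ℝ) ^ (3/4 : ℝ) := by positivity
    have s4 := mul_le_mul_of_nonneg_left hpr hpos
    calc ∑ g ∈ G, PQ q (Sn n β) (SD (fB β) e g) ≤ _ := s3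
      _ ≤ C1 * (n:ℝ) ^ (3/4 : ℝ) * PQ q (Sn n β) Ein + C1 * (n:ℝ) ^ (3/4 : ℝ) *
          PQ q (Sn n β) Ein := add_le_add s1 s2
      _ ≤ _ := by linarith
  refine (Finset.sum_le_sum hone).trans ?_
  have h2 : ∑ e ∈ E, (2 * C1 * (n:ℝ) ^ (3/4 : ℝ)) *
        (C2 * (((nm e : ℕ) : ℝ) + 1) ^ (-(3/2) : ℝ) / n) =
      (2 * C1 * (n:ℝ) ^ (3/4 : ℝ)) * (C2 / n) *
        ∑ e ∈ E, (((nm e : ℕ) : ℝ) + 1) ^ (-(3/2) : ℝ) := by
    rw [Finset.mul_sum]
    apply Finset.sum_congr rfl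
    intro e _
    ring
  rw [h2]
  have h3 : ∑ e ∈ E, (((nm e : ℕ) : ℝ) + 1) ^ (-(3/2) : ℝ) ≤ 64 * (n:ℝ) ^ (1/2 : ℝ) := by
    have h4 : ∑ e ∈ E, (((nm e : ℕ) : ℝ) + 1) ^ (-(3/2) : ℝ) =
        ∑ e ∈ E, (((nd (e0 β) e : ℕ) : ℝ) + 1) ^ (-(3/2) : ℝ) := by
      apply Finset.sum_congr rfl
      intro g _
      rw [nd_comm, nd_e0]
    rw [h4]
    refine (sum_32 (e0 β) E n ?_).trans ?_
    · intro g hg
      have := hE g hg
      rw [nd_comm, nd_e0]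
      omega
    · have h5 : ((n:ℝ) + 1) ^ (1/2 : ℝ) ≤ (4 * (n:ℝ)) ^ (1/2 : ℝ) :=
        Real.rpow_le_rpow (by positivity) (by linarith) (by norm_num)
      have h6 : (4 * (n:ℝ)) ^ (1/2 : ℝ) = 2 * (n:ℝ) ^ (1/2 : ℝ) := by
        rw [Real.mul_rpow (by norm_num) hn0.le, show (4:ℝ) = 2 ^ (2:ℝ) by norm_num,
          ← Real.rpow_mul (by norm_num)]
        norm_num
      rw [h6] at h5
      linarith
  have hpos : 0 ≤ (2 * C1 * (n:ℝ) ^ (3/4 : ℝ)) * (C2 / n) := by positivity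
  refine (mul_le_mul_of_nonneg_left h3 hpos).trans (le_of_eq ?_)
  have h7 : (n:ℝ) ^ (3/4 : ℝ) * (n:ℝ) ^ (1/2 : ℝ) / n = (n:ℝ) ^ (1/4 : ℝ) := by
    rw [← Real.rpow_add hn0, ← Real.rpow_sub_one hn0.ne']
    norm_num
  rw [← h7]
  ring

end Run7.h976
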