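import Pool.Agent.Run7.h976.TR6

/-!
Bond percolation on `ℤ²`: affine approximation, at every scale, of the probability that the end
points of an edge are connected without this edge.
-/

set_option autoImplicit false

namespace Run7.h976

open H974 H12S H973N H389NS H389NS.E1b Finset

/-- The probability that the end points of `e0 β` are connected in the box of radius `n` without
`e0 β`. -/
noncomputable def Gn (n : ℕ) (β : Bool) (q : ℝ) : ℝ := PQ q (Sn n β) (fB β)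

/-- The edges of the half box. -/
noncomputable def core (n : ℕ) (β : Bool) : Finset Edg := (Sn n β).filter (fun e => 2 * nm e ≤ n)

/-- The sum of the influences of the edges of the half box. -/
noncomputable def Hn (n : ℕ) (β : Bool) (q : ℝ) : ℝ :=
  ∑ e ∈ core n β, PQ q (Sn n β) (Pf (fB β) e)

theorem Gn_deriv (n : ℕ) (β : Bool) (q : ℝ) : HasDerivAt (Gn n β)
    (∑ e ∈ Sn n β, PQ q (Sn n β) (Pf (fB β) e)) q :=
  deriv_f (Sn n β) (fB β) (fun _ _ h hF => fB_mono β h hF) q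

theorem Hn_deriv {κ A : ℝ} (hκ : 0 < κ) (hA : 1 ≤ A) : ∃ C : ℝ, 0 < C ∧ ∀ (q : ℝ) (j : ℕ),
    3 ≤ j → Win q κ (8 * 2 ^ j) → A4le q A 0 (8 * 2 ^ j) → ∀ (β : Bool), ∃ D : ℝ,
    HasDerivAt (Hn (8 * 2 ^ j) β) D q ∧
      |D| ≤ C * (((8 * 2 ^ j : ℕ) : ℝ)) ^ (1/4 : ℝ) := by
  obtain ⟨C1, hC1, hbulk⟩ := bulk_sum hκ hA
  obtain ⟨C2, hC2, hbd⟩ := bdry_sum hκ hA
  refine ⟨C1 + C2, by positivity, ?_⟩
  intro q j hj hW hA4 β
  have h0 : 0 ≤ q := by linarith [hW.lo]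
  have h1 : q ≤ 1 := by linarith [hW.hi]
  have ok : Ok (fun _ : Edg => q) := fun _ => ⟨h0, h1⟩
  have hbd' := hbd q j hW hA4 β
  have hj1 : 8 ≤ 2 ^ j := by
    calc 8 = 2 ^ 3 := by norm_num
      _ ≤ 2 ^ j := Nat.pow_le_pow_right (by norm_num) hj
  obtain ⟨n, hn⟩ : ∃ n : ℕ, n = 8 * 2 ^ j := ⟨_, rfl⟩
  rw [← hn] at hbd' hW hA4 ⊢
  obtain ⟨D, hD, hD2⟩ := deriv_T (Sn n β) (core n β) (Finset.filter_subset _ _) (fB β)
    (fun _ _ h hF => fB_mono β h hF) q h0 h1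
  refine ⟨D, hD, hD2.trans ?_⟩
  have hE : ∀ e ∈ core n β, 2 * nm e ≤ n := fun e he => by
    unfold core at he
    exact (Finset.mem_filter.mp he).2
  have s1 : ∑ e ∈ core n β, ∑ g ∈ (Sn n β).erase e, Pr (fun _ => q) (Sn n β) (SD (fB β) e g) ≤
      ∑ e ∈ core n β, ∑ g ∈ (Sn n β).filter (fun g => 4 * nm g ≤ 3 * n),
        PQ q (Sn n β) (SD (fB β) e g) +
      ∑ e ∈ core n β, ∑ g ∈ (Sn n β).filter (fun g => ¬ 4 * nm g ≤ 3 * n),
        PQ q (Sn n β) (SD (fB β) e g) := by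
    rw [← Finset.sum_add_distrib]
    apply Finset.sum_le_sum
    intro e _
    rw [Finset.sum_filter_add_sum_filter_not]
    exact Finset.sum_le_sum_of_subset_of_nonneg (Finset.erase_subset _ _)
      (fun g _ _ => Pr_nonneg ok _ _)
  have s2 := hbulk q n (by omega) hW hA4 β (core n β)
    ((Sn n β).filter (fun g => 4 * nm g ≤ 3 * n)) (fun e he => by have := hE e he; omega)
    (fun g hg => (Finset.mem_filter.mp hg).2)
  have s3 := hbd' (core n β) ((Sn n β).filter (fun g => ¬ 4 * nm g ≤ 3 * n))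
    (fun e he => by have := hE e he; omega) (Finset.filter_subset _ _)
    (fun g hg => by have := (Finset.mem_filter.mp hg).2; omega)
  refine s1.trans ((add_le_add s2 s3).trans (le_of_eq ?_))
  ring

theorem Gn_split {κ A : ℝ} (hκ : 0 < κ) (hA : 1 ≤ A) : ∃ C : ℝ, 0 < C ∧ ∀ (q : ℝ) (j : ℕ),
    Win q κ (8 * 2 ^ j) → A4le q A 0 (8 * 2 ^ j) → ∀ (β : Bool),
    |(∑ e ∈ Sn (8 * 2 ^ j) β, PQ q (Sn (8 * 2 ^ j) β) (Pf (fB β) e)) - Hn (8 * 2 ^ j) β q| ≤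
      C * (((8 * 2 ^ j : ℕ) : ℝ)) ^ (-(1/2) : ℝ) := by
  obtain ⟨C1, hC1, hout⟩ := first_out hκ hA
  refine ⟨C1, hC1, ?_⟩
  intro q j hW hA4 β
  have h0 : 0 ≤ q := by linarith [hW.lo]
  have h1 : q ≤ 1 := by linarith [hW.hi]
  have ok : Ok (fun _ : Edg => q) := fun _ => ⟨h0, h1⟩
  have h2 := hout q j hW hA4 β ((Sn (8 * 2 ^ j) β).filter (fun e => ¬ 2 * nm e ≤ 8 * 2 ^ j))
    (Finset.filter_subset _ _) (fun g hg => by have := (Finset.mem_filter.mp hg).2; omega)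
  have h3 := Finset.sum_filter_add_sum_filter_not (Sn (8 * 2 ^ j) β)
    (fun e => 2 * nm e ≤ 8 * 2 ^ j) (fun e => PQ q (Sn (8 * 2 ^ j) β) (Pf (fB β) e))
  unfold Hn core
  rw [← h3, add_sub_cancel_left, abs_of_nonneg (Finset.sum_nonneg (fun e _ => Pr_nonneg ok _ _))]
  exact h2

/-- **Affine approximation of `Gn` at the scale `n`.** -/
theorem affine : ∃ b C : ℝ, 0 < b ∧ 0 < C ∧ ∀ (j : ℕ), 3 ≤ j → ∀ (β : Bool) (s : ℝ),
    |s| ≤ b * (((8 * 2 ^ j : ℕ) : ℝ)) ^ (-(3/4) : ℝ) →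
    |Gn (8 * 2 ^ j) β (1/2 + s) - Gn (8 * 2 ^ j) β (1/2) - Hn (8 * 2 ^ j) β (1/2) * s| ≤
      C * (((8 * 2 ^ j : ℕ) : ℝ)) ^ (-(5/4) : ℝ) := by
  obtain ⟨κ, A, hκ, hA, hst⟩ := Pool.Agent.W424.NC.stabU
  obtain ⟨C1, hC1, hH⟩ := Hn_deriv hκ hA
  obtain ⟨C2, hC2, hG⟩ := Gn_split hκ hA
  have hA0 : 0 < A := by linarith
  refine ⟨1 / A, C1 * (1 / A) ^ 2 + C2 * (1 / A), by positivity, by positivity, ?_⟩
  intro j hj β s hs
  have hH' := fun q => hH q j hj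
  have hG' := fun q => hG q j
  obtain ⟨n, hn⟩ : ∃ n : ℕ, n = 8 * 2 ^ j := ⟨_, rfl⟩
  rw [← hn] at hs ⊢
  simp only [← hn] at hH' hG'
  have hj1 : 1 ≤ 2 ^ j := Nat.one_le_two_pow
  have hn1 : 1 ≤ n := by omega
  have hn0 : (0:ℝ) < n := by exact_mod_cast hn1
  obtain ⟨δ, hδ⟩ : ∃ δ : ℝ, δ = (1 / A) * (n:ℝ) ^ (-(3/4) : ℝ) := ⟨_, rfl⟩
  have hδ0 : 0 < δ := by rw [hδ]; positivity
  rw [← hδ] at hs
  have hwin : ∀ q : ℝ, |q - 1/2| ≤ δ → Win q κ n ∧ A4le q A 0 n := by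
    intro q hq
    apply hst n hn1 q
    refine hq.trans (le_of_eq ?_)
    rw [hδ]
    ring
  -- stability of `Hn`
  have hHlip : ∀ q : ℝ, |q - 1/2| ≤ δ → |Hn n β q - Hn n β (1/2)| ≤
      C1 * (n:ℝ) ^ (1/4 : ℝ) * |q - 1/2| := by
    intro q hq
    have hconv : Convex ℝ (Set.Icc (1/2 - δ) (1/2 + δ)) := convex_Icc _ _
    have hmem : ∀ x : ℝ, x ∈ Set.Icc (1/2 - δ) (1/2 + δ) → |x - 1/2| ≤ δ := by
      intro x hx
      rw [abs_le]
      constructor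
      · linarith [hx.1]
      · linarith [hx.2]
    choose D hD1 hD2 using fun (x : ℝ) (hx : x ∈ Set.Icc (1/2 - δ) (1/2 + δ)) =>
      hH' x (hwin x (hmem x hx)).1 (hwin x (hmem x hx)).2 β
    classical
    have h2 := Convex.norm_image_sub_le_of_norm_hasDerivWithin_le
      (f := Hn n β) (f' := fun x => if hx : x ∈ Set.Icc (1/2 - δ) (1/2 + δ) then D x hx else 0)
      (s := Set.Icc (1/2 - δ) (1/2 + δ)) (x := 1/2) (y := q)
      (C := C1 * (n:ℝ) ^ (1/4 : ℝ)) (fun x hx => by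
        rw [dif_pos hx]
        exact (hD1 x hx).hasDerivWithinAt) (fun x hx => by
        rw [dif_pos hx]
        exact hD2 x hx) hconv ⟨by linarith, by linarith⟩
      ⟨by linarith [(abs_le.mp hq).1], by linarith [(abs_le.mp hq).2]⟩
    exact h2
  have hbound : ∀ q : ℝ, |q - 1/2| ≤ δ →
      |(∑ e ∈ Sn n β, PQ q (Sn n β) (Pf (fB β) e)) - Hn n β (1/2)| ≤
        (C1 * (1 / A) + C2) * (n:ℝ) ^ (-(1/2) : ℝ) := by
    intro q hq
    have h2 := hG' q (hwin q hq).1 (hwin q hq).2 β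
    have h3 := hHlip q hq
    have h4 : C1 * (n:ℝ) ^ (1/4 : ℝ) * |q - 1/2| ≤ C1 * (1 / A) * (n:ℝ) ^ (-(1/2) : ℝ) := by
      calc C1 * (n:ℝ) ^ (1/4 : ℝ) * |q - 1/2| ≤
          C1 * (n:ℝ) ^ (1/4 : ℝ) * ((1 / A) * (n:ℝ) ^ (-(3/4) : ℝ)) := by
            rw [← hδ]
            exact mul_le_mul_of_nonneg_left hq (by positivity)
        _ = C1 * (1 / A) * ((n:ℝ) ^ (1/4 : ℝ) * (n:ℝ) ^ (-(3/4) : ℝ)) := by ring
        _ = C1 * (1 / A) * (n:ℝ) ^ (-(1/2) : ℝ) := by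
            rw [← Real.rpow_add hn0]
            norm_num
    have h5 := abs_sub_le (∑ e ∈ Sn n β, PQ q (Sn n β) (Pf (fB β) e)) (Hn n β q) (Hn n β (1/2))
    rw [add_mul]
    linarith
  -- the mean value inequality
  have hsI : ∀ t : ℝ, t ∈ Set.Icc (-δ) δ → |(1/2 + t) - 1/2| ≤ δ := by
    intro t ht
    rw [add_sub_cancel_left]
    exact abs_le.mpr ⟨ht.1, ht.2⟩
  have h6 := Convex.norm_image_sub_le_of_norm_hasDerivWithin_le
      (f := fun t => Gn n β (1/2 + t) - Hn n β (1/2) * t)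
      (f' := fun t => (∑ e ∈ Sn n β, PQ (1/2 + t) (Sn n β) (Pf (fB β) e)) - Hn n β (1/2))
      (s := Set.Icc (-δ) δ) (x := 0) (y := s)
      (C := (C1 * (1 / A) + C2) * (n:ℝ) ^ (-(1/2) : ℝ)) (fun t _ => by
        apply HasDerivAt.hasDerivWithinAt
        have g1 : HasDerivAt (fun t : ℝ => 1/2 + t) 1 t := (hasDerivAt_id t).const_add _
        have g2 := (Gn_deriv n β (1/2 + t)).comp t g1
        have g3 : HasDerivAt (fun t : ℝ => Hn n β (1/2) * t) (Hn n β (1/2)) t := by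
          simpa using (hasDerivAt_id t).const_mul (Hn n β (1/2))
        have g4 := g2.sub g3
        rw [mul_one] at g4
        exact g4) (fun t ht => hbound _ (hsI t ht)) (convex_Icc _ _)
      ⟨by linarith, by linarith⟩ ⟨by linarith [(abs_le.mp hs).1], by linarith [(abs_le.mp hs).2]⟩
  have h7 : Gn n β (1/2 + s) - Hn n β (1/2) * s - (Gn n β (1/2 + 0) - Hn n β (1/2) * 0) =
      Gn n β (1/2 + s) - Gn n β (1/2) - Hn n β (1/2) * s := by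
    rw [add_zero, mul_zero]
    ring
  simp only [Real.norm_eq_abs, sub_zero] at h6
  rw [h7] at h6
  refine h6.trans ?_
  have hpos : 0 ≤ (C1 * (1 / A) + C2) * (n:ℝ) ^ (-(1/2) : ℝ) := by positivity
  calc (C1 * (1 / A) + C2) * (n:ℝ) ^ (-(1/2) : ℝ) * |s| ≤
      (C1 * (1 / A) + C2) * (n:ℝ) ^ (-(1/2) : ℝ) * ((1 / A) * (n:ℝ) ^ (-(3/4) : ℝ)) := by
        rw [← hδ]
        exact mul_le_mul_of_nonneg_left hs hpos
    _ = (C1 * (1 / A) + C2) * (1 / A) * ((n:ℝ) ^ (-(1/2) : ℝ) * (n:ℝ) ^ (-(3/4) : ℝ)) := by ring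
    _ = (C1 * (1 / A) + C2) * (1 / A) * (n:ℝ) ^ (-(5/4) : ℝ) := by
        rw [← Real.rpow_add hn0]
        norm_num
    _ = (C1 * (1 / A) ^ 2 + C2 * (1 / A)) * (n:ℝ) ^ (-(5/4) : ℝ) := by ring

end Run7.h976
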