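import Pool.Agent.Run7.h976.TR7
import Pool.Agent.W424.NC.Stab

/-!
Bond percolation on `ℤ²`: the limit, as the box grows, of the probability that the end points of
an edge are connected without this edge.
-/

set_option autoImplicit false

namespace Run7.h976

open H974 H12S H973N H389NS H389NS.E1b Finset

/-- A path stays in the box or leaves it. -/
theorem reach_or_exit {n : ℕ} {F : Finset Edg} {u v : Vtx} (h : Reach (↑F : Set Edg) u v) :
    Reach (↑(F ∩ boxE n) : Set Edg) u v ∨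
      ∃ z : Vtx, (z.1 ≤ -(n:ℤ) ∨ (n:ℤ) ≤ z.1 ∨ z.2 ≤ -(n:ℤ) ∨ (n:ℤ) ≤ z.2) ∧
        Reach (↑(F ∩ boxE n) : Set Edg) u z := by
  induction h with
  | refl => exact Or.inl (Reach.refl _ _)
  | @tail w w' _ hs ih =>
    rcases ih with ih | ih
    · obtain ⟨e, he, hc⟩ := hs
      by_cases hb : e ∈ boxE n
      · left
        refine ih.trans (Adj.reach ⟨e, ?_, hc⟩)
        rw [Finset.mem_coe, Finset.mem_inter]
        exact ⟨Finset.mem_coe.mp he, hb⟩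
      · right
        refine ⟨w, notMem_box hb ?_, ih⟩
        rcases hc with ⟨h1, h2⟩ | ⟨h1, h2⟩
        · exact Or.inl h1.symm
        · exact Or.inr h2.symm
    · exact Or.inr ih

/-- The ends of `e0 β` are connected in the box, or there are four arms. -/
theorem fB_or {β : Bool} {n : ℕ} (hn : 1 ≤ n) {F : Finset Edg} (he : e0 β ∉ F) (h : fB β F) :
    fB β (F ∩ boxE n) ∨ A40 β n F := by
  by_cases h1 : fB β (F ∩ boxE n)
  · exact Or.inl h1
  · right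
    rw [fB_iff] at h h1
    obtain ⟨z, hz, h2⟩ := (reach_or_exit (n := n) h).resolve_left h1
    obtain ⟨z', hz', h3⟩ := (reach_or_exit (n := n) h.symm).resolve_left (fun h4 => h1 h4.symm)
    have h4 : A40 β n (F ∩ boxE n) :=
      A40_of hn (fun h5 => he (Finset.mem_inter.mp h5).1) hz hz' h2 h3 h1
    refine (A40_congr ?_).mp h4
    intro g hg _
    rw [Finset.mem_inter]
    exact ⟨fun h5 => h5.1, fun h5 => ⟨h5, hg⟩⟩

theorem e0_notMem_Sn (n : ℕ) (β : Bool) : e0 β ∉ Sn n β := by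
  unfold Sn
  exact Finset.notMem_erase _ _

/-- The probability increases with the ground set. -/
theorem Gn_le_set {q : ℝ} (h0 : 0 ≤ q) (h1 : q ≤ 1) {n : ℕ} {β : Bool} {S : Finset Edg}
    (hS : Sn n β ⊆ S) : Gn n β q ≤ PQ q S (fB β) := by
  have ok : Ok (fun _ : Edg => q) := fun _ => ⟨h0, h1⟩
  exact Pr_mono_set ok hS (fun _ _ h _ hF => fB_mono β h hF)

theorem set_le_Gn {q : ℝ} (h0 : 0 ≤ q) (h1 : q ≤ 1) {n : ℕ} {β : Bool} {S : Finset Edg}
    (hS : S ⊆ Sn n β) : PQ q S (fB β) ≤ Gn n β q := by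
  have ok : Ok (fun _ : Edg => q) := fun _ => ⟨h0, h1⟩
  exact Pr_mono_set ok hS (fun _ _ h _ hF => fB_mono β h hF)

theorem Sn_mono {n m : ℕ} (h : n ≤ m) (β : Bool) : Sn n β ⊆ Sn m β := by
  unfold Sn
  exact Finset.erase_subset_erase _ (box_sub_box h)

theorem Gn_mono {q : ℝ} (h0 : 0 ≤ q) (h1 : q ≤ 1) (β : Bool) :
    Monotone (fun n => Gn n β q) := fun _ _ h => Gn_le_set h0 h1 (Sn_mono h β)

theorem Gn_nonneg {q : ℝ} (h0 : 0 ≤ q) (h1 : q ≤ 1) (n : ℕ) (β : Bool) : 0 ≤ Gn n β q := by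
  have ok : Ok (fun _ : Edg => q) := fun _ => ⟨h0, h1⟩
  exact Pr_nonneg ok _ _

theorem Gn_le_one {q : ℝ} (h0 : 0 ≤ q) (h1 : q ≤ 1) (n : ℕ) (β : Bool) : Gn n β q ≤ 1 := by
  have ok : Ok (fun _ : Edg => q) := fun _ => ⟨h0, h1⟩
  exact Pr_le_one ok _ _

/-- The error made by a restriction to a box. -/
theorem set_le_add {q : ℝ} (h0 : 0 ≤ q) (h1 : q ≤ 1) {n : ℕ} (hn : 1 ≤ n) {β : Bool}
    {S : Finset Edg} (hS : Sn n β ⊆ S) (he : e0 β ∉ S) :
    PQ q S (fB β) ≤ Gn n β q + PQ q (Sn n β) (A40 β n) := by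
  have ok : Ok (fun _ : Edg => q) := fun _ => ⟨h0, h1⟩
  have s1 : PQ q S (fB β) ≤ PQ q S (fun F => fB β (F ∩ boxE n)) + PQ q S (A40 β n) := by
    refine (Pr_mono ok (fun F hF h => fB_or hn (fun h5 => he (hF h5)) h)).trans ?_
    exact Pr_or_le ok S _ _
  have s2 : PQ q S (A40 β n) = PQ q (Sn n β) (A40 β n) := by
    have := Pr_local (p := fun _ : Edg => q) (S := S) (S' := Sn n β) hS (A := A40 β n)
      (fun F _ => loc_A40 β n F)
    exact this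
  have s3 : PQ q S (fun F => fB β (F ∩ boxE n)) = Gn n β q := by
    have k1 : PQ q S (fun F => fB β (F ∩ boxE n)) =
        PQ q (Sn n β) (fun F => fB β (F ∩ boxE n)) := by
      apply Pr_local hS
      intro F hF
      have : F ∩ Sn n β ∩ boxE n = F ∩ boxE n := by
        ext x
        unfold Sn
        simp only [Finset.mem_inter, Finset.mem_erase]
        constructor
        · rintro ⟨⟨k2, _⟩, k3⟩
          exact ⟨k2, k3⟩
        · rintro ⟨k2, k3⟩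
          exact ⟨⟨k2, fun k4 => he (k4 ▸ hF k2), k3⟩, k3⟩
      rw [this]
    rw [k1]
    apply Pr_congr
    intro F hF
    have : F ∩ boxE n = F := by
      rw [Finset.inter_eq_left]
      exact hF.trans (Finset.erase_subset _ _)
    rw [this]
  linarith

/-- The limit. -/
noncomputable def gI (β : Bool) (q : ℝ) : ℝ := ⨆ n : ℕ, Gn n β q

theorem gI_bdd {q : ℝ} (h0 : 0 ≤ q) (h1 : q ≤ 1) (β : Bool) :
    BddAbove (Set.range (fun n : ℕ => Gn n β q)) :=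
  ⟨1, by rintro _ ⟨n, rfl⟩; exact Gn_le_one h0 h1 n β⟩

theorem Gn_le_gI {q : ℝ} (h0 : 0 ≤ q) (h1 : q ≤ 1) (n : ℕ) (β : Bool) : Gn n β q ≤ gI β q :=
  le_ciSup (gI_bdd h0 h1 β) n

theorem gI_tendsto {q : ℝ} (h0 : 0 ≤ q) (h1 : q ≤ 1) (β : Bool) :
    Filter.Tendsto (fun n : ℕ => Gn n β q) Filter.atTop (nhds (gI β q)) :=
  tendsto_atTop_ciSup (Gn_mono h0 h1 β) (gI_bdd h0 h1 β)

theorem gI_nonneg {q : ℝ} (h0 : 0 ≤ q) (h1 : q ≤ 1) (β : Bool) : 0 ≤ gI β q :=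
  (Gn_nonneg h0 h1 0 β).trans (Gn_le_gI h0 h1 0 β)

theorem gI_le_one {q : ℝ} (h0 : 0 ≤ q) (h1 : q ≤ 1) (β : Bool) : gI β q ≤ 1 :=
  ciSup_le (fun n => Gn_le_one h0 h1 n β)

theorem exists_Sn {β : Bool} {S : Finset Edg} (he : e0 β ∉ S) : ∃ M : ℕ, S ⊆ Sn M β := by
  refine ⟨∑ e ∈ S, (nm e + 1), ?_⟩
  intro e h
  unfold Sn
  rw [Finset.mem_erase]
  refine ⟨fun h2 => he (h2 ▸ h), mem_boxE_of ?_⟩
  exact Finset.single_le_sum (f := fun e => nm e + 1) (fun _ _ => Nat.zero_le _) h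

/-- Any finite ground set gives less than the limit. -/
theorem set_le_gI {q : ℝ} (h0 : 0 ≤ q) (h1 : q ≤ 1) {β : Bool} {S : Finset Edg}
    (he : e0 β ∉ S) : PQ q S (fB β) ≤ gI β q := by
  obtain ⟨M, hM⟩ := exists_Sn he
  exact (set_le_Gn h0 h1 hM).trans (Gn_le_gI h0 h1 M β)

theorem gI_le_add {q : ℝ} (h0 : 0 ≤ q) (h1 : q ≤ 1) {n : ℕ} (hn : 1 ≤ n) (β : Bool) :
    gI β q ≤ Gn n β q + PQ q (Sn n β) (A40 β n) := by
  apply ciSup_le
  intro m
  exact (Gn_mono h0 h1 β (le_max_left m n)).trans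
    (set_le_add h0 h1 hn (Sn_mono (le_max_right m n) β) (e0_notMem_Sn _ _))

/-- Four arms contain an open arm and a dual arm. -/
theorem A40_arm {q : ℝ} (h0 : 0 ≤ q) (h1 : q ≤ 1) {n : ℕ} (hn : 1 ≤ n) (β : Bool) :
    PQ q (Sn n β) (A40 β n) ≤ arm (1/2) n := by
  have ok : Ok (fun _ : Edg => q) := fun _ => ⟨h0, h1⟩
  rcases le_total q (1/2) with h | h
  · refine le_trans ?_ (arm_mono_param h0 h (by norm_num) n)
    refine le_trans ?_ (arm_bound h0 h1 (Sn n β) (0, 0) n)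
    apply Pr_mono ok
    rintro F _ ⟨⟨w, hw, hr⟩, _, _⟩
    refine ⟨w, ?_, ?_⟩
    · obtain ⟨_, hw2⟩ := hw
      simp only
      omega
    · have e1 : src (e0 β) = (0, 0) := rfl
      rw [← e1]
      exact hr.mono (fun x hx => hx.1.1)
  · refine le_trans ?_ (arm_mono_param (p := 1 - q) (by linarith) (by linarith) (by norm_num) n)
    refine le_trans ?_ (arm_bound (by linarith) (by linarith) (dmp (Sn n β)) (0, 0) n)
    have e0' := pr_dual (q := q) (Sn n β) (fun G => ∃ u : Vtx, (u.1 ≤ (0, 0).1 - (n:ℤ) ∨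
      (0, 0).1 + (n:ℤ) ≤ u.1 ∨ u.2 ≤ (0, 0).2 - (n:ℤ) ∨
      (0, 0).2 + (n:ℤ) ≤ u.2) ∧ Reach (↑G : Set Edg) (0, 0) u)
    unfold PQ at e0'
    rw [← e0']
    apply Pr_mono ok
    rintro F hF ⟨hu, hv, huv⟩
    have hin : e0 β ∈ RE (-(n:ℤ)) n (-(n:ℤ)) n := mem_boxE_of (by rw [nm_e0]; omega)
    obtain ⟨g, hg, hr⟩ := dual_arm (a := -(n:ℤ)) (b := n) (c := -(n:ℤ)) (d := n)
      (F := ((↑F : Set Edg) ∩ ↑(RE (-(n:ℤ)) n (-(n:ℤ)) n)) \ {e0 β})
      (fun x hx => hx.1.2) hin (fun hx => hx.2 rfl) hu hv huv (f0 := dtgt (e0 β))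
      (f1 := dsrc (e0 β)) (Or.inr ⟨rfl, rfl⟩)
    refine ⟨g, ?_, ?_⟩
    · unfold outF at hg
      simp only [Set.mem_ofPred_eq] at hg
      simp only
      omega
    · rw [coe_dmp, reach_dl]
      have e1 : dtgt (e0 β) = (0, 0) := rfl
      rw [← e1]
      refine hr.mono ?_
      rintro x ⟨⟨k1, k2⟩, k3⟩
      rw [Finset.mem_coe, Finset.mem_sdiff]
      unfold Sn boxE
      rw [Finset.mem_erase]
      refine ⟨⟨k3, k1⟩, fun k4 => k2 ⟨⟨k4, k1⟩, k3⟩⟩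

theorem gI_arm {q : ℝ} (h0 : 0 ≤ q) (h1 : q ≤ 1) {n : ℕ} (hn : 1 ≤ n) (β : Bool) :
    gI β q - Gn n β q ≤ arm (1/2) n := by
  have h2 := gI_le_add h0 h1 hn β
  have h3 := A40_arm h0 h1 hn β
  linarith

theorem arm_lim : Filter.Tendsto (fun n : ℕ => arm (1/2) n) Filter.atTop (nhds 0) := by
  obtain ⟨c, C, hc, hC, h⟩ := Pool.Agent.W424.NC.arm_crit
  have h1 : Filter.Tendsto (fun n : ℕ => C * (n:ℝ) ^ (-(5/48) : ℝ)) Filter.atTop (nhds 0) := by
    have h2 : Filter.Tendsto (fun n : ℕ => (n:ℝ) ^ (-(5/48) : ℝ)) Filter.atTop (nhds 0) :=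
      (tendsto_rpow_neg_atTop (by norm_num : (0:ℝ) < 5/48)).comp tendsto_natCast_atTop_atTop
    simpa using h2.const_mul C
  refine squeeze_zero' ?_ ?_ h1
  · filter_upwards with n
    exact arm_nonneg (by norm_num) (by norm_num) n
  · filter_upwards [Filter.eventually_ge_atTop 1] with n hn
    exact (h n hn).2

theorem Gn_cont (n : ℕ) (β : Bool) : Continuous (Gn n β) :=
  continuous_iff_continuousAt.mpr (fun q => (Gn_deriv n β q).continuousAt)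

/-- The limit is continuous. -/
theorem gI_cont (β : Bool) : ContinuousOn (gI β) (Set.Icc 0 1) := by
  have hu : TendstoUniformlyOn (fun n : ℕ => Gn n β) (gI β) Filter.atTop (Set.Icc 0 1) := by
    rw [Metric.tendstoUniformlyOn_iff]
    intro ε hε
    have h1 := (Metric.tendsto_atTop.mp arm_lim) ε hε
    obtain ⟨N, hN⟩ := h1
    filter_upwards [Filter.eventually_ge_atTop (max N 1)] with n hn q hq
    have h2 := hN n ((le_max_left _ _).trans hn)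
    rw [Real.dist_eq, sub_zero, abs_of_nonneg (arm_nonneg (by norm_num) (by norm_num) n)] at h2
    rw [Real.dist_eq, abs_of_nonneg (by linarith [Gn_le_gI hq.1 hq.2 n β])]
    exact (gI_arm hq.1 hq.2 ((le_max_right _ _).trans hn) β).trans_lt h2
  exact hu.continuousOn (Filter.Frequently.of_forall (fun n => (Gn_cont n β).continuousOn))

/-- The error in the near-critical window. -/
theorem gI_win {q A : ℝ} (h0 : 0 ≤ q) (h1 : q ≤ 1) {n : ℕ} (hn : 1 ≤ n) (h : A4le q A 0 n)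
    (hA : 0 < A) (β : Bool) : gI β q - Gn n β q ≤ A * (n:ℝ) ^ (-(5/4) : ℝ) := by
  have h2 := gI_le_add h0 h1 hn β
  have h3 : PQ q (Sn n β) (A40 β n) ≤ a4 q n := pr_A40 h0 h1 (box_sub_Sn β le_rfl)
  have h4 := a4_le_psi h (le_refl n)
  have hn0 : (0:ℝ) < n := by exact_mod_cast hn
  have h5 : psi n ≤ (n:ℝ) ^ (-(5/4) : ℝ) := by
    unfold psi
    exact Real.rpow_le_rpow_of_nonpos hn0 (by linarith) (by norm_num)
  have h6 : A * psi n ≤ A * (n:ℝ) ^ (-(5/4) : ℝ) := mul_le_mul_of_nonneg_left h5 hA.le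
  linarith

/-- **Affine approximation of the limit.** -/
theorem affine2 : ∃ b C : ℝ, 0 < b ∧ 0 < C ∧ ∀ (j : ℕ), 3 ≤ j → ∀ (β : Bool) (s : ℝ),
    |s| ≤ b * (((8 * 2 ^ j : ℕ) : ℝ)) ^ (-(3/4) : ℝ) →
    |gI β (1/2 + s) - Gn (8 * 2 ^ j) β (1/2) - Hn (8 * 2 ^ j) β (1/2) * s| ≤
      C * (((8 * 2 ^ j : ℕ) : ℝ)) ^ (-(5/4) : ℝ) := by
  obtain ⟨b1, C1, hb1, hC1, haff⟩ := affine
  obtain ⟨κ, A, hκ, hA, hst⟩ := Pool.Agent.W424.NC.stabU
  have hA0 : 0 < A := by linarith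
  refine ⟨min b1 (1 / A), C1 + A, lt_min hb1 (by positivity), by positivity, ?_⟩
  intro j hj β s hs
  have haff' := fun hs' => haff j hj β s hs'
  obtain ⟨n, hn⟩ : ∃ n : ℕ, n = 8 * 2 ^ j := ⟨_, rfl⟩
  rw [← hn] at hs haff' ⊢
  have hj1 : 1 ≤ 2 ^ j := Nat.one_le_two_pow
  have hn1 : 1 ≤ n := by omega
  have hn0 : (0:ℝ) < n := by exact_mod_cast hn1
  have hp : 0 ≤ (n:ℝ) ^ (-(3/4) : ℝ) := by positivity
  have s1 : |s| ≤ b1 * (n:ℝ) ^ (-(3/4) : ℝ) :=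
    hs.trans (mul_le_mul_of_nonneg_right (min_le_left _ _) hp)
  have s2 : |s| ≤ 1 / A * (n:ℝ) ^ (-(3/4) : ℝ) :=
    hs.trans (mul_le_mul_of_nonneg_right (min_le_right _ _) hp)
  have h1 := haff' s1
  obtain ⟨hW, h4⟩ := hst n hn1 (1/2 + s) (by
    rw [add_sub_cancel_left]
    refine s2.trans (le_of_eq ?_)
    ring)
  have q0 : 0 ≤ 1/2 + s := by linarith [hW.lo]
  have q1 : 1/2 + s ≤ 1 := by linarith [hW.hi]
  have h5 := gI_win q0 q1 hn1 h4 hA0 β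
  have h6 := Gn_le_gI q0 q1 n β
  have h7 : gI β (1/2 + s) - Gn n β (1/2) - Hn n β (1/2) * s =
      (gI β (1/2 + s) - Gn n β (1/2 + s)) +
        (Gn n β (1/2 + s) - Gn n β (1/2) - Hn n β (1/2) * s) := by ring
  rw [h7]
  refine (abs_add_le _ _).trans ?_
  rw [abs_of_nonneg (by linarith : (0:ℝ) ≤ gI β (1/2 + s) - Gn n β (1/2 + s)), add_mul]
  linarith

end Run7.h976
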