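import Pool.Agent.Run7.h976.TR8

/-!
From affine approximations at all dyadic scales to differentiability with a power remainder.
-/

set_option autoImplicit false

namespace Run7.h976

open Finset

/-- Affine approximations at the scales `8 * 2 ^ j` give a derivative with a power error. -/
theorem campanato {f : ℝ → ℝ} {b C M : ℝ} (hb : 0 < b) (hC : 0 < C) {Aj Bj : ℕ → ℝ}
    (h : ∀ j : ℕ, 3 ≤ j → ∀ s : ℝ, |s| ≤ b * (((8 * 2 ^ j : ℕ) : ℝ)) ^ (-(3/4) : ℝ) →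
      |f s - Aj j - Bj j * s| ≤ C * (((8 * 2 ^ j : ℕ) : ℝ)) ^ (-(5/4) : ℝ))
    (hM : ∀ s : ℝ, |s| ≤ 1/2 → |f s| ≤ M) :
    ∃ a D : ℝ, 0 < D ∧ ∀ s : ℝ, |s| ≤ 1/2 → |f s - f 0 - a * s| ≤ D * |s| ^ (5/3 : ℝ) := by
  obtain ⟨N, hN⟩ : ∃ N : ℕ → ℝ, ∀ j, N j = ((8 * 2 ^ j : ℕ) : ℝ) := ⟨_, fun _ => rfl⟩
  simp only [← hN] at h
  have hNs : ∀ j, N (j + 1) = 2 * N j := by
    intro j
    rw [hN, hN]
    push_cast
    ring
  have hN0 : ∀ j, 0 < N j := by
    intro j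
    rw [hN]
    positivity
  have hN8 : ∀ j, N j = 8 * 2 ^ j := by
    intro j
    rw [hN]
    push_cast
    ring
  have hmono : ∀ j, N (j + 1) ^ (-(3/4) : ℝ) ≤ N j ^ (-(3/4) : ℝ) := by
    intro j
    exact Real.rpow_le_rpow_of_nonpos (hN0 j) (by rw [hNs]; linarith [hN0 j]) (by norm_num)
  have hmono5 : ∀ j, N (j + 1) ^ (-(5/4) : ℝ) ≤ N j ^ (-(5/4) : ℝ) := by
    intro j
    exact Real.rpow_le_rpow_of_nonpos (hN0 j) (by rw [hNs]; linarith [hN0 j]) (by norm_num)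
  -- the value at zero
  have hA0 : ∀ j, 3 ≤ j → |f 0 - Aj j| ≤ C * N j ^ (-(5/4) : ℝ) := by
    intro j hj
    have h1 := h j hj 0 (by
      rw [abs_zero]
      have := hN0 j
      positivity)
    simpa using h1
  -- the slopes
  obtain ⟨K, hK⟩ : ∃ K : ℝ, K = 4 * C / (b * 2 ^ (-(3/4) : ℝ)) := ⟨_, rfl⟩
  have hK0 : 0 < K := by rw [hK]; positivity
  have hB : ∀ j, 3 ≤ j → |Bj (j + 1) - Bj j| ≤ K * N j ^ (-(1/2) : ℝ) := by
    intro j hj
    obtain ⟨δ, hδ⟩ : ∃ δ : ℝ, δ = b * N (j + 1) ^ (-(3/4) : ℝ) := ⟨_, rfl⟩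
    have hδ0 : 0 < δ := by
      have := hN0 (j + 1)
      rw [hδ]; positivity
    have h1 := h (j + 1) (by omega) δ (by rw [abs_of_pos hδ0, hδ])
    have h2 := h j hj δ (by
      rw [abs_of_pos hδ0, hδ]
      exact mul_le_mul_of_nonneg_left (hmono j) hb.le)
    have h3 := hA0 (j + 1) (by omega)
    have h4 := hA0 j hj
    have h5 := mul_le_mul_of_nonneg_left (hmono5 j) hC.le
    have h6 : |(Bj (j + 1) - Bj j) * δ| ≤ 4 * C * N j ^ (-(5/4) : ℝ) := by
      rw [abs_le] at h1 h2 h3 h4 ⊢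
      constructor <;> nlinarith [h1.1, h1.2, h2.1, h2.2, h3.1, h3.2, h4.1, h4.2]
    rw [abs_mul, abs_of_pos hδ0] at h6
    have h7 : K * N j ^ (-(1/2) : ℝ) * δ = 4 * C * N j ^ (-(5/4) : ℝ) := by
      rw [hδ, hNs, Real.mul_rpow (by norm_num) (hN0 j).le, hK]
      have e1 : N j ^ (-(5/4) : ℝ) = N j ^ (-(1/2) : ℝ) * N j ^ (-(3/4) : ℝ) := by
        rw [← Real.rpow_add (hN0 j)]
        norm_num
      rw [e1]
      have h20 : (0:ℝ) < 2 ^ (-(3/4) : ℝ) := by positivity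
      field_simp
    rw [← h7] at h6
    exact le_of_mul_le_mul_right h6 hδ0
  -- the limit slope
  obtain ⟨r, hr⟩ : ∃ r : ℝ, r = 2 ^ (-(1/2) : ℝ) := ⟨_, rfl⟩
  have hr0 : 0 < r := by rw [hr]; positivity
  have hr1 : r < 1 := by
    rw [hr]
    exact Real.rpow_lt_one_of_one_lt_of_neg (by norm_num) (by norm_num)
  have hNr : ∀ j, N (j + 1) ^ (-(1/2) : ℝ) = r * N j ^ (-(1/2) : ℝ) := by
    intro j
    rw [hNs, Real.mul_rpow (by norm_num) (hN0 j).le, hr]
  have hNrk : ∀ j k, N (j + k) ^ (-(1/2) : ℝ) = r ^ k * N j ^ (-(1/2) : ℝ) := by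
    intro j k
    induction k with
    | zero => simp
    | succ k ih =>
      rw [← add_assoc, hNr, ih, pow_succ]
      ring
  have hdist : ∀ j, 3 ≤ j → ∀ k, dist (Bj (j + k)) (Bj (j + (k + 1))) ≤
      K * N j ^ (-(1/2) : ℝ) * r ^ k := by
    intro j hj k
    rw [dist_comm, Real.dist_eq, ← add_assoc]
    refine (hB (j + k) (by omega)).trans (le_of_eq ?_)
    rw [hNrk]
    ring
  have hcau := cauchySeq_of_le_geometric r _ hr1 (hdist 3 le_rfl)
  obtain ⟨a, ha⟩ := cauchySeq_tendsto_of_complete hcau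
  have hlim : ∀ j, 3 ≤ j → |Bj j - a| ≤ K / (1 - r) * N j ^ (-(1/2) : ℝ) := by
    intro j hj
    have ha' : Filter.Tendsto (fun k => Bj (j + k)) Filter.atTop (nhds a) := by
      have h1 : (fun k => Bj (j + k)) = (fun k => (fun i => Bj (3 + i)) (k + (j - 3))) := by
        funext k
        simp only
        congr 1
        omega
      rw [h1]
      exact (Filter.tendsto_add_atTop_iff_nat (j - 3)).mpr ha
    have h2 := dist_le_of_le_geometric_of_tendsto₀ r _ hr1 (hdist j hj) ha'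
    rw [Real.dist_eq, add_zero] at h2
    refine h2.trans (le_of_eq ?_)
    ring
  -- the estimate at the scale `j`
  obtain ⟨L, hL⟩ : ∃ L : ℝ, L = 2 * C + K / (1 - r) * b := ⟨_, rfl⟩
  have hr2 : 0 < 1 - r := by linarith
  have hL0 : 0 < L := by rw [hL]; positivity
  have hscale : ∀ j, 3 ≤ j → ∀ s : ℝ, |s| ≤ b * N j ^ (-(3/4) : ℝ) →
      |f s - f 0 - a * s| ≤ L * N j ^ (-(5/4) : ℝ) := by
    intro j hj s hs
    have h1 := h j hj s hs
    have h2 := hA0 j hj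
    have h3 := hlim j hj
    have h4 : |(Bj j - a) * s| ≤ K / (1 - r) * b * N j ^ (-(5/4) : ℝ) := by
      rw [abs_mul]
      calc |Bj j - a| * |s| ≤ (K / (1 - r) * N j ^ (-(1/2) : ℝ)) * (b * N j ^ (-(3/4) : ℝ)) :=
            mul_le_mul h3 hs (abs_nonneg _) (by have := hN0 j; positivity)
        _ = K / (1 - r) * b * (N j ^ (-(1/2) : ℝ) * N j ^ (-(3/4) : ℝ)) := by ring
        _ = K / (1 - r) * b * N j ^ (-(5/4) : ℝ) := by
            rw [← Real.rpow_add (hN0 j)]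
            norm_num
    have h5 : f s - f 0 - a * s = (f s - Aj j - Bj j * s) + (-(f 0 - Aj j)) + (Bj j - a) * s := by
      ring
    rw [h5]
    refine (abs_add_three _ _ _).trans ?_
    rw [abs_neg, hL]
    linarith
  -- small and large `s`
  obtain ⟨s0, hs0⟩ : ∃ s0 : ℝ, s0 = b * N 3 ^ (-(3/4) : ℝ) := ⟨_, rfl⟩
  have hs00 : 0 < s0 := by
    have := hN0 3
    rw [hs0]; positivity
  obtain ⟨D1, hD1⟩ : ∃ D1 : ℝ, D1 = L * (2 ^ (3/4 : ℝ) / b) ^ (5/3 : ℝ) := ⟨_, rfl⟩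
  have hD10 : 0 < D1 := by rw [hD1]; positivity
  have hM0 : 0 ≤ M := (abs_nonneg _).trans (hM 0 (by norm_num))
  obtain ⟨D2, hD2⟩ : ∃ D2 : ℝ, D2 = (2 * M + |a|) / s0 ^ (5/3 : ℝ) := ⟨_, rfl⟩
  have hD20 : 0 ≤ D2 := by rw [hD2]; positivity
  refine ⟨a, D1 + D2, by positivity, ?_⟩
  intro s hs
  rcases eq_or_ne s 0 with rfl | hs1
  · simp
  have hsp : 0 < |s| := abs_pos.mpr hs1
  have hsr : 0 < |s| ^ (5/3 : ℝ) := by positivity
  rcases le_or_gt |s| s0 with hle | hgt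
  · -- choose the scale
    have hex : ∃ j : ℕ, 3 ≤ j ∧ b * N (j + 1) ^ (-(3/4) : ℝ) < |s| := by
      have h1 : Filter.Tendsto (fun j : ℕ => b * N (j + 1) ^ (-(3/4) : ℝ)) Filter.atTop
          (nhds 0) := by
        have h2 : Filter.Tendsto (fun j : ℕ => N (j + 1)) Filter.atTop Filter.atTop := by
          have h3 : (fun j : ℕ => N (j + 1)) = (fun j : ℕ => 16 * (2:ℝ) ^ j) := by
            funext j
            rw [hN8, pow_succ]
            ring
          rw [h3]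
          exact (tendsto_pow_atTop_atTop_of_one_lt (by norm_num)).const_mul_atTop (by norm_num)
        have h4 := ((tendsto_rpow_neg_atTop (by norm_num : (0:ℝ) < 3/4)).comp h2).const_mul b
        simpa using h4
      obtain ⟨j, hj1, hj2⟩ := ((h1.eventually (gt_mem_nhds hsp)).and
        (Filter.eventually_ge_atTop 3)).exists
      exact ⟨j, hj2, hj1⟩
    classical
    obtain ⟨hj3, hjs⟩ := Nat.find_spec hex
    have hjmin : |s| ≤ b * N (Nat.find hex) ^ (-(3/4) : ℝ) := by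
      rcases Nat.eq_or_lt_of_le hj3 with h1 | h1
      · rw [← h1, ← hs0]
        exact hle
      · by_contra hcon
        push Not at hcon
        have h2 := Nat.find_min hex (m := Nat.find hex - 1) (by omega)
        apply h2
        refine ⟨by omega, ?_⟩
        rw [Nat.sub_add_cancel (by omega)]
        exact hcon
    obtain ⟨j, hj⟩ : ∃ j : ℕ, j = Nat.find hex := ⟨_, rfl⟩
    rw [← hj] at hj3 hjs hjmin
    refine (hscale j hj3 s hjmin).trans ?_
    have hNj := hN0 j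
    have h1 : N j ^ (-(3/4) : ℝ) ≤ 2 ^ (3/4 : ℝ) / b * |s| := by
      rw [hNs, Real.mul_rpow (by norm_num) hNj.le] at hjs
      have h2 : (2:ℝ) ^ (-(3/4) : ℝ) = (2 ^ (3/4 : ℝ))⁻¹ := Real.rpow_neg (by norm_num) _
      rw [h2] at hjs
      have h20 : (0:ℝ) < 2 ^ (3/4 : ℝ) := by positivity
      have h3 : N j ^ (-(3/4) : ℝ) = 2 ^ (3/4 : ℝ) / b * (b * ((2 ^ (3/4 : ℝ))⁻¹ *
          N j ^ (-(3/4) : ℝ))) := by
        field_simp
      rw [h3]
      exact mul_le_mul_of_nonneg_left hjs.le (by positivity)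
    have h4 : N j ^ (-(5/4) : ℝ) ≤ (2 ^ (3/4 : ℝ) / b) ^ (5/3 : ℝ) * |s| ^ (5/3 : ℝ) := by
      have h5 : N j ^ (-(5/4) : ℝ) = (N j ^ (-(3/4) : ℝ)) ^ (5/3 : ℝ) := by
        rw [← Real.rpow_mul hNj.le]
        norm_num
      rw [h5, ← Real.mul_rpow (by positivity) (abs_nonneg s)]
      exact Real.rpow_le_rpow (by positivity) h1 (by norm_num)
    calc L * N j ^ (-(5/4) : ℝ) ≤ L * ((2 ^ (3/4 : ℝ) / b) ^ (5/3 : ℝ) * |s| ^ (5/3 : ℝ)) :=
          mul_le_mul_of_nonneg_left h4 hL0.le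
      _ = D1 * |s| ^ (5/3 : ℝ) := by rw [hD1]; ring
      _ ≤ (D1 + D2) * |s| ^ (5/3 : ℝ) :=
          mul_le_mul_of_nonneg_right (by linarith) hsr.le
  · have h1 : |f s - f 0 - a * s| ≤ 2 * M + |a| := by
      have h2 := hM s hs
      have h3 := hM 0 (by norm_num)
      have h4 : |a * s| ≤ |a| := by
        rw [abs_mul]
        have : |a| * |s| ≤ |a| * 1 := mul_le_mul_of_nonneg_left (by linarith) (abs_nonneg a)
        linarith
      have h5 : f s - f 0 - a * s = f s + (-(f 0)) + (-(a * s)) := by ring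
      rw [h5]
      refine (abs_add_three _ _ _).trans ?_
      rw [abs_neg, abs_neg]
      linarith
    refine h1.trans ?_
    have hs53 : 0 < s0 ^ (5/3 : ℝ) := by positivity
    have h6 : s0 ^ (5/3 : ℝ) ≤ |s| ^ (5/3 : ℝ) :=
      Real.rpow_le_rpow hs00.le hgt.le (by norm_num)
    have h7 : 2 * M + |a| = D2 * s0 ^ (5/3 : ℝ) := by
      rw [hD2]
      field_simp
    rw [h7]
    calc D2 * s0 ^ (5/3 : ℝ) ≤ D2 * |s| ^ (5/3 : ℝ) := mul_le_mul_of_nonneg_left h6 hD20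
      _ ≤ (D1 + D2) * |s| ^ (5/3 : ℝ) := mul_le_mul_of_nonneg_right (by linarith) hsr.le

/-- **The limit is differentiable at `1/2` with a remainder of order `5/3`.** -/
theorem gI_expand (β : Bool) : ∃ a D : ℝ, 0 < D ∧ ∀ s : ℝ, |s| ≤ 1/2 →
    |gI β (1/2 + s) - gI β (1/2) - a * s| ≤ D * |s| ^ (5/3 : ℝ) := by
  obtain ⟨b, C, hb, hC, h⟩ := affine2
  obtain ⟨a, D, hD, h1⟩ := campanato (f := fun s => gI β (1/2 + s)) (M := 1) hb hC
    (Aj := fun j => Gn (8 * 2 ^ j) β (1/2)) (Bj := fun j => Hn (8 * 2 ^ j) β (1/2))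
    (fun j hj s hs => h j hj β s hs) (fun s hs => by
      have h2 := abs_le.mp hs
      have q0 : 0 ≤ 1/2 + s := by linarith [h2.1]
      have q1 : 1/2 + s ≤ 1 := by linarith [h2.2]
      rw [abs_of_nonneg (gI_nonneg q0 q1 β)]
      exact gI_le_one q0 q1 β)
  refine ⟨a, D, hD, ?_⟩
  intro s hs
  have := h1 s hs
  simpa using this

end Run7.h976
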