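import Pool.Agent.Run7.h976.TR9

/-!
Bond percolation on `ℤ²`: the mean number of clusters in a box and its derivative.
-/

set_option autoImplicit false

namespace Run7.h976

open H974 H12S H973N H389NS H389NS.E1b Finset

/-- The vertices of the `N × N` box. -/
noncomputable def VB (N : ℕ) : Finset Vtx := Finset.Icc 0 ((N:ℤ) - 1) ×ˢ Finset.Icc 0 ((N:ℤ) - 1)

/-- The edges with both end points in the box. -/
noncomputable def EB (N : ℕ) : Finset Edg := RE 0 ((N:ℤ) - 1) 0 ((N:ℤ) - 1)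

/-- The mean number of clusters. -/
noncomputable def KN (N : ℕ) (q : ℝ) : ℝ :=
  Ex (fun _ => q) (EB N) (nc (VB N) Set.univ)

/-- The probability that the end points of `e` are connected without `e`. -/
noncomputable def Pe (N : ℕ) (q : ℝ) (e : Edg) : ℝ :=
  PQ q ((EB N).erase e) (fun F => Reach (↑F : Set Edg) (src e) (tgt e))

theorem EB_ends {N : ℕ} {e : Edg} (h : e ∈ EB N) : src e ∈ VB N ∧ tgt e ∈ VB N := by
  obtain ⟨x, y, _ | _⟩ := e
  · unfold EB at h
    rw [mem_RE_false] at h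
    unfold VB
    simp only [src_mk, tgt_false, Finset.mem_product, Finset.mem_Icc]
    omega
  · unfold EB at h
    rw [mem_RE_true] at h
    unfold VB
    simp only [src_mk, tgt_true, Finset.mem_product, Finset.mem_Icc]
    omega

theorem RB_univ {F : Set Edg} {x : Vtx} : RB src tgt Set.univ F x :=
  ⟨x, Set.mem_univ _, GR.refl _ _⟩

theorem KN_deriv (N : ℕ) (q : ℝ) : HasDerivAt (KN N) (-(∑ e ∈ EB N, (1 - Pe N q e))) q := by
  have h1 := Ex_hasDerivAt (fun (q : ℝ) (_ : Edg) => q) (fun _ => 1) q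
    (fun _ => hasDerivAt_id q) (EB N) (nc (VB N) Set.univ)
  have h2 : ∑ e ∈ EB N, (1:ℝ) * Ex (fun _ => q) ((EB N).erase e)
      (fun F => nc (VB N) Set.univ (insert e F) - nc (VB N) Set.univ F) =
      -(∑ e ∈ EB N, (1 - Pe N q e)) := by
    rw [← Finset.sum_neg_distrib]
    apply Finset.sum_congr rfl
    intro e he
    obtain ⟨hs, ht⟩ := EB_ends he
    rw [one_mul]
    have h3 : Ex (fun _ => q) ((EB N).erase e)
        (fun F => nc (VB N) Set.univ (insert e F) - nc (VB N) Set.univ F) =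
        Ex (fun _ => q) ((EB N).erase e)
        (fun F => (-1) * ind (¬ Reach (↑F : Set Edg) (src e) (tgt e))) := by
      apply Ex_congr
      intro F _
      have h4 := nc_insert (B := Set.univ) (F := F) hs ht
      have h5 : ind (RB src tgt Set.univ (↑F : Set Edg) (src e) ∧
          RB src tgt Set.univ (↑F : Set Edg) (tgt e) ∧
          ¬ Reach (↑F : Set Edg) (src e) (tgt e)) =
          ind (¬ Reach (↑F : Set Edg) (src e) (tgt e)) :=
        ind_congr ⟨fun h => h.2.2, fun h => ⟨RB_univ, RB_univ, h⟩⟩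
      rw [h5] at h4
      linarith
    rw [h3, Ex_mul_left]
    have h6 := Pr_not (p := fun _ : Edg => q) ((EB N).erase e)
      (fun F => Reach (↑F : Set Edg) (src e) (tgt e))
    unfold Pe PQ
    unfold Pr at h6 ⊢
    rw [h6]
    ring
  rw [h2] at h1
  exact h1

theorem Pe_trl (N : ℕ) (q : ℝ) (e : Edg) :
    Pe N q e = PQ q ((trl (-e.1) (-e.2.1)).mp ((EB N).erase e)) (fB e.2.2) := by
  unfold Pe PQ
  rw [LSym.pr]
  apply Pr_congr
  intro F _
  rw [fB_iff, LSym.coe_mp]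
  obtain ⟨x, y, b⟩ := e
  have h1 : src (e0 b) = (trl (-x) (-y)).ψ (src (x, y, b)) := by
    unfold e0
    simp
  have h2 : tgt (e0 b) = (trl (-x) (-y)).ψ (tgt (x, y, b)) := by
    unfold e0
    cases b
    · simp
    · simp
  simp only
  rw [h1, h2]
  exact (LSym.reach_iff _).symm

theorem Pe_notMem (N : ℕ) (e : Edg) :
    e0 e.2.2 ∉ (trl (-e.1) (-e.2.1)).mp ((EB N).erase e) := by
  rw [LSym.mem_mp]
  obtain ⟨x, y, b⟩ := e
  unfold e0
  simp

theorem Pe_le {q : ℝ} (h0 : 0 ≤ q) (h1 : q ≤ 1) (N : ℕ) (e : Edg) : Pe N q e ≤ gI e.2.2 q := by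
  rw [Pe_trl]
  exact set_le_gI h0 h1 (Pe_notMem N e)

theorem Pe_nonneg {q : ℝ} (h0 : 0 ≤ q) (h1 : q ≤ 1) (N : ℕ) (e : Edg) : 0 ≤ Pe N q e := by
  have ok : Ok (fun _ : Edg => q) := fun _ => ⟨h0, h1⟩
  exact Pr_nonneg ok _ _

theorem Pe_ge {q : ℝ} (h0 : 0 ≤ q) (h1 : q ≤ 1) {N m : ℕ} {e : Edg}
    (h : (m:ℤ) ≤ e.1 ∧ e.1 + m ≤ (N:ℤ) - 1) (h' : (m:ℤ) ≤ e.2.1 ∧ e.2.1 + m ≤ (N:ℤ) - 1) :
    Gn m e.2.2 q ≤ Pe N q e := by
  rw [Pe_trl]
  apply Gn_le_set h0 h1
  intro g hg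
  rw [LSym.mem_mp, Finset.mem_erase]
  unfold Sn at hg
  rw [Finset.mem_erase] at hg
  obtain ⟨hg1, hg2⟩ := hg
  obtain ⟨x, y, b⟩ := e
  obtain ⟨x', y', b'⟩ := g
  simp only at h h' hg1
  refine ⟨?_, ?_⟩
  · intro h3
    apply hg1
    rw [trl_φs] at h3
    simp only [Prod.mk.injEq] at h3
    unfold e0
    simp only [Prod.mk.injEq]
    refine ⟨by omega, by omega, h3.2.2⟩
  · rw [trl_φs]
    dsimp only
    unfold boxE at hg2
    unfold EB
    cases b'
    · rw [mem_RE_false] at hg2 ⊢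
      omega
    · rw [mem_RE_true] at hg2 ⊢
      omega

/-- all base points and directions -/
noncomputable def PB (N : ℕ) : Finset Edg :=
  Finset.Icc 0 ((N:ℤ) - 1) ×ˢ (Finset.Icc 0 ((N:ℤ) - 1) ×ˢ (Finset.univ : Finset Bool))

/-- the ones in the bulk -/
noncomputable def IB (m N : ℕ) : Finset Edg :=
  Finset.Icc (m:ℤ) ((N:ℤ) - 1 - m) ×ˢ (Finset.Icc (m:ℤ) ((N:ℤ) - 1 - m) ×ˢ
    (Finset.univ : Finset Bool))

theorem EB_sub (N : ℕ) : EB N ⊆ PB N := by
  rintro ⟨x, y, b⟩ h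
  unfold EB at h
  unfold PB
  simp only [Finset.mem_product, Finset.mem_Icc, Finset.mem_univ, and_true]
  cases b
  · rw [mem_RE_false] at h
    omega
  · rw [mem_RE_true] at h
    omega

theorem card_PB (N : ℕ) : ((PB N).card : ℝ) = 2 * (N:ℝ) ^ 2 := by
  unfold PB
  rw [Finset.card_product, Finset.card_product, Int.card_Icc]
  have h1 : ((N:ℤ) - 1 + 1 - 0).toNat = N := by omega
  rw [h1]
  simp
  ring

theorem card_IB {m N : ℕ} (h : 2 * m ≤ N) : ((IB m N).card : ℝ) = 2 * ((N:ℝ) - 2 * m) ^ 2 := by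
  unfold IB
  rw [Finset.card_product, Finset.card_product, Int.card_Icc]
  have h1 : ((N:ℤ) - 1 - m + 1 - m).toNat = N - 2 * m := by omega
  rw [h1]
  have h2 : (((N - 2 * m : ℕ) : ℕ) : ℝ) = (N:ℝ) - 2 * m := by
    rw [Nat.cast_sub h]
    push_cast
    ring
  push_cast
  rw [h2]
  simp
  ring

theorem IB_sub (m N : ℕ) : IB m N ⊆ PB N := by
  rintro ⟨x, y, b⟩ h
  unfold IB at h
  unfold PB
  simp only [Finset.mem_product, Finset.mem_Icc, Finset.mem_univ, and_true] at h ⊢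
  omega

/-- The sum over both directions. -/
noncomputable def hG (q : ℝ) : ℝ := (1 - gI false q) + (1 - gI true q)

theorem sum_PB (N : ℕ) (q : ℝ) : ∑ e ∈ PB N, (1 - gI e.2.2 q) = (N:ℝ) ^ 2 * hG q := by
  unfold PB
  rw [Finset.sum_product]
  simp only [Finset.sum_product]
  simp only [Fintype.sum_bool, Finset.sum_const, Int.card_Icc]
  have h1 : ((N:ℤ) - 1 + 1 - 0).toNat = N := by omega
  rw [h1]
  unfold hG
  simp only [nsmul_eq_mul]
  ring

theorem deriv_approx {q : ℝ} (h0 : 0 ≤ q) (h1 : q ≤ 1) {m N : ℕ} (hm : 1 ≤ m)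
    (h : 2 * m ≤ N) :
    |(∑ e ∈ EB N, (1 - Pe N q e)) - (N:ℝ) ^ 2 * hG q| ≤
      2 * (N:ℝ) ^ 2 * arm (1/2) m + 8 * m * N := by
  classical
  have e1 : ∑ e ∈ EB N, (1 - Pe N q e) =
      ∑ e ∈ PB N, (if e ∈ EB N then (1 - Pe N q e) else 0) := by
    rw [← Finset.sum_filter, Finset.filter_mem_eq_inter,
      Finset.inter_eq_right.mpr (EB_sub N)]
  have hP : ∀ e : Edg, 0 ≤ gI e.2.2 q ∧ gI e.2.2 q ≤ 1 := fun e =>
    ⟨gI_nonneg h0 h1 _, gI_le_one h0 h1 _⟩
  have e2 : ∀ e ∈ PB N, |(if e ∈ EB N then (1 - Pe N q e) else 0) - (1 - gI e.2.2 q)| ≤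
      arm (1/2) m + (if e ∈ IB m N then 0 else 1) := by
    intro e _
    have hA : 0 ≤ arm (1/2) m := arm_nonneg (by norm_num) (by norm_num) m
    have k1 := hP e
    have k2 := Pe_nonneg h0 h1 N e
    have k3 := Pe_le h0 h1 N e
    by_cases hI : e ∈ IB m N
    · rw [if_pos hI, add_zero]
      have hI2 := hI
      unfold IB at hI2
      simp only [Finset.mem_product, Finset.mem_Icc, Finset.mem_univ, and_true] at hI2
      have hE : e ∈ EB N := by
        obtain ⟨x, y, b⟩ := e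
        unfold EB
        cases b
        · rw [mem_RE_false]
          simp only at hI2
          omega
        · rw [mem_RE_true]
          simp only at hI2
          omega
      rw [if_pos hE]
      have k4 : Gn m e.2.2 q ≤ Pe N q e := Pe_ge h0 h1 (by omega) (by omega)
      have k5 := gI_arm h0 h1 hm e.2.2
      rw [abs_le]
      constructor <;> linarith
    · rw [if_neg hI]
      split_ifs
      · rw [abs_le]
        constructor <;> linarith [k1.1, k1.2]
      · rw [abs_le]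
        constructor <;> linarith [k1.1, k1.2]
  rw [e1, ← sum_PB, ← Finset.sum_sub_distrib]
  refine (Finset.abs_sum_le_sum_abs _ _).trans ((Finset.sum_le_sum e2).trans ?_)
  rw [Finset.sum_add_distrib, Finset.sum_const, nsmul_eq_mul, card_PB]
  have e3 : ∑ e ∈ PB N, (if e ∈ IB m N then (0:ℝ) else 1) ≤ 8 * m * N := by
    have k1 : ∑ e ∈ PB N, (if e ∈ IB m N then (0:ℝ) else 1) =
        ∑ e ∈ PB N, (1 - (if e ∈ IB m N then (1:ℝ) else 0)) := by
      apply Finset.sum_congr rfl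
      intro e _
      split_ifs <;> norm_num
    have k2 : ∑ e ∈ PB N, (if e ∈ IB m N then (1:ℝ) else 0) = ((IB m N).card : ℝ) := by
      rw [← Finset.sum_filter, Finset.filter_mem_eq_inter,
        Finset.inter_eq_right.mpr (IB_sub m N), Finset.sum_const, nsmul_eq_mul, mul_one]
    rw [k1, Finset.sum_sub_distrib, k2, card_IB h, Finset.sum_const, nsmul_eq_mul, mul_one,
      card_PB]
    nlinarith [sq_nonneg ((m:ℝ))]
  linarith

/-- Uniform convergence of the derivatives. -/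
theorem deriv_unif {ε : ℝ} (hε : 0 < ε) : ∃ N0 : ℕ, ∀ N : ℕ, N0 ≤ N → 1 ≤ N ∧ ∀ q : ℝ,
    0 ≤ q → q ≤ 1 → |(∑ e ∈ EB N, (1 - Pe N q e)) / (N:ℝ) ^ 2 - hG q| ≤ ε := by
  obtain ⟨m0, hm0⟩ := (Metric.tendsto_atTop.mp arm_lim) (ε / 4) (by positivity)
  obtain ⟨m, hm⟩ : ∃ m : ℕ, m = m0 + 1 := ⟨_, rfl⟩
  have h2 := hm0 m (by omega)
  rw [Real.dist_eq, sub_zero, abs_of_nonneg (arm_nonneg (by norm_num) (by norm_num) m)] at h2
  obtain ⟨K, hK⟩ := exists_nat_gt (16 * (m:ℝ) / ε)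
  refine ⟨max (2 * m) K, ?_⟩
  intro N hN
  have hN1 : 2 * m ≤ N := (le_max_left _ _).trans hN
  have hN2 : K ≤ N := (le_max_right _ _).trans hN
  have hN3 : 1 ≤ N := by omega
  refine ⟨hN3, ?_⟩
  intro q h0 h1
  have hNr : (0:ℝ) < N := by exact_mod_cast hN3
  have h3 := deriv_approx h0 h1 (m := m) (N := N) (by omega) hN1
  have h4 : (∑ e ∈ EB N, (1 - Pe N q e)) / (N:ℝ) ^ 2 - hG q =
      ((∑ e ∈ EB N, (1 - Pe N q e)) - (N:ℝ) ^ 2 * hG q) / (N:ℝ) ^ 2 := by
    field_simp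
  rw [h4, abs_div, abs_of_pos (by positivity : (0:ℝ) < (N:ℝ) ^ 2), div_le_iff₀ (by positivity)]
  refine h3.trans ?_
  have h5 : 16 * (m:ℝ) / ε < N := hK.trans_le (by exact_mod_cast hN2)
  rw [div_lt_iff₀ hε] at h5
  have h6 : 2 * (N:ℝ) ^ 2 * arm (1/2) m ≤ 2 * (N:ℝ) ^ 2 * (ε / 4) :=
    mul_le_mul_of_nonneg_left h2.le (by positivity)
  have h7 : 8 * (m:ℝ) * N ≤ (N * ε) / 2 * N := by
    apply mul_le_mul_of_nonneg_right _ hNr.le
    linarith
  nlinarith

theorem hG_cont : ContinuousOn hG (Set.Icc 0 1) := by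
  unfold hG
  exact (continuousOn_const.sub (gI_cont false)).add (continuousOn_const.sub (gI_cont true))

/-! ### The value at zero -/

theorem Ex_at_zero (S : Finset Edg) (f : Finset Edg → ℝ) : Ex (fun _ => (0:ℝ)) S f = f ∅ := by
  unfold Ex
  rw [Finset.sum_eq_single ∅]
  · simp
  · intro F _ hne
    obtain ⟨e, he⟩ := Finset.nonempty_iff_ne_empty.mpr hne
    rw [Finset.prod_eq_zero he rfl]
    ring
  · intro h
    exact absurd (Finset.empty_mem_powerset S) h

theorem reach_empty {u v : Vtx} (h : Reach (∅ : Set Edg) u v) : u = v := by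
  induction h with
  | refl => rfl
  | tail _ hs _ =>
    obtain ⟨e, he, _⟩ := hs
    exact absurd he (Set.notMem_empty e)

theorem card_VB (N : ℕ) : ((VB N).card : ℝ) = (N:ℝ) ^ 2 := by
  unfold VB
  rw [Finset.card_product, Int.card_Icc]
  have h1 : ((N:ℤ) - 1 + 1 - 0).toNat = N := by omega
  rw [h1]
  push_cast
  ring

theorem KN_zero (N : ℕ) : KN N 0 = (N:ℝ) ^ 2 := by
  classical
  unfold KN
  rw [Ex_at_zero, ← card_VB]
  unfold nc NC TC
  rw [Finset.card_image_of_injOn]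
  · congr 2
    rw [Finset.filter_true_of_mem]
    intro x _
    exact RB_univ
  · intro u _ v _ huv
    have h1 : u ∈ clu src tgt (↑(∅ : Finset Edg) : Set Edg) v := by
      rw [← huv]
      exact GR.refl _ _
    have h2 : Reach (↑(∅ : Finset Edg) : Set Edg) v u := h1
    rw [Finset.coe_empty] at h2
    exact (reach_empty h2).symm

end Run7.h976
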