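import Pool.Agent.Run7.h976.TRA

/-!
Bond percolation on `ℤ²`: the mean cluster density and its expansion at `1/2`.
-/

set_option autoImplicit false

namespace Run7.h976

open H974 H12S H973N H389NS H389NS.E1b Finset

/-- Extension of `hG` to the real line. -/
noncomputable def hE : ℝ → ℝ :=
  Set.IccExtend (zero_le_one' ℝ) ((Set.Icc (0:ℝ) 1).domRestrict hG)

theorem hE_cont : Continuous hE :=
  Continuous.Icc_extend' (continuousOn_iff_continuous_domRestrict.mp hG_cont)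

theorem hE_eq {q : ℝ} (h0 : 0 ≤ q) (h1 : q ≤ 1) : hE q = hG q := by
  unfold hE
  rw [Set.IccExtend_of_mem _ _ ⟨h0, h1⟩]
  rfl

/-- The mean cluster density. -/
noncomputable def kp (q : ℝ) : ℝ := 1 - ∫ s in (0:ℝ)..q, hE s

theorem kp_deriv (q : ℝ) : HasDerivAt kp (-(hE q)) q := by
  have h1 : HasDerivAt (fun u => ∫ s in (0:ℝ)..u, hE s) (hE q) q :=
    intervalIntegral.integral_hasDerivAt_right (hE_cont.intervalIntegrable _ _)
      (hE_cont.stronglyMeasurableAtFilter _ _) hE_cont.continuousAt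
  have h2 := h1.const_sub 1
  exact h2

theorem kp_lim {q : ℝ} (h0 : 0 ≤ q) (h1 : q ≤ 1) :
    Filter.Tendsto (fun N : ℕ => KN N q / (N:ℝ) ^ 2) Filter.atTop (nhds (kp q)) := by
  rw [Metric.tendsto_atTop]
  intro ε hε
  obtain ⟨N0, hN0⟩ := deriv_unif (half_pos hε)
  refine ⟨N0, ?_⟩
  intro N hN
  obtain ⟨hN1, hd⟩ := hN0 N hN
  have hNr : (0:ℝ) < N := by exact_mod_cast hN1
  have h2 := Convex.norm_image_sub_le_of_norm_hasDerivWithin_le
    (f := fun t => KN N t / (N:ℝ) ^ 2 - kp t)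
    (f' := fun t => (-(∑ e ∈ EB N, (1 - Pe N t e))) / (N:ℝ) ^ 2 - (-(hE t)))
    (s := Set.Icc 0 1) (x := 0) (y := q) (C := ε / 2) (fun t _ => by
      apply HasDerivAt.hasDerivWithinAt
      exact ((KN_deriv N t).div_const _).sub (kp_deriv t)) (fun t ht => by
      have h3 := hd t ht.1 ht.2
      rw [hE_eq ht.1 ht.2, Real.norm_eq_abs]
      have h4 : (-(∑ e ∈ EB N, (1 - Pe N t e))) / (N:ℝ) ^ 2 - (-(hG t)) =
          -((∑ e ∈ EB N, (1 - Pe N t e)) / (N:ℝ) ^ 2 - hG t) := by ring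
      rw [h4, abs_neg]
      exact h3) (convex_Icc 0 1) ⟨le_rfl, zero_le_one⟩ ⟨h0, h1⟩
  have h5 : KN N 0 / (N:ℝ) ^ 2 - kp 0 = 0 := by
    rw [KN_zero]
    unfold kp
    rw [intervalIntegral.integral_same]
    field_simp
    ring
  rw [h5, sub_zero, sub_zero, Real.norm_eq_abs, Real.norm_eq_abs, abs_of_nonneg h0] at h2
  rw [Real.dist_eq]
  have h6 : ε / 2 * q ≤ ε / 2 := mul_le_of_le_one_right (by positivity) h1
  linarith

/-- **Expansion of the mean cluster density at `1/2`.** -/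
theorem kp_expand : ∃ k D : ℝ, 0 < D ∧
    (∀ s : ℝ, |s| ≤ 1/2 → |hE (1/2 + s) - hE (1/2) + k * s| ≤ D * |s| ^ (5/3 : ℝ)) ∧
    (∀ s : ℝ, |s| ≤ 1/2 →
      |kp (1/2 + s) - kp (1/2) + hE (1/2) * s - 1/2 * k * s ^ 2| ≤ D * |s| ^ (8/3 : ℝ)) := by
  obtain ⟨a1, D1, hD1, h1⟩ := gI_expand false
  obtain ⟨a2, D2, hD2, h2⟩ := gI_expand true
  have hA : ∀ s : ℝ, |s| ≤ 1/2 →
      |hE (1/2 + s) - hE (1/2) + (a1 + a2) * s| ≤ (D1 + D2) * |s| ^ (5/3 : ℝ) := by
    intro s hs
    have h3 := abs_le.mp hs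
    rw [hE_eq (by linarith) (by linarith), hE_eq (by norm_num) (by norm_num)]
    unfold hG
    have h4 : 1 - gI false (1/2 + s) + (1 - gI true (1/2 + s)) -
        (1 - gI false (1/2) + (1 - gI true (1/2))) + (a1 + a2) * s =
        -(gI false (1/2 + s) - gI false (1/2) - a1 * s) +
          -(gI true (1/2 + s) - gI true (1/2) - a2 * s) := by ring
    rw [h4]
    refine (abs_add_le _ _).trans ?_
    rw [abs_neg, abs_neg, add_mul]
    exact add_le_add (h1 s hs) (h2 s hs)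
  refine ⟨a1 + a2, D1 + D2, by positivity, hA, ?_⟩
  intro s hs
  have hsub : ∀ t : ℝ, t ∈ Set.uIcc 0 s → |t| ≤ |s| := by
    intro t ht
    rcases Set.mem_uIcc.mp ht with ⟨k1, k2⟩ | ⟨k1, k2⟩
    · rw [abs_of_nonneg k1, abs_of_nonneg (k1.trans k2)]
      exact k2
    · rw [abs_of_nonpos k2, abs_of_nonpos (k1.trans k2)]
      linarith
  have h5 := Convex.norm_image_sub_le_of_norm_hasDerivWithin_le
    (f := fun t => kp (1/2 + t) - kp (1/2) + hE (1/2) * t - 1/2 * (a1 + a2) * t ^ 2)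
    (f' := fun t => -(hE (1/2 + t)) + hE (1/2) - (a1 + a2) * t)
    (s := Set.uIcc 0 s) (x := 0) (y := s) (C := (D1 + D2) * |s| ^ (5/3 : ℝ)) (fun t _ => by
      apply HasDerivAt.hasDerivWithinAt
      have g1 : HasDerivAt (fun t : ℝ => 1/2 + t) 1 t := (hasDerivAt_id t).const_add _
      have g2 : HasDerivAt (fun t : ℝ => kp (1/2 + t)) (-(hE (1/2 + t))) t := by
        have := (kp_deriv (1/2 + t)).comp t g1
        rw [mul_one] at this
        exact this
      have g3 : HasDerivAt (fun t : ℝ => hE (1/2) * t) (hE (1/2)) t := by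
        simpa using (hasDerivAt_id t).const_mul (hE (1/2))
      have g4 : HasDerivAt (fun t : ℝ => 1/2 * (a1 + a2) * t ^ 2) ((a1 + a2) * t) t := by
        have g5 := (hasDerivAt_pow 2 t).const_mul (1/2 * (a1 + a2))
        have e5 : 1/2 * (a1 + a2) * (((2:ℕ):ℝ) * t ^ (2 - 1)) = (a1 + a2) * t := by
          have : t ^ (2 - 1) = t := pow_one t
          rw [this]
          push_cast
          ring
        rw [e5] at g5
        exact g5
      have g6 := ((g2.sub_const (kp (1/2))).add g3).sub g4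
      exact g6) (fun t ht => by
      have k1 := hsub t ht
      have k2 := hA t (k1.trans hs)
      rw [Real.norm_eq_abs]
      have k3 : -(hE (1/2 + t)) + hE (1/2) - (a1 + a2) * t =
          -(hE (1/2 + t) - hE (1/2) + (a1 + a2) * t) := by ring
      rw [k3, abs_neg]
      refine k2.trans ?_
      apply mul_le_mul_of_nonneg_left _ (by positivity)
      exact Real.rpow_le_rpow (abs_nonneg _) k1 (by norm_num)) (convex_uIcc 0 s)
      Set.left_mem_uIcc Set.right_mem_uIcc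
  have h6 : kp (1/2 + 0) - kp (1/2) + hE (1/2) * 0 - 1/2 * (a1 + a2) * 0 ^ 2 = 0 := by
    rw [add_zero]
    ring
  rw [h6, sub_zero, sub_zero, Real.norm_eq_abs, Real.norm_eq_abs] at h5
  refine h5.trans (le_of_eq ?_)
  rcases eq_or_ne s 0 with rfl | hne
  · rw [abs_zero, Real.zero_rpow (by norm_num), Real.zero_rpow (by norm_num)]
    ring
  · have hp : 0 < |s| := abs_pos.mpr hne
    have e1 : |s| ^ (8/3 : ℝ) = |s| ^ (5/3 : ℝ) * |s| := by
      have : |s| ^ (8/3 : ℝ) = |s| ^ ((5/3 : ℝ) + 1) := by norm_num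
      rw [this, Real.rpow_add hp, Real.rpow_one]
    rw [e1]
    ring

end Run7.h976
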